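import Mathlib

set_option autoImplicit false

namespace Pool.Agent.Lib.Pfd3312

/-- The point of the line with string `w` with parameter `i`: a fixed symbol stays, an up arrow
(`Sum.inr true`) becomes `i`, a down arrow (`Sum.inr false`) becomes `2 - i`. -/
def point {ι : Type} (w : ι → Fin 3 ⊕ Bool) (i : Fin 3) : ι → Fin 3 := fun j =>
  match w j with
  | Sum.inl a => a
  | Sum.inr true => i
  | Sum.inr false => Fin.rev i

/-- No line given by a string with an arrow is monochromatic. -/
def Good {ι C : Type} (c : (ι → Fin 3) → C) : Prop :=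
  ∀ w : ι → Fin 3 ⊕ Bool, (∃ j b, w j = Sum.inr b) →
    ¬ (c (point w 0) = c (point w 1) ∧ c (point w 1) = c (point w 2))

/-- The point of `{1,2,3}^d` in `ℝ^d` with coordinates `x i + 1`. -/
def emb {d : ℕ} (x : Fin d → Fin 3) : Fin d → ℝ := fun i => ((x i : ℕ) : ℝ) + 1

/-- No three distinct points of `S` (a set of points of `{1,2,3}^d`) are collinear in `ℝ^d`. -/
def GeneralPosition {d : ℕ} (S : Set (Fin d → Fin 3)) : Prop :=
  ∀ p ∈ S, ∀ q ∈ S, ∀ r ∈ S, p ≠ q → q ≠ r → p ≠ r →
    ¬ Collinear ℝ ({emb p, emb q, emb r} : Set (Fin d → ℝ))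

/-- `f d` is the least number of parts in a partition of `{1,2,3}^d` into sets in general
position. -/
noncomputable def f (d : ℕ) : ℕ :=
  sInf {k : ℕ | ∃ c : (Fin d → Fin 3) → Fin k, ∀ a, GeneralPosition (c ⁻¹' {a})}

lemma emb_injective {d : ℕ} : Function.Injective (emb : (Fin d → Fin 3) → (Fin d → ℝ)) := by
  intro x y h
  funext i
  have := congrFun h i
  simp only [emb, add_left_inj, Nat.cast_inj] at this
  exact Fin.ext this

/-- From a collinear triple in order to a string. -/
lemma string_of_between {d : ℕ} {p q r : Fin d → Fin 3} {v : Fin d → ℝ} {a b : ℝ}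
    (ha : a < 0) (hb : 0 < b) (hp : emb p = a • v + emb q) (hr : emb r = b • v + emb q)
    (hpq : p ≠ q) :
    ∃ w : Fin d → Fin 3 ⊕ Bool, (∃ j b, w j = Sum.inr b) ∧
      point w 0 = p ∧ point w 1 = q ∧ point w 2 = r := by
  classical
  have key : ∀ i, (p i = q i ∧ r i = q i) ∨ (p i = 0 ∧ q i = 1 ∧ r i = 2) ∨
      (p i = 2 ∧ q i = 1 ∧ r i = 0) := by
    intro i
    have h1 := congrFun hp i
    have h2 := congrFun hr i
    simp only [emb, Pi.add_apply, Pi.smul_apply, smul_eq_mul] at h1 h2
    rcases lt_trichotomy (v i) 0 with hv | hv | hv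
    · right; right
      have e1 : ((q i : ℕ) : ℝ) < (p i : ℕ) := by nlinarith
      have e2 : ((r i : ℕ) : ℝ) < (q i : ℕ) := by nlinarith
      have e1' : (q i : ℕ) < (p i : ℕ) := by exact_mod_cast e1
      have e2' : (r i : ℕ) < (q i : ℕ) := by exact_mod_cast e2
      have := (p i).isLt
      have := (q i).isLt
      have := (r i).isLt
      refine ⟨Fin.ext ?_, Fin.ext ?_, Fin.ext ?_⟩
      · show (p i : ℕ) = 2; omega
      · show (q i : ℕ) = 1; omega
      · show (r i : ℕ) = 0; omega
    · left
      rw [hv] at h1 h2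
      have e1 : ((p i : ℕ) : ℝ) = (q i : ℕ) := by linarith
      have e2 : ((r i : ℕ) : ℝ) = (q i : ℕ) := by linarith
      exact ⟨Fin.ext (by exact_mod_cast e1), Fin.ext (by exact_mod_cast e2)⟩
    · right; left
      have e1 : ((p i : ℕ) : ℝ) < (q i : ℕ) := by nlinarith
      have e2 : ((q i : ℕ) : ℝ) < (r i : ℕ) := by nlinarith
      have e1' : (p i : ℕ) < (q i : ℕ) := by exact_mod_cast e1
      have e2' : (q i : ℕ) < (r i : ℕ) := by exact_mod_cast e2
      have := (p i).isLt
      have := (q i).isLt
      have := (r i).isLt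
      refine ⟨Fin.ext ?_, Fin.ext ?_, Fin.ext ?_⟩
      · show (p i : ℕ) = 0; omega
      · show (q i : ℕ) = 1; omega
      · show (r i : ℕ) = 2; omega
  refine ⟨fun i => if p i = q i then Sum.inl (q i) else
    (if p i = 0 then Sum.inr true else Sum.inr false), ?_, ?_, ?_, ?_⟩
  · have : ∃ j, p j ≠ q j := by
      by_contra hcon
      push Not at hcon
      exact hpq (funext hcon)
    obtain ⟨j, hj⟩ := this
    refine ⟨j, if p j = 0 then true else false, ?_⟩
    show (if p j = q j then Sum.inl (q j) else
      (if p j = 0 then Sum.inr true else Sum.inr false)) = _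
    rw [if_neg hj]
    split_ifs <;> rfl
  · funext i
    rcases key i with ⟨h1, h2⟩ | ⟨h1, h2, h3⟩ | ⟨h1, h2, h3⟩
    · simp [point, h1]
    · simp [point, h1, h2]
    · simp [point, h1, h2]
  · funext i
    rcases key i with ⟨h1, h2⟩ | ⟨h1, h2, h3⟩ | ⟨h1, h2, h3⟩
    · simp [point, h1]
    · simp [point, h1, h2]
    · simp [point, h1, h2]
  · funext i
    rcases key i with ⟨h1, h2⟩ | ⟨h1, h2, h3⟩ | ⟨h1, h2, h3⟩
    · simp [point, h1, h2]
    · simp [point, h1, h2, h3]
    · simp [point, h1, h2, h3]

/-- Good colourings have all classes in general position. -/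
lemma Good.generalPosition {d : ℕ} {C : Type} {c : (Fin d → Fin 3) → C} (hc : Good c) (a : C) :
    GeneralPosition (c ⁻¹' {a}) := by
  intro p hp q hq r hr hpq hqr hpr hcol
  simp only [Set.mem_preimage, Set.mem_singleton_iff] at hp hq hr
  -- a helper: ordered triples are impossible
  have main : ∀ (p q r : Fin d → Fin 3) (v : Fin d → ℝ) (s t : ℝ), c p = a → c q = a → c r = a →
      p ≠ q → s < 0 → 0 < t → emb p = s • v + emb q → emb r = t • v + emb q → False := by
    intro p q r v s t hp hq hr hpq hs ht h1 h2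
    obtain ⟨w, hw, w0, w1, w2⟩ := string_of_between hs ht h1 h2 hpq
    refine hc w hw ⟨?_, ?_⟩
    · rw [w0, w1, hp, hq]
    · rw [w1, w2, hq, hr]
  obtain ⟨v, hv⟩ := (collinear_iff_of_mem (p₀ := emb q) (by simp)).1 hcol
  obtain ⟨s, hs⟩ := hv (emb p) (by simp)
  obtain ⟨t, ht⟩ := hv (emb r) (by simp)
  simp only [vadd_eq_add] at hs ht
  have hs0 : s ≠ 0 := by
    rintro rfl
    apply hpq
    apply emb_injective
    rw [hs]; simp
  have ht0 : t ≠ 0 := by
    rintro rfl
    apply hqr
    apply emb_injective
    rw [ht]; simp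
  have hst : s ≠ t := by
    rintro rfl
    apply hpr
    apply emb_injective
    rw [hs, ht]
  -- relations with the other base points
  have hqp : emb q = (-s) • v + emb p := by rw [hs]; simp
  have hrp : emb r = (t - s) • v + emb p := by rw [ht, hs, sub_smul]; abel
  have hqr' : emb q = (-t) • v + emb r := by rw [ht]; simp
  have hpr' : emb p = (s - t) • v + emb r := by rw [ht, hs, sub_smul]; abel
  rcases lt_or_gt_of_ne hs0 with h1 | h1
  · rcases lt_or_gt_of_ne ht0 with h2 | h2
    · rcases lt_or_gt_of_ne hst with h3 | h3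
      · -- s < t < 0 : r between p and q
        exact main p r q v (s - t) (-t) hp hr hq hpr (by linarith) (by linarith) hpr' hqr'
      · -- t < s < 0 : p between r and q
        exact main r p q v (t - s) (-s) hr hp hq hpr.symm (by linarith) (by linarith) hrp hqp
    · exact main p q r v s t hp hq hr hpq h1 h2 hs ht
  · rcases lt_or_gt_of_ne ht0 with h2 | h2
    · exact main r q p v t s hr hq hp hqr.symm h2 h1 ht hs
    · rcases lt_or_gt_of_ne hst with h3 | h3
      · -- 0 < s < t : p between q and r
        exact main q p r v (-s) (t - s) hq hp hr hpq.symm (by linarith) (by linarith) hqp hrp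
      · -- 0 < t < s : r between q and p
        exact main q r p v (-t) (s - t) hq hr hp hqr (by linarith) (by linarith) hqr' hpr'

/-- If all classes are in general position, the colouring is good. -/
lemma good_of_generalPosition {d : ℕ} {C : Type} {c : (Fin d → Fin 3) → C}
    (h : ∀ a, GeneralPosition (c ⁻¹' {a})) : Good c := by
  intro w ⟨j, b, hj⟩ ⟨h01, h12⟩
  have hne01 : point w 0 ≠ point w 1 := by
    intro he
    have := congrFun he j
    simp only [point, hj] at this
    cases b <;> simp at this
  have hne12 : point w 1 ≠ point w 2 := by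
    intro he
    have := congrFun he j
    simp only [point, hj] at this
    cases b <;> simp at this
  have hne02 : point w 0 ≠ point w 2 := by
    intro he
    have := congrFun he j
    simp only [point, hj] at this
    cases b <;> simp at this
  refine h (c (point w 1)) (point w 0) (by simpa using h01) (point w 1) (by simp) (point w 2)
    (by simpa using h12.symm) hne01 hne12 hne02 ?_
  rw [collinear_iff_of_mem (p₀ := emb (point w 1)) (by simp)]
  refine ⟨emb (point w 2) - emb (point w 1), ?_⟩
  intro p hp
  simp only [Set.mem_insert_iff, Set.mem_singleton_iff] at hp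
  rcases hp with rfl | rfl | rfl
  · refine ⟨-1, ?_⟩
    funext i
    simp only [emb, vadd_eq_add, Pi.add_apply, Pi.smul_apply, Pi.sub_apply, smul_eq_mul, point]
    rcases w i with a | b
    · simp
    · cases b
      · simp [Fin.rev]; norm_num
      · simp; norm_num
  · exact ⟨0, by simp⟩
  · exact ⟨1, by simp⟩

/-- `{1,2,3}^d` can be coloured with `k` colours without a monochromatic line. -/
def Col (d k : ℕ) : Prop := ∃ c : (Fin d → Fin 3) → Fin k, Good c

lemma f_eq (d : ℕ) : f d = sInf {k : ℕ | Col d k} := by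
  unfold f Col
  congr 1
  ext k
  constructor
  · rintro ⟨c, hc⟩
    exact ⟨c, good_of_generalPosition hc⟩
  · rintro ⟨c, hc⟩
    exact ⟨c, fun a => hc.generalPosition a⟩

lemma f_le_of_col {d k : ℕ} (h : Col d k) : f d ≤ k := by
  rw [f_eq]
  exact Nat.sInf_le h

lemma Col.mono {d k l : ℕ} (h : Col d k) (hkl : k ≤ l) : Col d l := by
  obtain ⟨c, hc⟩ := h
  refine ⟨fun x => Fin.castLE hkl (c x), ?_⟩
  intro w hw hcon
  refine hc w hw ⟨?_, ?_⟩
  · exact Fin.castLE_injective hkl hcon.1
  · exact Fin.castLE_injective hkl hcon.2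

lemma exists_col (d : ℕ) : ∃ k, Col d k := by
  refine ⟨Fintype.card (Fin d → Fin 3), fun x => Fintype.equivFin _ x, ?_⟩
  intro w ⟨j, b, hj⟩ hcon
  have := (Fintype.equivFin (Fin d → Fin 3)).injective hcon.1
  have h2 := congrFun this j
  simp only [point, hj] at h2
  cases b <;> simp at h2

/-- Lower bounds for `f` from non-colourability. -/
lemma lt_f_of_not_col {d k : ℕ} (h : ¬ Col d k) : k < f d := by
  by_contra hcon
  push Not at hcon
  have hmem : Col d (f d) := by
    rw [f_eq]
    exact Nat.sInf_mem (exists_col d)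
  exact h (hmem.mono hcon)

end Pool.Agent.Lib.Pfd3312
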