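import Mathlib
import Pool.Agent.Lib.Pfd3312.Basic

set_option autoImplicit false

/-!
An upper bound for the number of colours: weights without short signed relations together with a
colouring of integers in the spirit of Behrend.
-/

namespace Pool.Agent.Lib.Pfd3312.Sub

open Finset

/-! ### The digit function -/

/-- Sum of squares of the first `D` digits of `n` in base `q`. -/
def nrm (q : ℕ) : ℕ → ℕ → ℕ
  | 0, _ => 0
  | D + 1, n => (n % q) ^ 2 + nrm q D (n / q)

/-- The parities of the first `D` digits of `n` in base `q`, coded in binary. -/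
def par (q : ℕ) : ℕ → ℕ → ℕ
  | 0, _ => 0
  | D + 1, n => (n % q) % 2 + 2 * par q D (n / q)

lemma par_lt (q : ℕ) : ∀ D n : ℕ, par q D n < 2 ^ D := by
  intro D
  induction D with
  | zero => intro n; simp [par]
  | succ D ih =>
    intro n
    have h1 := ih (n / q)
    have h2 : (n % q) % 2 < 2 := Nat.mod_lt _ (by norm_num)
    simp only [par, pow_succ]
    omega

lemma nrm_le (q : ℕ) (hq : 0 < q) : ∀ D n : ℕ, nrm q D n ≤ D * q ^ 2 := by
  intro D
  induction D with
  | zero => intro n; simp [nrm]
  | succ D ih =>
    intro n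
    have h1 := ih (n / q)
    have h2 : n % q < q := Nat.mod_lt _ hq
    have h3 : (n % q) ^ 2 ≤ q ^ 2 := Nat.pow_le_pow_left h2.le 2
    simp only [nrm]
    nlinarith

lemma key (k : ℕ) (hk : 0 < k) : ∀ (D n1 n3 a : ℕ), n1 < (2 * k) ^ D → n3 < (2 * k) ^ D →
    n1 + n3 = 2 * a → par (2 * k) D n1 = par (2 * k) D n3 →
    2 * nrm (2 * k) D a ≤ nrm (2 * k) D n1 + nrm (2 * k) D n3 ∧
    (n1 ≠ n3 → 2 * nrm (2 * k) D a < nrm (2 * k) D n1 + nrm (2 * k) D n3) := by
  intro D
  induction D with
  | zero =>
    intro n1 n3 a h1 h3 ha hp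
    simp only [pow_zero, Nat.lt_one_iff] at h1 h3
    subst h1; subst h3
    simp [nrm]
  | succ D ih =>
    intro n1 n3 a h1 h3 ha hp
    have hq : 0 < 2 * k := by omega
    simp only [par] at hp
    have p1 : (n1 % (2 * k)) % 2 = n1 % 2 := Nat.mod_mod_of_dvd n1 ⟨k, rfl⟩
    have p3 : (n3 % (2 * k)) % 2 = n3 % 2 := Nat.mod_mod_of_dvd n3 ⟨k, rfl⟩
    have hpp : par (2 * k) D (n1 / (2 * k)) = par (2 * k) D (n3 / (2 * k)) := by omega
    have hpr : (n1 % (2 * k)) % 2 = (n3 % (2 * k)) % 2 := by omega
    have l1 : n1 / (2 * k) < (2 * k) ^ D := by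
      rw [Nat.div_lt_iff_lt_mul hq]
      rw [pow_succ] at h1
      exact h1
    have l3 : n3 / (2 * k) < (2 * k) ^ D := by
      rw [Nat.div_lt_iff_lt_mul hq]
      rw [pow_succ] at h3
      exact h3
    -- parity of the quotients
    have hpq : (n1 / (2 * k)) % 2 = (n3 / (2 * k)) % 2 := by
      cases D with
      | zero =>
        simp only [pow_zero, Nat.lt_one_iff] at l1 l3
        rw [l1, l3]
      | succ D =>
        simp only [par] at hpp
        have e1 : ((n1 / (2 * k)) % (2 * k)) % 2 = (n1 / (2 * k)) % 2 :=
          Nat.mod_mod_of_dvd _ ⟨k, rfl⟩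
        have e3 : ((n3 / (2 * k)) % (2 * k)) % 2 = (n3 / (2 * k)) % 2 :=
          Nat.mod_mod_of_dvd _ ⟨k, rfl⟩
        omega
    obtain ⟨M, hM⟩ : ∃ M, n1 / (2 * k) + n3 / (2 * k) = 2 * M :=
      ⟨(n1 / (2 * k) + n3 / (2 * k)) / 2, by omega⟩
    obtain ⟨r, hr⟩ : ∃ r, n1 % (2 * k) + n3 % (2 * k) = 2 * r :=
      ⟨(n1 % (2 * k) + n3 % (2 * k)) / 2, by omega⟩
    have r1 : n1 % (2 * k) < 2 * k := Nat.mod_lt _ hq
    have r3 : n3 % (2 * k) < 2 * k := Nat.mod_lt _ hq
    have hrlt : r < 2 * k := by omega
    have d1 := Nat.div_add_mod n1 (2 * k)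
    have d3 := Nat.div_add_mod n3 (2 * k)
    have ha' : a = 2 * k * M + r := by
      have : 2 * a = 2 * (2 * k * M + r) := by
        rw [← ha, ← d1, ← d3]
        have : 2 * k * (n1 / (2 * k)) + 2 * k * (n3 / (2 * k)) = 2 * k * (2 * M) := by
          rw [← mul_add, hM]
        nlinarith
      omega
    have hadiv : a / (2 * k) = M := by
      rw [ha', Nat.mul_add_div hq, Nat.div_eq_of_lt hrlt, add_zero]
    have hamod : a % (2 * k) = r := by
      rw [ha', Nat.mul_add_mod, Nat.mod_eq_of_lt hrlt]
    obtain ⟨ih1, ih2⟩ := ih (n1 / (2 * k)) (n3 / (2 * k)) M l1 l3 hM hpp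
    simp only [nrm, hadiv, hamod]
    set u := n1 % (2 * k) with hu
    set v := n3 % (2 * k) with hv
    have hsq : 2 * r ^ 2 ≤ u ^ 2 + v ^ 2 := by
      have : (2 * r) ^ 2 ≤ 2 * (u ^ 2 + v ^ 2) := by
        rw [← hr]
        zify
        nlinarith [sq_nonneg ((u : ℤ) - v)]
      nlinarith
    refine ⟨by omega, fun hne => ?_⟩
    by_cases huv : u = v
    · have : n1 / (2 * k) ≠ n3 / (2 * k) := by
        intro hcon
        apply hne
        rw [← d1, ← d3, hcon, huv]
      have := ih2 this
      omega
    · have hsq' : 2 * r ^ 2 < u ^ 2 + v ^ 2 := by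
        have : (2 * r) ^ 2 < 2 * (u ^ 2 + v ^ 2) := by
          rw [← hr]
          zify
          have h0 : (u : ℤ) - v ≠ 0 := by
            intro h
            apply huv
            omega
          have := sq_pos_of_ne_zero h0
          nlinarith
        nlinarith
      omega

/-- The colour of an integer. -/
def sc (q D n : ℕ) : ℕ := 2 ^ D * (D * q ^ 2 - nrm q D n) + par q D n

lemma sc_lt (q D n : ℕ) : sc q D n < 2 ^ D * (D * q ^ 2 + 1) := by
  have h1 := par_lt q D n
  have h2 : D * q ^ 2 - nrm q D n ≤ D * q ^ 2 := Nat.sub_le _ _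
  unfold sc
  have h3 : 2 ^ D * (D * q ^ 2 - nrm q D n) ≤ 2 ^ D * (D * q ^ 2) := Nat.mul_le_mul_left _ h2
  rw [mul_add, mul_one]
  omega

lemma sc_mid (k : ℕ) (hk : 0 < k) (D n1 n3 a : ℕ) (h1 : n1 < (2 * k) ^ D)
    (h3 : n3 < (2 * k) ^ D) (ha : n1 + n3 = 2 * a) (hne : n1 ≠ n3)
    (hs : sc (2 * k) D n1 = sc (2 * k) D n3) : sc (2 * k) D n1 < sc (2 * k) D a := by
  have q0 : 0 < 2 * k := by omega
  have p1 := par_lt (2 * k) D n1
  have p3 := par_lt (2 * k) D n3
  have b1 := nrm_le (2 * k) q0 D n1
  have b3 := nrm_le (2 * k) q0 D n3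
  have ba := nrm_le (2 * k) q0 D a
  have m1 : sc (2 * k) D n1 % 2 ^ D = par (2 * k) D n1 := by
    unfold sc
    rw [Nat.mul_add_mod, Nat.mod_eq_of_lt p1]
  have m3 : sc (2 * k) D n3 % 2 ^ D = par (2 * k) D n3 := by
    unfold sc
    rw [Nat.mul_add_mod, Nat.mod_eq_of_lt p3]
  have e1 : sc (2 * k) D n1 / 2 ^ D = D * (2 * k) ^ 2 - nrm (2 * k) D n1 := by
    unfold sc
    rw [Nat.mul_add_div (by positivity), Nat.div_eq_of_lt p1, add_zero]
  have e3 : sc (2 * k) D n3 / 2 ^ D = D * (2 * k) ^ 2 - nrm (2 * k) D n3 := by
    unfold sc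
    rw [Nat.mul_add_div (by positivity), Nat.div_eq_of_lt p3, add_zero]
  have hp : par (2 * k) D n1 = par (2 * k) D n3 := by rw [← m1, ← m3, hs]
  have hn : nrm (2 * k) D n1 = nrm (2 * k) D n3 := by
    have : D * (2 * k) ^ 2 - nrm (2 * k) D n1 = D * (2 * k) ^ 2 - nrm (2 * k) D n3 := by
      rw [← e1, ← e3, hs]
    omega
  have hlt := (key k hk D n1 n3 a h1 h3 ha hp).2 hne
  have hlt' : nrm (2 * k) D a < nrm (2 * k) D n1 := by omega
  unfold sc
  have hstep : D * (2 * k) ^ 2 - nrm (2 * k) D n1 + 1 ≤ D * (2 * k) ^ 2 - nrm (2 * k) D a := by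
    omega
  have := Nat.mul_le_mul_left (2 ^ D) hstep
  rw [mul_add, mul_one] at this
  omega

/-! ### Weights without short signed relations -/

/-- All sums of at most `m` signed weights. -/
def sums {d : ℕ} (w : Fin d → ℕ) : ℕ → Finset ℤ
  | 0 => {0}
  | m + 1 => (insert (0 : ℤ) (univ.image (fun j : Fin d × Bool =>
      if j.2 then (w j.1 : ℤ) else -(w j.1 : ℤ)))).biUnion
        (fun t => (sums w m).image (fun s => s + t))

lemma sums_card {d : ℕ} (w : Fin d → ℕ) (m : ℕ) : (sums w m).card ≤ (2 * d + 1) ^ m := by
  induction m with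
  | zero => simp [sums]
  | succ m ih =>
    simp only [sums]
    refine (Finset.card_biUnion_le).trans ?_
    have h1 : ∀ t ∈ (insert (0 : ℤ) (univ.image (fun j : Fin d × Bool =>
      if j.2 then (w j.1 : ℤ) else -(w j.1 : ℤ)))),
        ((sums w m).image (fun s => s + t)).card ≤ (2 * d + 1) ^ m := by
      intro t _
      exact Finset.card_image_le.trans ih
    refine (Finset.sum_le_card_nsmul _ _ _ h1).trans ?_
    rw [smul_eq_mul, pow_succ, mul_comm]
    refine Nat.mul_le_mul_left _ ?_
    refine (Finset.card_insert_le _ _).trans ?_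
    have : (univ.image (fun j : Fin d × Bool =>
      if j.2 then (w j.1 : ℤ) else -(w j.1 : ℤ))).card ≤ 2 * d := by
      refine Finset.card_image_le.trans ?_
      simp [Finset.card_univ, mul_comm]
    omega

lemma sums_mono {d : ℕ} (w : Fin d → ℕ) (m : ℕ) : sums w m ⊆ sums w (m + 1) := by
  intro s hs
  simp only [sums, mem_biUnion, mem_image]
  exact ⟨0, mem_insert_self _ _, s, hs, by simp⟩

lemma zero_mem_sums {d : ℕ} (w : Fin d → ℕ) (m : ℕ) : (0 : ℤ) ∈ sums w m := by
  induction m with
  | zero => simp [sums]
  | succ m ih => exact sums_mono w m ih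

lemma mem_sums {d : ℕ} (w : Fin d → ℕ) : ∀ (m : ℕ) (e : Fin d → ℤ),
    (∀ j, e j = 0 ∨ e j = 1 ∨ e j = -1) → (univ.filter (fun j => e j ≠ 0)).card ≤ m →
    ∑ j, e j * (w j : ℤ) ∈ sums w m := by
  intro m
  induction m with
  | zero =>
    intro e he hc
    have h0 : ∀ j, e j = 0 := by
      intro j
      by_contra hj
      have hpos : 0 < (univ.filter (fun j => e j ≠ 0)).card :=
        Finset.card_pos.2 ⟨j, by simp [hj]⟩
      omega
    simp [sums, h0]
  | succ m ih =>
    intro e he hc
    by_cases hex : ∃ j, e j ≠ 0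
    · obtain ⟨j, hj⟩ := hex
      have h1 := ih (Function.update e j 0) (by
        intro i
        by_cases hij : i = j
        · subst hij; simp
        · simp only [Function.update_of_ne hij]; exact he i) (by
        have hsub : (univ.filter (fun i => Function.update e j 0 i ≠ 0)) ⊆
            (univ.filter (fun i => e i ≠ 0)).erase j := by
          intro i hi
          simp only [mem_filter, mem_univ, true_and] at hi
          have hij : i ≠ j := by
            rintro rfl
            simp at hi
          rw [Function.update_of_ne hij] at hi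
          simp [hij, hi]
        have hcard := Finset.card_le_card hsub
        rw [Finset.card_erase_of_mem (by simp [hj])] at hcard
        omega)
      simp only [sums, mem_biUnion, mem_image]
      refine ⟨e j * w j, ?_, _, h1, ?_⟩
      · rw [mem_insert]
        right
        rw [mem_image]
        rcases he j with h | h | h
        · exact absurd h hj
        · exact ⟨(j, true), mem_univ _, by simp [h]⟩
        · exact ⟨(j, false), mem_univ _, by simp [h]⟩
      · rw [← Finset.add_sum_erase univ (fun i => e i * (w i : ℤ)) (mem_univ j),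
          ← Finset.add_sum_erase univ (fun i => Function.update e j 0 i * (w i : ℤ)) (mem_univ j)]
        simp only [Function.update_self, zero_mul, zero_add]
        rw [add_comm]
        congr 1
        refine Finset.sum_congr rfl fun i hi => ?_
        rw [Function.update_of_ne (Finset.ne_of_mem_erase hi)]
    · push Not at hex
      simp only [hex, zero_mul, Finset.sum_const_zero]
      exact zero_mem_sums w _

/-- Weights bounded by `(2 d + 1) ^ L` without nontrivial signed relations of length less than
`L`. -/
lemma exists_weights (L : ℕ) : ∀ d : ℕ, ∃ w : Fin d → ℕ, (∀ j, w j ≤ (2 * d + 1) ^ L) ∧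
    ∀ e : Fin d → ℤ, (∀ j, e j = 0 ∨ e j = 1 ∨ e j = -1) → (∃ j, e j ≠ 0) →
      (univ.filter (fun j => e j ≠ 0)).card < L → ∑ j, e j * (w j : ℤ) ≠ 0 := by
  intro d
  induction d with
  | zero => exact ⟨fun _ => 0, fun j => j.elim0, fun e _ ⟨j, _⟩ => j.elim0⟩
  | succ d ih =>
    obtain ⟨w, hw1, hw2⟩ := ih
    -- choose a new weight
    have hex : ∃ v : ℕ, v ≤ (2 * d + 1) ^ L ∧ (v : ℤ) ∉ sums w L := by
      by_contra hcon
      push Not at hcon
      have hsub : (range ((2 * d + 1) ^ L + 1)).image (fun v : ℕ => (v : ℤ)) ⊆ sums w L := by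
        intro z hz
        rw [mem_image] at hz
        obtain ⟨v, hv, rfl⟩ := hz
        rw [mem_range] at hv
        exact hcon v (by omega)
      have h1 := Finset.card_le_card hsub
      rw [Finset.card_image_of_injective _ Nat.cast_injective, card_range] at h1
      have h2 := sums_card w L
      omega
    obtain ⟨v, hv1, hv2⟩ := hex
    refine ⟨Fin.snoc w v, ?_, ?_⟩
    · intro j
      have hmono : (2 * d + 1) ^ L ≤ (2 * (d + 1) + 1) ^ L := Nat.pow_le_pow_left (by omega) L
      refine Fin.lastCases ?_ (fun i => ?_) j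
      · simpa using hv1.trans hmono
      · simpa using (hw1 i).trans hmono
    · intro e he hne hcard hsum
      rw [Fin.sum_univ_castSucc] at hsum
      simp only [Fin.snoc_castSucc, Fin.snoc_last] at hsum
      set e' : Fin d → ℤ := fun i => e i.castSucc with he'
      have hcard' : (univ.filter (fun j => e' j ≠ 0)).card ≤
          (univ.filter (fun j => e j ≠ 0)).card := by
        have : (univ.filter (fun j => e' j ≠ 0)).map Fin.castSuccEmb ⊆
            univ.filter (fun j => e j ≠ 0) := by
          intro i hi
          rw [mem_map] at hi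
          obtain ⟨a, ha, rfl⟩ := hi
          simpa [he'] using ha
        have := Finset.card_le_card this
        rwa [card_map] at this
      by_cases hl : e (Fin.last d) = 0
      · rw [hl, zero_mul, add_zero] at hsum
        refine hw2 e' (fun j => he _) ?_ (by omega) hsum
        obtain ⟨j, hj⟩ := hne
        revert hj
        refine Fin.lastCases ?_ (fun i => ?_) j
        · intro hj; exact absurd hl hj
        · intro hj; exact ⟨i, hj⟩
      · apply hv2
        rcases he (Fin.last d) with h | h | h
        · exact absurd h hl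
        · rw [h, one_mul] at hsum
          have hm := mem_sums w L (fun i => - e' i) (fun j => by
            rcases he j.castSucc with h' | h' | h' <;> simp [he', h']) (by
              have : (univ.filter (fun j => (fun i => - e' i) j ≠ 0)) =
                univ.filter (fun j => e' j ≠ 0) := by
                ext j; simp
              rw [this]; omega)
          have hv : (v : ℤ) = ∑ j, (fun i => - e' i) j * (w j : ℤ) := by
            simp only [neg_mul, Finset.sum_neg_distrib]
            simp only [he']
            linarith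
          rw [hv]; exact hm
        · rw [h] at hsum
          have hm := mem_sums w L e' (fun j => he _) (by omega)
          have hv : (v : ℤ) = ∑ j, e' j * (w j : ℤ) := by
            simp only [he']
            linarith
          rw [hv]; exact hm

/-! ### The colouring -/

/-- The number of coordinates equal to the middle value. -/
def n2 {d : ℕ} (x : Fin d → Fin 3) : ℕ := (univ.filter (fun j => x j = 1)).card

/-- The weighted sum of the coordinates. -/
def W {d : ℕ} (w : Fin d → ℕ) (x : Fin d → Fin 3) : ℕ := ∑ j, w j * (x j : ℕ)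

theorem col_behrend (d L k D : ℕ) (hL : 1 ≤ L) (hk : 0 < k)
    (hbig : 2 * d * (2 * d + 1) ^ L < (2 * k) ^ D) :
    Col d (d / L + 2 ^ D * (D * (2 * k) ^ 2 + 1)) := by
  classical
  obtain ⟨w, hw1, hw2⟩ := exists_weights L d
  have hn2 : ∀ x : Fin d → Fin 3, n2 x ≤ d := by
    intro x
    unfold n2
    refine (Finset.card_filter_le _ _).trans ?_
    simp
  have hW : ∀ x : Fin d → Fin 3, W w x < (2 * k) ^ D := by
    intro x
    refine lt_of_le_of_lt ?_ hbig
    unfold W
    have h1 : ∀ j ∈ (univ : Finset (Fin d)), w j * (x j : ℕ) ≤ (2 * d + 1) ^ L * 2 := by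
      intro j _
      have := (x j).isLt
      exact Nat.mul_le_mul (hw1 j) (by omega)
    refine (Finset.sum_le_card_nsmul _ _ _ h1).trans ?_
    simp only [card_univ, Fintype.card_fin, smul_eq_mul]
    nlinarith
  have hlt : ∀ x : Fin d → Fin 3, n2 x / L + sc (2 * k) D (W w x) <
      d / L + 2 ^ D * (D * (2 * k) ^ 2 + 1) := by
    intro x
    have h1 := sc_lt (2 * k) D (W w x)
    have h2 : n2 x / L ≤ d / L := Nat.div_le_div_right (hn2 x)
    omega
  refine ⟨fun x => ⟨n2 x / L + sc (2 * k) D (W w x), hlt x⟩, ?_⟩
  rintro v ⟨j0, b0, hj0⟩ ⟨h01, h12⟩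
  simp only [Fin.mk.injEq] at h01 h12
  -- the moving set
  set A : Finset (Fin d) := univ.filter (fun j => (v j).isRight) with hA
  set B : Finset (Fin d) := univ.filter (fun j => v j = Sum.inl 1) with hB
  have hdisj : Disjoint B A := by
    rw [Finset.disjoint_left]
    intro j hj1 hj2
    simp only [hB, hA, mem_filter, mem_univ, true_and] at hj1 hj2
    rw [hj1] at hj2
    simp at hj2
  have hn0 : n2 (point v 0) = B.card := by
    unfold n2
    congr 1
    ext j
    simp only [hB, mem_filter, mem_univ, true_and, point]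
    rcases hv : v j with a | b
    · simp
    · cases b <;> simp
  have hn2' : n2 (point v 2) = B.card := by
    unfold n2
    congr 1
    ext j
    simp only [hB, mem_filter, mem_univ, true_and, point]
    rcases hv : v j with a | b
    · simp
    · cases b <;> simp
  have hn1 : n2 (point v 1) = B.card + A.card := by
    rw [← Finset.card_union_of_disjoint hdisj]
    unfold n2
    congr 1
    ext j
    simp only [hB, hA, mem_union, mem_filter, mem_univ, true_and, point]
    rcases hv : v j with a | b
    · simp
    · cases b <;> simp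
  have hAne : 0 < A.card := Finset.card_pos.2 ⟨j0, by simp [hA, hj0]⟩
  have hmid : W w (point v 0) + W w (point v 2) = 2 * W w (point v 1) := by
    unfold W
    rw [← Finset.sum_add_distrib, Finset.mul_sum]
    refine Finset.sum_congr rfl fun j _ => ?_
    simp only [point]
    rcases hv : v j with a | b
    · simp only; ring
    · cases b
      · simp [Fin.rev]; ring
      · simp; ring
  by_cases hWW : W w (point v 0) = W w (point v 2)
  · -- balanced line
    have hW1 : W w (point v 1) = W w (point v 0) := by omega
    have hAL : L ≤ A.card := by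
      by_contra hcon
      push Not at hcon
      set e : Fin d → ℤ := fun j => match v j with
        | Sum.inl _ => 0
        | Sum.inr true => 1
        | Sum.inr false => -1 with he
      refine hw2 e ?_ ⟨j0, ?_⟩ ?_ ?_
      · intro j
        simp only [he]
        rcases v j with a | b
        · simp
        · cases b <;> simp
      · simp only [he, hj0]
        cases b0 <;> simp
      · have : (univ.filter (fun j => e j ≠ 0)) = A := by
          ext j
          simp only [hA, he, mem_filter, mem_univ, true_and]
          rcases hv : v j with a | b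
          · simp
          · cases b <;> simp
        rw [this]; exact hcon
      · have h2 : (2 : ℤ) * ∑ j, e j * (w j : ℤ) =
            (W w (point v 2) : ℤ) - (W w (point v 0) : ℤ) := by
          unfold W
          push_cast
          rw [← Finset.sum_sub_distrib, Finset.mul_sum]
          refine Finset.sum_congr rfl fun j _ => ?_
          simp only [he, point]
          rcases hv : v j with a | b
          · simp
          · cases b
            · simp [Fin.rev]; ring
            · simp; ring
        rw [hWW] at h2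
        have h3 : (2 : ℤ) * ∑ j, e j * (w j : ℤ) = 0 := by rw [h2]; ring
        exact (mul_eq_zero.1 h3).resolve_left (by norm_num)
    rw [hn0, hn1, hW1] at h01
    have hdiv : B.card / L + 1 ≤ (B.card + A.card) / L := by
      have : (B.card + L) / L = B.card / L + 1 := Nat.add_div_right _ (by omega)
      rw [← this]
      exact Nat.div_le_div_right (by omega)
    omega
  · have hs : sc (2 * k) D (W w (point v 0)) = sc (2 * k) D (W w (point v 2)) := by
      rw [hn2'] at h12
      rw [hn0] at h01
      omega
    have hlt2 := sc_mid k hk D _ _ _ (hW _) (hW _) hmid hWW hs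
    rw [hn0, hn1] at h01
    have hdiv : B.card / L ≤ (B.card + A.card) / L := Nat.div_le_div_right (by omega)
    omega

end Pool.Agent.Lib.Pfd3312.Sub
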