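import Mathlib
import Pool.Agent.Lib.Pfd3312.Basic
import Pool.Agent.Lib.P28cd.GDefs

set_option autoImplicit false

/-!
Partitions of `{1,2,3}^d` into sets in general position and their complexity: definitions.
The values `1`, `2`, `3` of the coordinates are written `0`, `1`, `2` (elements of `Fin 3`).
-/

namespace Pool.Agent.Lib.Pfd3312.Low

open Finset

variable {d k : ℕ}

/-- The point with the coordinates `2` (written `1`) exactly off `A`; on `A` the coordinate is `3`
(written `2`) where `v` is true and `1` (written `0`) where `v` is false. -/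
def sgn (A : Finset (Fin d)) (v : Fin d → Bool) : Fin d → Fin 3 :=
  fun r => if r ∈ A then (if v r then 2 else 0) else 1

/-- Flip the signs on `D`. -/
def flp (D : Finset (Fin d)) (v : Fin d → Bool) : Fin d → Bool :=
  fun r => if r ∈ D then !(v r) else v r

/-- The number of the sign vectors `v` for which flipping the signs on `D` changes the colour of the
point with support `A` and signs `v`. -/
def chg (c : (Fin d → Fin 3) → Fin k) (A D : Finset (Fin d)) : ℕ :=
  (univ.filter (fun v : Fin d → Bool => c (sgn A v) ≠ c (sgn A (flp D v)))).card

/-- The probability that flipping the signs on `D` changes the colour, for a random set `A` of size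
`a`, random signs on `A`, and a random set `D` of `t` elements of `A`. -/
noncomputable def noi (c : (Fin d → Fin 3) → Fin k) (a t : ℕ) : ℝ :=
  (∑ A ∈ powersetCard a (univ : Finset (Fin d)), ∑ D ∈ powersetCard t A, (chg c A D : ℝ)) /
    (2 ^ d * d.choose a * a.choose t)

/-- On every support `A` the colour of `sgn A v` changes at most `M` times when `v` runs through an
increasing sequence of sign vectors, up to the fixed change `e` of the signs. -/
def AltLe (c : (Fin d → Fin 3) → Fin k) (e : Fin d → Bool) (M : ℕ) : Prop :=
  ∀ (A : Finset (Fin d)) (v : ℕ → Fin d → Bool), Monotone v →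
    ∑ p ∈ range d, (if c (sgn A (fun r => v p r ^^ e r)) ≠ c (sgn A (fun r => v (p + 1) r ^^ e r))
      then 1 else 0) ≤ M

/-- The literals: a sign or its negation. -/
def Lit (d : ℕ) : Set ((Fin d → Bool) → Bool) :=
  {f | ∃ i, (f = fun v => v i) ∨ f = fun v => !v i}

/-- `g` is monotone up to a change of signs of the variables. -/
def Unate (g : (Fin d → Bool) → Bool) : Prop :=
  ∃ e : Fin d → Bool, ∀ u v : Fin d → Bool, (∀ r, (u r ^^ e r) ≤ (v r ^^ e r)) → g u ≤ g v

/-- `{1,2,3}^d` has a partition (colouring) `c` into `k` sets in general position such that for every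
set `A` there are `m` functions `g i` in `P` such that, for all sign vectors `v` up to at most
`2 ^ d / (8 k)` exceptions, the class of the point `sgn A v` with support `A` and signs `v` is
determined by the values `g i v`: it is `F (g 0 v, ..., g (m - 1) v)` for a function `F`. -/
def DetCol (d k m : ℕ) (P : Set ((Fin d → Bool) → Bool)) : Prop :=
  ∃ c : (Fin d → Fin 3) → Fin k, (∀ a, GeneralPosition (c ⁻¹' {a})) ∧
    ∀ A : Finset (Fin d), ∃ (g : Fin m → (Fin d → Bool) → Bool) (F : (Fin m → Bool) → Fin k),
      (∀ i, g i ∈ P) ∧
      8 * k * (univ.filter (fun v : Fin d → Bool => c (sgn A v) ≠ F (fun i => g i v))).card ≤ 2 ^ d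

/-- `{1,2,3}^d` has a colouring with `k` colours and all classes in general position which is a
function of an additive statistic `∑ φ i (x i)`, with values in an abelian group, taking at most
`R` values. -/
def AddCol (d k R : ℕ) : Prop :=
  ∃ (A : Type) (_ : AddCommGroup A) (φ : Fin d → Fin 3 → A) (F : A → Fin k),
    (Set.range (fun x : Fin d → Fin 3 => ∑ i, φ i (x i))).ncard ≤ R ∧
    ∀ a, GeneralPosition ((fun x : Fin d → Fin 3 => F (∑ i, φ i (x i))) ⁻¹' {a})

end Pool.Agent.Lib.Pfd3312.Low
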