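import Mathlib
import Pool.Agent.Lib.Pfd3312.LowDefs

set_option autoImplicit false

/-!
Chains of points of `{1,2,3}^d` whose colours must be pairwise distinct: lower bounds for colourings
of low complexity.
-/

namespace Pool.Agent.Lib.Pfd3312.Low

open Finset

/-- In a good colouring the midpoint of two points of the same colour has another colour. -/
lemma ne_of_mid {ι C : Type} {c : (ι → Fin 3) → C} (hc : Good c) {x y z : ι → Fin 3}
    (hmid : ∀ i, (x i : ℕ) + z i = 2 * (y i : ℕ)) (hne : ∃ i, x i ≠ z i) (h : c z = c x) :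
    c x ≠ c y := by
  classical
  intro hxy
  let w : ι → Fin 3 ⊕ Bool := fun i =>
    if x i = z i then Sum.inl (x i) else if x i = 0 then Sum.inr true else Sum.inr false
  have key : ∀ i, point w 0 i = x i ∧ point w 1 i = y i ∧ point w 2 i = z i := by
    intro i
    have hm := hmid i
    simp only [point, w]
    generalize x i = a at *
    generalize y i = b at *
    generalize z i = e at *
    revert a b e
    decide
  have h0 : point w 0 = x := funext fun i => (key i).1
  have h1 : point w 1 = y := funext fun i => (key i).2.1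
  have h2 : point w 2 = z := funext fun i => (key i).2.2
  obtain ⟨i, hi⟩ := hne
  refine hc w ⟨i, ?_⟩ ⟨?_, ?_⟩
  · by_cases h3 : x i = 0
    · exact ⟨true, by simp only [w, if_neg hi, if_pos h3]⟩
    · exact ⟨false, by simp only [w, if_neg hi, if_neg h3]⟩
  · rw [h0, h1]; exact hxy
  · rw [h1, h2, h]; exact hxy.symm

lemma lt_of_chain {ι : Type} {k m : ℕ} {c : (ι → Fin 3) → Fin k} (x : ℕ → ι → Fin 3)
    (h : ∀ j j', j < j' → j' ≤ m → c (x j) ≠ c (x j')) : m < k := by
  have hinj : Function.Injective (fun j : Fin (m + 1) => c (x j)) := by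
    intro a b hab
    by_contra hne
    rcases lt_or_gt_of_ne (fun e => hne (Fin.ext e) : (a : ℕ) ≠ b) with h1 | h1
    · exact h a b h1 (by omega) hab
    · exact h b a h1 (by omega) hab.symm
  have := Fintype.card_le_of_injective _ hinj
  simpa using this

variable {d k : ℕ}

/-- The point which is `u` on the first `n` coordinates in the order `σ` (those with `σ i < n`) and
`y` on the others. -/
def glue (σ : Equiv.Perm (Fin d)) (n : ℕ) (u y : Fin d → Fin 3) : Fin d → Fin 3 :=
  fun i => if (σ i : ℕ) < n then u i else y i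

/-- The colouring as a function of the remaining coordinates once the first `n` coordinates in the
order `σ` are fixed as in `u`. -/
def restr (c : (Fin d → Fin 3) → Fin k) (σ : Equiv.Perm (Fin d)) (n : ℕ) (u : Fin d → Fin 3) :
    (Fin d → Fin 3) → Fin k :=
  fun y => c (glue σ n u y)

lemma glue_glue (σ : Equiv.Perm (Fin d)) {n n' : ℕ} (h : n ≤ n') (u z y : Fin d → Fin 3) :
    glue σ n' (glue σ n u z) y = glue σ n u (glue σ n' z y) := by
  funext i
  unfold glue
  by_cases h1 : (σ i : ℕ) < n
  · have h2 : (σ i : ℕ) < n' := by omega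
    simp [h1, h2]
  · by_cases h2 : (σ i : ℕ) < n'
    · simp [h1, h2]
    · simp [h1, h2]

lemma restr_glue (c : (Fin d → Fin 3) → Fin k) (σ : Equiv.Perm (Fin d)) {n n' : ℕ} (h : n ≤ n')
    {u u' : Fin d → Fin 3} (hu : restr c σ n u = restr c σ n u') (z : Fin d → Fin 3) :
    restr c σ n' (glue σ n u z) = restr c σ n' (glue σ n u' z) := by
  funext y
  unfold restr
  rw [glue_glue σ h, glue_glue σ h]
  exact congrFun hu _

/-- The point with the value `3` (written `2`) on `T` and `1` (written `0`) elsewhere. -/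
def vec (T : Finset (Fin d)) : Fin d → Fin 3 := fun r => if r ∈ T then 2 else 0

/-- The midpoint of `vec T` and `vec T'`. -/
def mvec (T T' : Finset (Fin d)) : Fin d → Fin 3 := fun r =>
  if r ∈ T then (if r ∈ T' then 2 else 1) else (if r ∈ T' then 1 else 0)

lemma vec_add (T T' : Finset (Fin d)) (r : Fin d) :
    ((vec T r : Fin 3) : ℕ) + (vec T' r : ℕ) = 2 * (mvec T T' r : ℕ) := by
  unfold vec mvec
  by_cases h1 : r ∈ T <;> by_cases h2 : r ∈ T' <;> simp [h1, h2]

/-- The invariant: chains of length `i` after `n` coordinates. -/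
def Inv (c : (Fin d → Fin 3) → Fin k) (σ : Equiv.Perm (Fin d)) (n i : ℕ) : Prop :=
  ∃ X : ℕ → Fin d → Fin 3, ∀ j j', j < j' → j' ≤ i → ∃ Y : Fin d → Fin 3,
    restr c σ n Y = restr c σ n (X j) ∧
    (∀ r, (σ r : ℕ) < n → (X j r : ℕ) + Y r = 2 * (X j' r : ℕ)) ∧
    ∃ r, (σ r : ℕ) < n ∧ X j r ≠ Y r

lemma inv_zero (c : (Fin d → Fin 3) → Fin k) (σ : Equiv.Perm (Fin d)) : Inv c σ 0 0 :=
  ⟨fun _ _ => 0, fun j j' h1 h2 => by omega⟩

/-- The block of the coordinates number `n, ..., n + b - 1`. -/
def blk (σ : Equiv.Perm (Fin d)) (n b : ℕ) : Finset (Fin d) :=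
  univ.filter (fun r => n ≤ (σ r : ℕ) ∧ (σ r : ℕ) < n + b)

lemma card_blk (σ : Equiv.Perm (Fin d)) (n b : ℕ) (h : n + b ≤ d) : (blk σ n b).card = b := by
  have : (blk σ n b).card = (Finset.Ico n (n + b)).card := by
    refine Finset.card_bij (fun r _ => (σ r : ℕ)) ?_ ?_ ?_
    · intro r hr
      simpa [blk] using hr
    · intro r _ r' _ hrr
      exact σ.injective (Fin.ext hrr)
    · intro q hq
      rw [Finset.mem_Ico] at hq
      refine ⟨σ.symm ⟨q, by omega⟩, ?_, ?_⟩
      · simp [blk, hq.1, hq.2]
      · simp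
  simpa using this

/-- One more block, if the two sign vectors given by `T` and `T'` have the same effect. -/
lemma inv_step {c : (Fin d → Fin 3) → Fin k} {σ : Equiv.Perm (Fin d)} {n i : ℕ} (b : ℕ)
    (X : ℕ → Fin d → Fin 3)
    (hX : ∀ j j', j < j' → j' ≤ i → ∃ Y : Fin d → Fin 3,
      restr c σ n Y = restr c σ n (X j) ∧
      (∀ r, (σ r : ℕ) < n → (X j r : ℕ) + Y r = 2 * (X j' r : ℕ)) ∧
      ∃ r, (σ r : ℕ) < n ∧ X j r ≠ Y r)
    (T T' : Finset (Fin d)) (hT : T ⊆ blk σ n b) (hT' : T' ⊆ blk σ n b) (hne : T ≠ T')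
    (heq : ∀ j ≤ i, restr c σ (n + b) (glue σ n (X j) (vec T)) =
      restr c σ (n + b) (glue σ n (X j) (vec T'))) :
    Inv c σ (n + b) (i + 1) := by
  refine ⟨fun j => if j ≤ i then glue σ n (X j) (vec T) else glue σ n (X i) (mvec T T'), ?_⟩
  intro j j' hjj hj'
  by_cases h1 : j' ≤ i
  · obtain ⟨Y, hY1, hY2, r, hr1, hr2⟩ := hX j j' hjj h1
    have hj : j ≤ i := by omega
    simp only [h1, hj, if_true]
    refine ⟨glue σ n Y (vec T), restr_glue c σ (by omega) hY1 _, ?_, r, by omega, ?_⟩
    · intro r _
      unfold glue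
      by_cases h2 : (σ r : ℕ) < n
      · simp only [h2, if_true]; exact hY2 r h2
      · simp only [h2, if_false]; omega
    · simp only [glue, hr1, if_true]; exact hr2
  · have hj'' : j' = i + 1 := by omega
    have hj : j ≤ i := by omega
    simp only [h1, hj, if_true, if_false]
    by_cases h2 : j < i
    · obtain ⟨Y, hY1, hY2, r, hr1, hr2⟩ := hX j i h2 le_rfl
      refine ⟨glue σ n Y (vec T'), ?_, ?_, r, by omega, ?_⟩
      · rw [restr_glue c σ (by omega) hY1 (vec T'), heq j hj]
      · intro r _
        unfold glue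
        by_cases h3 : (σ r : ℕ) < n
        · simp only [h3, if_true]; exact hY2 r h3
        · simp only [h3, if_false]; exact vec_add T T' r
      · simp only [glue, hr1, if_true]; exact hr2
    · have hji : j = i := by omega
      subst hji
      refine ⟨glue σ n (X j) (vec T'), (heq j le_rfl).symm, ?_, ?_⟩
      · intro r _
        unfold glue
        by_cases h3 : (σ r : ℕ) < n
        · simp only [h3, if_true]; omega
        · simp only [h3, if_false]; exact vec_add T T' r
      · have : ∃ r, ¬ (r ∈ T ↔ r ∈ T') := by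
          by_contra hcon
          push Not at hcon
          exact hne (Finset.ext hcon)
        obtain ⟨r, hr⟩ := this
        have hrB : r ∈ blk σ n b := by
          by_cases h4 : r ∈ T
          · exact hT h4
          · by_cases h5 : r ∈ T'
            · exact hT' h5
            · exact absurd (by simp [h4, h5]) hr
        simp only [blk, mem_filter, mem_univ, true_and] at hrB
        refine ⟨r, hrB.2, ?_⟩
        have h6 : ¬ ((σ r : ℕ) < n) := by omega
        simp only [glue, h6, if_false, vec]
        by_cases h4 : r ∈ T <;> by_cases h5 : r ∈ T'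
        · exact absurd (by simp [h4, h5]) hr
        · simp [h4, h5]
        · simp [h4, h5]
        · exact absurd (by simp [h4, h5]) hr

lemma lt_of_inv {c : (Fin d → Fin 3) → Fin k} (hc : Good c) {σ : Equiv.Perm (Fin d)} {n m : ℕ}
    (h : Inv c σ n m) : m < k := by
  obtain ⟨X, hX⟩ := h
  refine lt_of_chain (c := c) (fun j => glue σ n (X j) (fun _ => 0)) ?_
  intro j j' hjj hj'
  obtain ⟨Y, hY1, hY2, r, hr1, hr2⟩ := hX j j' hjj hj'
  refine ne_of_mid hc (z := glue σ n Y (fun _ => 0)) ?_ ⟨r, ?_⟩ (congrFun hY1 (fun _ => 0))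
  · intro r
    unfold glue
    by_cases h3 : (σ r : ℕ) < n
    · simp only [h3, if_true]; exact hY2 r h3
    · simp [h3]
  · simp only [glue, hr1, if_true]; exact hr2

/-- One pass colourings of width `2 ^ S`. -/
theorem stream_lower {c : (Fin d → Fin 3) → Fin k} (hc : Good c) (σ : Equiv.Perm (Fin d)) (S : ℕ)
    (hw : ∀ n, (Set.range (restr c σ n)).ncard ≤ 2 ^ S) : 2 * d < S * (k * (k + 1)) + 2 * k := by
  classical
  by_contra hcon
  push Not at hcon
  have main : ∀ i, S * (i * (i + 1)) + 2 * i ≤ 2 * d → ∃ n, 2 * n = S * (i * (i + 1)) + 2 * i ∧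
      Inv c σ n i := by
    intro i
    induction i with
    | zero => intro _; exact ⟨0, by simp, inv_zero c σ⟩
    | succ i ih =>
      intro hi
      have e : S * ((i + 1) * (i + 1 + 1)) + 2 * (i + 1) =
          (S * (i * (i + 1)) + 2 * i) + 2 * (S * (i + 1) + 1) := by ring
      obtain ⟨n, hn, X, hX⟩ := ih (by rw [e] at hi; omega)
      refine ⟨n + (S * (i + 1) + 1), by rw [e, ← hn]; ring, ?_⟩
      set b := S * (i + 1) + 1 with hb
      have hnb : n + b ≤ d := by rw [e] at hi; omega
      -- pigeonhole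
      have hfin : (Set.range (restr c σ (n + b))).Finite := Set.finite_range _
      set R : Finset ((Fin d → Fin 3) → Fin k) := hfin.toFinset with hR
      have hRc : R.card ≤ 2 ^ S := by
        have := hw (n + b)
        rwa [Set.ncard_eq_toFinset_card _ hfin] at this
      have hcard : (Fintype.piFinset (fun _ : Fin (i + 1) => R)).card <
          (blk σ n b).powerset.card := by
        rw [Fintype.card_piFinset, Finset.card_powerset, card_blk σ n b hnb]
        simp only [Finset.prod_const, card_univ, Fintype.card_fin]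
        calc R.card ^ (i + 1) ≤ (2 ^ S) ^ (i + 1) := Nat.pow_le_pow_left hRc _
          _ = 2 ^ (S * (i + 1)) := by rw [← pow_mul]
          _ < 2 ^ b := Nat.pow_lt_pow_right (by norm_num) (by omega)
      obtain ⟨T, hT, T', hT', hne, heq⟩ := Finset.exists_ne_map_eq_of_card_lt_of_maps_to hcard
        (f := fun T => fun j : Fin (i + 1) => restr c σ (n + b) (glue σ n (X j) (vec T))) (by
          intro T _
          rw [Finset.mem_coe, Fintype.mem_piFinset]
          intro j
          simp [hR])
      refine inv_step b X hX T T' (Finset.mem_powerset.1 hT) (Finset.mem_powerset.1 hT') hne ?_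
      intro j hj
      exact congrFun heq ⟨j, by omega⟩
  obtain ⟨n, _, hinv⟩ := main k hcon
  exact lt_irrefl _ (lt_of_inv hc hinv)

end Pool.Agent.Lib.Pfd3312.Low
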