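import Mathlib
import Pool.Agent.Lib.Pfd3312.LowChain

set_option autoImplicit false

/-!
Colourings of `{1,2,3}^d` through products in a small monoid and through additive statistics with
few values: lower bounds.
-/

namespace Pool.Agent.Lib.Pfd3312.Low

open Finset

variable {d k : ℕ}

/-! ### Products in a monoid -/

/-- The product of the values `φ q (x (σ.symm q))`, `q = 0, ..., d - 1`. -/
def mprod {M : Type} [Monoid M] (σ : Equiv.Perm (Fin d)) (φ : Fin d → Fin 3 → M)
    (x : Fin d → Fin 3) : M :=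
  (List.ofFn (fun q : Fin d => φ q (x (σ.symm q)))).prod

lemma mprod_congr {M : Type} [Monoid M] (σ : Equiv.Perm (Fin d)) (φ : Fin d → Fin 3 → M)
    (n b : ℕ) (x x' v v' : Fin d → Fin 3)
    (hout : ∀ r, ¬ (n ≤ (σ r : ℕ) ∧ (σ r : ℕ) < n + b) → x r = x' r)
    (hin : ∀ r, n ≤ (σ r : ℕ) → (σ r : ℕ) < n + b → x r = v r)
    (hin' : ∀ r, n ≤ (σ r : ℕ) → (σ r : ℕ) < n + b → x' r = v' r)
    (hvv : (((List.ofFn (fun q : Fin d => φ q (v (σ.symm q)))).drop n).take b).prod =
      (((List.ofFn (fun q : Fin d => φ q (v' (σ.symm q)))).drop n).take b).prod) :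
    mprod σ φ x = mprod σ φ x' := by
  have split : ∀ l : List M, l.prod = (l.take n).prod * (((l.drop n).take b).prod *
      ((l.drop n).drop b).prod) := by
    intro l
    rw [← List.prod_append, List.take_append_drop, ← List.prod_append, List.take_append_drop]
  unfold mprod
  rw [split (List.ofFn (fun q : Fin d => φ q (x (σ.symm q)))),
    split (List.ofFn (fun q : Fin d => φ q (x' (σ.symm q))))]
  have e1 : (List.ofFn (fun q : Fin d => φ q (x (σ.symm q)))).take n =
      (List.ofFn (fun q : Fin d => φ q (x' (σ.symm q)))).take n := by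
    refine List.ext_getElem (by simp) ?_
    intro q h1 h2
    simp only [List.length_take, List.length_ofFn] at h1
    simp only [List.getElem_take, List.getElem_ofFn]
    rw [hout (σ.symm ⟨q, by omega⟩) (by simp; omega)]
  have e3 : ((List.ofFn (fun q : Fin d => φ q (x (σ.symm q)))).drop n).drop b =
      ((List.ofFn (fun q : Fin d => φ q (x' (σ.symm q)))).drop n).drop b := by
    refine List.ext_getElem (by simp) ?_
    intro q h1 h2
    simp only [List.length_drop, List.length_ofFn] at h1
    simp only [List.getElem_drop, List.getElem_ofFn]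
    rw [hout (σ.symm ⟨n + (b + q), by omega⟩) (by simp)]
  have mid : ∀ (y u : Fin d → Fin 3), (∀ r, n ≤ (σ r : ℕ) → (σ r : ℕ) < n + b → y r = u r) →
      ((List.ofFn (fun q : Fin d => φ q (y (σ.symm q)))).drop n).take b =
      ((List.ofFn (fun q : Fin d => φ q (u (σ.symm q)))).drop n).take b := by
    intro y u hyu
    refine List.ext_getElem (by simp) ?_
    intro q h1 h2
    simp only [List.length_take, List.length_drop, List.length_ofFn] at h1
    simp only [List.getElem_take, List.getElem_drop, List.getElem_ofFn]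
    rw [hyu (σ.symm ⟨n + q, by omega⟩) (by simp) (by simp; omega)]
  rw [e1, e3, mid x v hin, mid x' v' hin', hvv]

theorem monoid_lower {M : Type} [Monoid M] [Fintype M] (σ : Equiv.Perm (Fin d))
    (φ : Fin d → Fin 3 → M) (F : M → Fin k) (hc : Good (fun x => F (mprod σ φ x))) (S : ℕ)
    (hM : Fintype.card M ≤ 2 ^ S) : d < (S + 1) * k := by
  classical
  by_contra hcon
  push Not at hcon
  have main : ∀ i, (S + 1) * i ≤ d → Inv (fun x => F (mprod σ φ x)) σ ((S + 1) * i) i := by
    intro i
    induction i with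
    | zero => intro _; simpa using inv_zero (fun x => F (mprod σ φ x)) σ
    | succ i ih =>
      intro hi
      have e : (S + 1) * (i + 1) = (S + 1) * i + (S + 1) := by ring
      rw [e] at hi ⊢
      obtain ⟨X, hX⟩ := ih (by omega)
      set n := (S + 1) * i with hn
      have hcard : (univ : Finset M).card < (blk σ n (S + 1)).powerset.card := by
        rw [Finset.card_powerset, card_blk σ n (S + 1) hi, Finset.card_univ]
        exact lt_of_le_of_lt hM (Nat.pow_lt_pow_right (by norm_num) (by omega))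
      obtain ⟨T, hT, T', hT', hne, heq⟩ := Finset.exists_ne_map_eq_of_card_lt_of_maps_to hcard
        (f := fun T => (((List.ofFn (fun q : Fin d => φ q (vec T (σ.symm q)))).drop n).take
          (S + 1)).prod) (by intro T _; simp)
      refine inv_step (S + 1) X hX T T' (Finset.mem_powerset.1 hT) (Finset.mem_powerset.1 hT')
        hne ?_
      intro j _
      funext y
      show F (mprod σ φ _) = F (mprod σ φ _)
      congr 1
      refine mprod_congr σ φ n (S + 1) _ _ (vec T) (vec T') ?_ ?_ ?_ heq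
      · intro r hr
        unfold glue
        by_cases h1 : (σ r : ℕ) < n + (S + 1)
        · have h2 : (σ r : ℕ) < n := by
            by_contra h3
            exact hr ⟨by omega, h1⟩
          simp [h1, h2]
        · simp [h1]
      · intro r h1 h2
        have h3 : ¬ ((σ r : ℕ) < n) := by omega
        simp [glue, h2, h3]
      · intro r h1 h2
        have h3 : ¬ ((σ r : ℕ) < n) := by omega
        simp [glue, h2, h3]
  exact lt_irrefl _ (lt_of_inv hc (main k hcon))

/-! ### Additive statistics -/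

/-- The statistic `∑ φ i (x i)`. -/
def stat {A : Type} [AddCommGroup A] (φ : Fin d → Fin 3 → A) (x : Fin d → Fin 3) : A :=
  ∑ i, φ i (x i)

/-- Changing zeros to `2` on the set `T`. -/
def up (T : Finset (Fin d)) (x : Fin d → Fin 3) : Fin d → Fin 3 := fun r => if r ∈ T then 2 else x r

lemma stat_up {A : Type} [AddCommGroup A] (φ : Fin d → Fin 3 → A) (T : Finset (Fin d))
    (x : Fin d → Fin 3) (hx : ∀ r ∈ T, x r = 0) :
    stat φ (up T x) = stat φ x + ∑ r ∈ T, (φ r 2 - φ r 0) := by
  classical
  have h1 : ∑ r ∈ T, (φ r 2 - φ r 0) = ∑ r, if r ∈ T then (φ r 2 - φ r 0) else 0 := by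
    rw [Finset.sum_ite_mem, Finset.univ_inter]
  unfold stat
  rw [h1, ← Finset.sum_add_distrib]
  refine Finset.sum_congr rfl fun r _ => ?_
  unfold up
  by_cases h : r ∈ T
  · simp [h, hx r h]
  · simp [h]

/-- The invariant for additive statistics: everything vanishes off the used set `U`. -/
def AInv {A : Type} [AddCommGroup A] (φ : Fin d → Fin 3 → A) (U : Finset (Fin d)) (i : ℕ) : Prop :=
  ∃ X : ℕ → Fin d → Fin 3, (∀ j, ∀ r ∉ U, X j r = 0) ∧
    ∀ j j', j < j' → j' ≤ i → ∃ Y : Fin d → Fin 3, (∀ r ∉ U, Y r = 0) ∧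
      stat φ Y = stat φ (X j) ∧ (∀ r, (X j r : ℕ) + Y r = 2 * (X j' r : ℕ)) ∧
      ∃ r ∈ U, X j r ≠ Y r

lemma ainv_step {A : Type} [AddCommGroup A] {φ : Fin d → Fin 3 → A} {U : Finset (Fin d)} {i : ℕ}
    (h : AInv φ U i) (L R : ℕ) (hR : (Set.range (stat φ)).ncard ≤ R)
    (hcard : R < (d - U.card).choose L) :
    ∃ U' : Finset (Fin d), U'.card ≤ U.card + 2 * L ∧ AInv φ U' (i + 1) := by
  classical
  obtain ⟨X, hX0, hX⟩ := h
  have hfin : (Set.range (stat φ)).Finite := Set.finite_range _
  have hR' : hfin.toFinset.card ≤ R := by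
    rwa [Set.ncard_eq_toFinset_card _ hfin] at hR
  have hcard' : hfin.toFinset.card < (Finset.powersetCard L (univ \ U)).card := by
    rw [Finset.card_powersetCard, Finset.card_univ_sdiff, Fintype.card_fin]
    omega
  obtain ⟨T, hT, T', hT', hne, heq⟩ := Finset.exists_ne_map_eq_of_card_lt_of_maps_to hcard'
    (f := fun T => stat φ (up T (fun _ => 0))) (by intro T _; simp)
  rw [Finset.mem_powersetCard] at hT hT'
  rw [stat_up φ T _ (fun _ _ => rfl), stat_up φ T' _ (fun _ _ => rfl)] at heq
  have heq' : ∑ r ∈ T, (φ r 2 - φ r 0) = ∑ r ∈ T', (φ r 2 - φ r 0) := add_left_cancel heq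
  have hsd : ∑ r ∈ T \ T', (φ r 2 - φ r 0) = ∑ r ∈ T' \ T, (φ r 2 - φ r 0) := by
    have e1 := Finset.sum_inter_add_sum_sdiff T T' (fun r => φ r 2 - φ r 0)
    have e2 := Finset.sum_inter_add_sum_sdiff T' T (fun r => φ r 2 - φ r 0)
    rw [Finset.inter_comm] at e2
    have : ∑ r ∈ T ∩ T', (φ r 2 - φ r 0) + ∑ r ∈ T \ T', (φ r 2 - φ r 0) =
        ∑ r ∈ T ∩ T', (φ r 2 - φ r 0) + ∑ r ∈ T' \ T, (φ r 2 - φ r 0) := by
      rw [e1, e2]; exact heq'
    exact add_left_cancel this
  set P := T \ T' with hP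
  set Q := T' \ T with hQ
  have hPQ : Disjoint P Q := by
    rw [Finset.disjoint_left]
    intro r h1 h2
    simp only [hP, hQ, Finset.mem_sdiff] at h1 h2
    exact h2.2 h1.1
  have hPU : ∀ r ∈ P, r ∉ U := by
    intro r hr
    have := hT.1 (Finset.mem_sdiff.1 hr).1
    simpa using this
  have hQU : ∀ r ∈ Q, r ∉ U := by
    intro r hr
    have := hT'.1 (Finset.mem_sdiff.1 hr).1
    simpa using this
  have hPne : P.Nonempty := by
    rw [Finset.nonempty_iff_ne_empty]
    intro he
    have hsub : T ⊆ T' := Finset.sdiff_eq_empty_iff_subset.1 he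
    exact hne (Finset.eq_of_subset_of_card_le hsub (by rw [hT.2, hT'.2]))
  refine ⟨U ∪ (P ∪ Q), ?_, ?_⟩
  · have h1 := Finset.card_union_le U (P ∪ Q)
    have h2 := Finset.card_union_le P Q
    have h3 : P.card ≤ T.card := Finset.card_le_card Finset.sdiff_subset
    have h4 : Q.card ≤ T'.card := Finset.card_le_card Finset.sdiff_subset
    rw [hT.2] at h3
    rw [hT'.2] at h4
    omega
  refine ⟨fun j => if j ≤ i then up P (X j) else fun r => if r ∈ P ∪ Q then 1 else X i r, ?_, ?_⟩
  · intro j r hr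
    have h1 : r ∉ U := fun h => hr (Finset.mem_union_left _ h)
    have h2 : r ∉ P ∪ Q := fun h => hr (Finset.mem_union_right _ h)
    have h3 : r ∉ P := fun h => h2 (Finset.mem_union_left _ h)
    by_cases hj : j ≤ i
    · simp only [hj, if_true, up, h3, if_false]; exact hX0 j r h1
    · simp only [hj, if_false, h2]; exact hX0 i r h1
  intro j j' hjj hj'
  have hj : j ≤ i := by omega
  -- a common treatment of the last case
  have last : ∀ Y : Fin d → Fin 3, (∀ r ∉ U, Y r = 0) → stat φ Y = stat φ (X j) →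
      (∀ r, (X j r : ℕ) + Y r = 2 * (X i r : ℕ)) →
      ∃ Z : Fin d → Fin 3, (∀ r ∉ U ∪ (P ∪ Q), Z r = 0) ∧ stat φ Z = stat φ (up P (X j)) ∧
        (∀ r, (up P (X j) r : ℕ) + Z r = 2 * (((if r ∈ P ∪ Q then 1 else X i r) : Fin 3) : ℕ)) ∧
        ∃ r ∈ U ∪ (P ∪ Q), up P (X j) r ≠ Z r := by
    intro Y h1 h2 h3
    refine ⟨up Q Y, ?_, ?_, ?_, ?_⟩
    · intro r hr
      have hr1 : r ∉ U := fun h => hr (Finset.mem_union_left _ h)
      have hr2 : r ∉ Q := fun h => hr (Finset.mem_union_right _ (Finset.mem_union_right _ h))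
      simp only [up, hr2, if_false]; exact h1 r hr1
    · rw [stat_up φ Q Y (fun r hr => h1 r (hQU r hr)), stat_up φ P (X j)
        (fun r hr => hX0 j r (hPU r hr)), h2, hsd]
    · intro r
      by_cases hp : r ∈ P
      · have hq : r ∉ Q := Finset.disjoint_left.1 hPQ hp
        simp [up, hp, hq, h1 r (hPU r hp)]
      · by_cases hq : r ∈ Q
        · simp [up, hp, hq, hX0 j r (hQU r hq)]
        · simp only [up, hp, hq, if_false, Finset.mem_union, or_self]
          exact h3 r
    · obtain ⟨r, hr⟩ := hPne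
      have hq : r ∉ Q := Finset.disjoint_left.1 hPQ hr
      refine ⟨r, Finset.mem_union_right _ (Finset.mem_union_left _ hr), ?_⟩
      simp [up, hr, hq, h1 r (hPU r hr)]
  by_cases h1 : j' ≤ i
  · obtain ⟨Y, hY0, hY1, hY2, r, hr1, hr2⟩ := hX j j' hjj h1
    simp only [h1, hj, if_true]
    refine ⟨up P Y, ?_, ?_, ?_, r, Finset.mem_union_left _ hr1, ?_⟩
    · intro r hr
      have hr3 : r ∉ U := fun h => hr (Finset.mem_union_left _ h)
      have hr4 : r ∉ P := fun h => hr (Finset.mem_union_right _ (Finset.mem_union_left _ h))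
      simp only [up, hr4, if_false]; exact hY0 r hr3
    · rw [stat_up φ P Y (fun r hr => hY0 r (hPU r hr)), stat_up φ P (X j)
        (fun r hr => hX0 j r (hPU r hr)), hY1]
    · intro r
      unfold up
      by_cases h2 : r ∈ P
      · simp [h2]
      · simp only [h2, if_false]; exact hY2 r
    · have hrP : r ∉ P := fun h => hPU r h hr1
      simp only [up, hrP, if_false]; exact hr2
  · simp only [h1, hj, if_true, if_false]
    by_cases h2 : j < i
    · obtain ⟨Y, hY0, hY1, hY2, -⟩ := hX j i h2 le_rfl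
      exact last Y hY0 hY1 hY2
    · have hji : j = i := by omega
      subst hji
      exact last (X j) (hX0 j) rfl (fun r => by omega)

theorem additive_lower {A : Type} [AddCommGroup A] (φ : Fin d → Fin 3 → A) (F : A → Fin k)
    (hc : Good (fun x => F (stat φ x))) (R L : ℕ) (hR : (Set.range (stat φ)).ncard ≤ R) :
    (d - 2 * L * k).choose L ≤ R := by
  by_contra hcon
  push Not at hcon
  have main : ∀ i, i ≤ k → ∃ U : Finset (Fin d), U.card ≤ 2 * L * i ∧ AInv φ U i := by
    intro i
    induction i with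
    | zero =>
      intro _
      exact ⟨∅, by simp, fun _ _ => 0, fun _ _ _ => rfl, fun j j' h1 h2 => by omega⟩
    | succ i ih =>
      intro hi
      obtain ⟨U, hU, hinv⟩ := ih (by omega)
      have hle : 2 * L * i ≤ 2 * L * k := Nat.mul_le_mul_left _ (by omega)
      have hlt : R < (d - U.card).choose L :=
        lt_of_lt_of_le hcon (Nat.choose_le_choose L (by omega))
      obtain ⟨U', hU', hinv'⟩ := ainv_step hinv L R hR hlt
      refine ⟨U', ?_, hinv'⟩
      have : 2 * L * (i + 1) = 2 * L * i + 2 * L := by ring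
      omega
  obtain ⟨U, _, X, _, hX⟩ := main k le_rfl
  have : k < k := by
    refine lt_of_chain (c := fun x => F (stat φ x)) X ?_
    intro j j' hjj hj'
    obtain ⟨Y, _, hY1, hY2, r, _, hr⟩ := hX j j' hjj hj'
    exact ne_of_mid hc (z := Y) hY2 ⟨r, hr⟩ (by simp only [hY1])
  exact lt_irrefl _ this

end Pool.Agent.Lib.Pfd3312.Low
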