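import Mathlib
import Pool.Agent.Lib.Pfd3312.LowAdd

set_option autoImplicit false

/-!
Lower bounds for colourings of `{1,2,3}^d` which are simple as functions of the signs, for every
fixed support, the dependence on the support being arbitrary.
-/

namespace Pool.Agent.Lib.Pfd3312.Low

open Finset

variable {d k : ℕ}

/-- `u` on the first `n` coordinates in the order `σ` and `y` on the others. -/
def gl (σ : Equiv.Perm (Fin d)) (n : ℕ) (u y : Fin d → Bool) : Fin d → Bool :=
  fun r => if (σ r : ℕ) < n then u r else y r

/-- The colours of the points with support `A` as a function of the signs of the remaining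
coordinates once the signs of the first `n` coordinates in the order `σ` are fixed as in `u`. -/
def sub (c : (Fin d → Fin 3) → Fin k) (σ : Equiv.Perm (Fin d)) (A : Finset (Fin d)) (n : ℕ)
    (u : Fin d → Bool) : (Fin d → Bool) → Fin k :=
  fun y => c (sgn A (gl σ n u y))

/-- The indicator function of `T`. -/
def ind (T : Finset (Fin d)) : Fin d → Bool := fun r => decide (r ∈ T)

lemma gl_gl (σ : Equiv.Perm (Fin d)) {n n' : ℕ} (h : n ≤ n') (u z y : Fin d → Bool) :
    gl σ n' (gl σ n u z) y = gl σ n u (gl σ n' z y) := by
  funext i
  unfold gl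
  by_cases h1 : (σ i : ℕ) < n
  · have h2 : (σ i : ℕ) < n' := by omega
    simp [h1, h2]
  · by_cases h2 : (σ i : ℕ) < n'
    · simp [h1, h2]
    · simp [h1, h2]

lemma sub_gl (c : (Fin d → Fin 3) → Fin k) (σ : Equiv.Perm (Fin d)) (A : Finset (Fin d))
    {n n' : ℕ} (h : n ≤ n') {u u' : Fin d → Bool} (hu : sub c σ A n u = sub c σ A n u')
    (z : Fin d → Bool) : sub c σ A n' (gl σ n u z) = sub c σ A n' (gl σ n u' z) := by
  funext y
  unfold sub
  rw [gl_gl σ h, gl_gl σ h]
  exact congrFun hu _

lemma mid_sgn {A A' : Finset (Fin d)} (h : A' ⊆ A) (v : Fin d → Bool) (r : Fin d) :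
    ((sgn A v r : Fin 3) : ℕ) + (sgn A (flp (A \ A') v) r : ℕ) = 2 * (sgn A' v r : ℕ) := by
  unfold sgn flp
  by_cases h1 : r ∈ A'
  · have h2 : r ∈ A := h h1
    by_cases h3 : v r <;> simp [h1, h2, h3]
  · by_cases h2 : r ∈ A
    · by_cases h3 : v r <;> simp [h1, h2, h3]
    · simp [h1, h2]

lemma sgn_ne {A A' : Finset (Fin d)} (h : A' ⊂ A) (v : Fin d → Bool) :
    ∃ r, sgn A v r ≠ sgn A (flp (A \ A') v) r := by
  obtain ⟨r, h1, h2⟩ := Finset.exists_of_ssubset h
  refine ⟨r, ?_⟩
  unfold sgn flp
  by_cases h3 : v r <;> simp [h1, h2, h3]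

/-- The invariant: chains of length `i` after `n` coordinates. -/
def SInv (c : (Fin d → Fin 3) → Fin k) (σ : Equiv.Perm (Fin d)) (n i : ℕ) : Prop :=
  ∃ (A : ℕ → Finset (Fin d)) (v : Fin d → Bool), (∀ j ≤ i, ∀ r ∉ A j, (σ r : ℕ) < n) ∧
    ∀ j j', j < j' → j' ≤ i → A j' ⊂ A j ∧
      sub c σ (A j) n (flp (A j \ A j') v) = sub c σ (A j) n v

theorem sup_lower {c : (Fin d → Fin 3) → Fin k} (hc : Good c) (σ : Equiv.Perm (Fin d)) (S : ℕ)
    (hw : ∀ A n, (Set.range (sub c σ A n)).ncard ≤ 2 ^ S) :
    2 * d < S * (k * (k + 1)) + 2 * k := by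
  classical
  by_contra hcon
  push Not at hcon
  have main : ∀ i, S * (i * (i + 1)) + 2 * i ≤ 2 * d → ∃ n, 2 * n = S * (i * (i + 1)) + 2 * i ∧
      SInv c σ n i := by
    intro i
    induction i with
    | zero =>
      intro _
      exact ⟨0, by simp, fun _ => univ, fun _ => false, by simp, fun j j' h1 h2 => by omega⟩
    | succ i ih =>
      intro hi
      have e : S * ((i + 1) * (i + 1 + 1)) + 2 * (i + 1) =
          (S * (i * (i + 1)) + 2 * i) + 2 * (S * (i + 1) + 1) := by ring
      obtain ⟨n, hn, A, v, hA, hAv⟩ := ih (by rw [e] at hi; omega)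
      refine ⟨n + (S * (i + 1) + 1), by rw [e, ← hn]; ring, ?_⟩
      set b := S * (i + 1) + 1 with hb
      have hnb : n + b ≤ d := by rw [e] at hi; omega
      have hfin : ∀ j : Fin (i + 1), (Set.range (sub c σ (A j) (n + b))).Finite :=
        fun j => Set.finite_range _
      have hRc : ∀ j : Fin (i + 1), (hfin j).toFinset.card ≤ 2 ^ S := by
        intro j
        have := hw (A j) (n + b)
        rwa [Set.ncard_eq_toFinset_card _ (hfin j)] at this
      have hcard : (Fintype.piFinset (fun j : Fin (i + 1) => (hfin j).toFinset)).card <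
          (blk σ n b).powerset.card := by
        rw [Fintype.card_piFinset, Finset.card_powerset, card_blk σ n b hnb]
        calc ∏ j : Fin (i + 1), (hfin j).toFinset.card ≤ ∏ _j : Fin (i + 1), 2 ^ S :=
              Finset.prod_le_prod' fun j _ => hRc j
          _ = 2 ^ (S * (i + 1)) := by simp [← pow_mul]
          _ < 2 ^ b := Nat.pow_lt_pow_right (by norm_num) (by omega)
      obtain ⟨T, hT, T', hT', hne, heq⟩ := Finset.exists_ne_map_eq_of_card_lt_of_maps_to hcard
        (f := fun T => fun j : Fin (i + 1) => sub c σ (A j) (n + b) (gl σ n v (ind T))) (by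
          intro T _
          rw [Finset.mem_coe, Fintype.mem_piFinset]
          intro j
          simp)
      rw [Finset.mem_powerset] at hT hT'
      have heq' : ∀ j ≤ i, sub c σ (A j) (n + b) (gl σ n v (ind T)) =
          sub c σ (A j) (n + b) (gl σ n v (ind T')) := fun j hj => congrFun heq ⟨j, by omega⟩
      -- the difference of the two sign vectors
      set D : Finset (Fin d) := (T \ T') ∪ (T' \ T) with hD
      have hDB : ∀ r ∈ D, n ≤ (σ r : ℕ) ∧ (σ r : ℕ) < n + b := by
        intro r hr
        have : r ∈ blk σ n b := by
          rw [hD, Finset.mem_union, Finset.mem_sdiff, Finset.mem_sdiff] at hr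
          rcases hr with h | h
          · exact hT h.1
          · exact hT' h.1
        simpa [blk] using this
      have hDne : D.Nonempty := by
        rw [Finset.nonempty_iff_ne_empty]
        intro he
        rw [hD, Finset.union_eq_empty, Finset.sdiff_eq_empty_iff_subset,
          Finset.sdiff_eq_empty_iff_subset] at he
        exact hne (Finset.Subset.antisymm he.1 he.2)
      have hDA : ∀ j ≤ i, D ⊆ A j := by
        intro j hj r hr
        by_contra h
        have := hA j hj r h
        have := (hDB r hr).1
        omega
      refine ⟨fun j => if j ≤ i then A j else A i \ D, gl σ n v (ind T), ?_, ?_⟩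
      · intro j hj r hr
        by_cases hji : j ≤ i
        · simp only [hji, if_true] at hr
          have := hA j hji r hr
          omega
        · simp only [hji, if_false, Finset.mem_sdiff, not_and, not_not] at hr
          by_cases hri : r ∈ A i
          · exact (hDB r (hr hri)).2
          · have := hA i le_rfl r hri
            omega
      intro j j' hjj hj'
      have hj : j ≤ i := by omega
      by_cases h1 : j' ≤ i
      · simp only [hj, h1, if_true]
        obtain ⟨h2, h3⟩ := hAv j j' hjj h1
        refine ⟨h2, ?_⟩
        have h4 : flp (A j \ A j') (gl σ n v (ind T)) = gl σ n (flp (A j \ A j') v) (ind T) := by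
          funext r
          unfold flp gl
          by_cases h5 : r ∈ A j \ A j'
          · have h6 := hA j' h1 r (Finset.mem_sdiff.1 h5).2
            simp only [h5, h6, if_true]
          · simp only [h5, if_false]
        rw [h4]
        exact sub_gl c σ (A j) (by omega) h3 (ind T)
      · simp only [hj, h1, if_true, if_false]
        have hlast : A i \ D ⊂ A i := by
          rw [Finset.ssubset_iff_subset_ne]
          refine ⟨Finset.sdiff_subset, ?_⟩
          intro h
          obtain ⟨r, hr⟩ := hDne
          have h2 : r ∈ A i \ D := by rw [h]; exact hDA i le_rfl hr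
          exact (Finset.mem_sdiff.1 h2).2 hr
        have hIH : A i ⊆ A j ∧ sub c σ (A j) n (flp (A j \ A i) v) = sub c σ (A j) n v := by
          by_cases h2 : j < i
          · exact ⟨(hAv j i h2 le_rfl).1.1, (hAv j i h2 le_rfl).2⟩
          · have : j = i := by omega
            subst this
            refine ⟨Finset.Subset.refl _, ?_⟩
            congr 1
            funext r
            simp [flp]
        refine ⟨lt_of_lt_of_le hlast hIH.1, ?_⟩
        have h4 : flp (A j \ (A i \ D)) (gl σ n v (ind T)) =
            gl σ n (flp (A j \ A i) v) (ind T') := by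
          funext r
          unfold flp gl ind
          by_cases h5 : (σ r : ℕ) < n
          · have h6 : r ∉ D := fun h => by have := (hDB r h).1; omega
            have h7 : r ∈ A j \ (A i \ D) ↔ r ∈ A j \ A i := by
              simp only [Finset.mem_sdiff, h6, not_false_eq_true, and_true]
            simp only [h5, if_true, h7]
          · by_cases h6 : r ∈ D
            · have h7 : r ∈ A j \ (A i \ D) := by
                simp only [Finset.mem_sdiff, h6, not_true_eq_false, and_false, not_false_eq_true,
                  and_true]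
                exact hDA j hj h6
              simp only [h5, if_false, h7, if_true]
              rw [hD, Finset.mem_union, Finset.mem_sdiff, Finset.mem_sdiff] at h6
              rcases h6 with h | h
              · simp [h.1, h.2]
              · simp [h.1, h.2]
            · have h7 : r ∉ A j \ (A i \ D) := by
                intro h
                rw [Finset.mem_sdiff, Finset.mem_sdiff] at h
                apply h.2
                refine ⟨?_, h6⟩
                by_contra h8
                have := hA i le_rfl r h8
                omega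
              simp only [h5, if_false, h7]
              rw [hD, Finset.mem_union, Finset.mem_sdiff, Finset.mem_sdiff] at h6
              by_cases h8 : r ∈ T <;> by_cases h9 : r ∈ T'
              · simp [h8, h9]
              · exact absurd (Or.inl ⟨h8, h9⟩) h6
              · exact absurd (Or.inr ⟨h9, h8⟩) h6
              · simp [h8, h9]
        rw [h4, sub_gl c σ (A j) (by omega) hIH.2 (ind T'), ← heq' j hj]
  obtain ⟨n, _, A, v, hA, hAv⟩ := main k hcon
  have : k < k := by
    refine lt_of_chain (c := c) (fun j => sgn (A j) v) ?_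
    intro j j' hjj hj'
    obtain ⟨h1, h2⟩ := hAv j j' hjj hj'
    refine ne_of_mid hc (z := sgn (A j) (flp (A j \ A j') v)) (mid_sgn h1.1 v) (sgn_ne h1 v) ?_
    have h3 := congrFun h2 v
    unfold sub at h3
    have h4 : gl σ n (flp (A j \ A j') v) v = flp (A j \ A j') v := by
      funext r
      unfold gl
      by_cases h5 : (σ r : ℕ) < n
      · simp [h5]
      · have h6 : r ∉ A j \ A j' := fun h => h5 (hA j' hj' r (Finset.mem_sdiff.1 h).2)
        simp [h5, flp, h6]
    have h5 : gl σ n v v = v := by funext r; simp [gl]
    rw [h4, h5] at h3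
    exact h3
  exact lt_irrefl _ this

/-! ### Additive statistics depending on the support -/

theorem supadd_lower {c : (Fin d → Fin 3) → Fin k} (hc : Good c) (R : ℕ)
    (G : Finset (Fin d) → Type) [∀ A, AddCommGroup (G A)] (δ : ∀ A, Fin d → G A)
    (F : ∀ A, G A → Fin k)
    (hR : ∀ A, (Set.range (fun T : Finset (Fin d) => ∑ r ∈ T ∩ A, δ A r)).ncard ≤ R)
    (hF : ∀ A T, c (sgn A (ind T)) = F A (∑ r ∈ T ∩ A, δ A r)) (L : ℕ) :
    (d - 2 * L * k).choose L ≤ R ^ k := by
  classical
  by_contra hcon
  push Not at hcon
  have hR1 : 1 ≤ R := by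
    refine le_trans ?_ (hR ∅)
    rw [Nat.succ_le_iff, Set.ncard_pos (Set.finite_range _)]
    exact ⟨_, ⟨∅, rfl⟩⟩
  set g : ∀ A, Finset (Fin d) → G A := fun A T => ∑ r ∈ T ∩ A, δ A r with hg
  have gU : ∀ A (X Y : Finset (Fin d)), Disjoint X Y → g A (X ∪ Y) = g A X + g A Y := by
    intro A X Y h
    simp only [hg]
    rw [Finset.union_inter_distrib_right, Finset.sum_union]
    exact Finset.disjoint_of_subset_left Finset.inter_subset_left
      (Finset.disjoint_of_subset_right Finset.inter_subset_left h)
  have main : ∀ i ≤ k, ∃ (U V : Finset (Fin d)) (A : ℕ → Finset (Fin d)), U.card ≤ 2 * L * i ∧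
      V ⊆ U ∧ (∀ j ≤ i, ∀ r ∉ A j, r ∈ U) ∧
      ∀ j j', j < j' → j' ≤ i → A j' ⊂ A j ∧
        g (A j) (symmDiff V (A j \ A j')) = g (A j) V := by
    intro i
    induction i with
    | zero =>
      intro _
      exact ⟨∅, ∅, fun _ => univ, by simp, by simp, by simp, fun j j' h1 h2 => by omega⟩
    | succ i ih =>
      intro hi
      obtain ⟨U, V, A, hU, hVU, hA, hAv⟩ := ih (by omega)
      have hle : 2 * L * i ≤ 2 * L * k := Nat.mul_le_mul_left _ (by omega)
      have hfin : ∀ j : Fin (i + 1), (Set.range (g (A j))).Finite := fun j => Set.finite_range _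
      have hRc : ∀ j : Fin (i + 1), (hfin j).toFinset.card ≤ R := by
        intro j
        have := hR (A j)
        rwa [Set.ncard_eq_toFinset_card _ (hfin j)] at this
      have hcard : (Fintype.piFinset (fun j : Fin (i + 1) => (hfin j).toFinset)).card <
          (Finset.powersetCard L (univ \ U)).card := by
        rw [Fintype.card_piFinset, Finset.card_powersetCard, Finset.card_univ_sdiff,
          Fintype.card_fin]
        calc ∏ j : Fin (i + 1), (hfin j).toFinset.card ≤ ∏ _j : Fin (i + 1), R :=
              Finset.prod_le_prod' fun j _ => hRc j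
          _ = R ^ (i + 1) := by simp
          _ ≤ R ^ k := Nat.pow_le_pow_right hR1 (by omega)
          _ < (d - 2 * L * k).choose L := hcon
          _ ≤ (d - U.card).choose L := Nat.choose_le_choose L (by omega)
      obtain ⟨T, hT, T', hT', hne, heq⟩ := Finset.exists_ne_map_eq_of_card_lt_of_maps_to hcard
        (f := fun T => fun j : Fin (i + 1) => g (A j) T) (by
          intro T _
          rw [Finset.mem_coe, Fintype.mem_piFinset]
          intro j
          simp)
      rw [Finset.mem_powersetCard] at hT hT'
      have heq' : ∀ j ≤ i, g (A j) T = g (A j) T' := fun j hj => congrFun heq ⟨j, by omega⟩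
      set P := T \ T' with hP
      set Q := T' \ T with hQ
      have hPQg : ∀ j ≤ i, g (A j) P = g (A j) Q := by
        intro j hj
        have e1 : g (A j) T = g (A j) P + g (A j) (T ∩ T') := by
          rw [← gU (A j) P (T ∩ T') (by
            rw [hP]; exact Finset.disjoint_sdiff_inter T T'), hP, Finset.sdiff_union_inter]
        have e2 : g (A j) T' = g (A j) Q + g (A j) (T ∩ T') := by
          rw [← gU (A j) Q (T ∩ T') (by
            rw [hQ, Finset.inter_comm]; exact Finset.disjoint_sdiff_inter T' T), hQ,
            Finset.inter_comm, Finset.sdiff_union_inter]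
        have := heq' j hj
        rw [e1, e2] at this
        exact add_right_cancel this
      have hPU : ∀ r ∈ P, r ∉ U := by
        intro r hr
        have := hT.1 (Finset.mem_sdiff.1 hr).1
        simpa using this
      have hQU : ∀ r ∈ Q, r ∉ U := by
        intro r hr
        have := hT'.1 (Finset.mem_sdiff.1 hr).1
        simpa using this
      have hPQ : ∀ r ∈ P, r ∉ Q := by
        intro r h1 h2
        simp only [hP, hQ, Finset.mem_sdiff] at h1 h2
        exact h2.2 h1.1
      have hPne : P.Nonempty := by
        rw [Finset.nonempty_iff_ne_empty]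
        intro he
        have hsub : T ⊆ T' := Finset.sdiff_eq_empty_iff_subset.1 he
        exact hne (Finset.eq_of_subset_of_card_le hsub (by rw [hT.2, hT'.2]))
      have hDA : ∀ j ≤ i, P ∪ Q ⊆ A j := by
        intro j hj r hr
        by_contra h
        have h1 := hA j hj r h
        rcases Finset.mem_union.1 hr with h2 | h2
        · exact hPU r h2 h1
        · exact hQU r h2 h1
      have hVP : Disjoint V P := by
        rw [Finset.disjoint_left]
        intro r h1 h2
        exact hPU r h2 (hVU h1)
      obtain ⟨A', hA'1, hA'2⟩ : ∃ A' : ℕ → Finset (Fin d), (∀ j ≤ i, A' j = A j) ∧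
          A' (i + 1) = A i \ (P ∪ Q) :=
        ⟨fun j => if j ≤ i then A j else A i \ (P ∪ Q), fun j hj => if_pos hj,
          if_neg (by omega)⟩
      refine ⟨U ∪ (P ∪ Q), V ∪ P, A', ?_, ?_, ?_, ?_⟩
      · have h1 := Finset.card_union_le U (P ∪ Q)
        have h2 := Finset.card_union_le P Q
        have h3 : P.card ≤ T.card := Finset.card_le_card Finset.sdiff_subset
        have h4 : Q.card ≤ T'.card := Finset.card_le_card Finset.sdiff_subset
        rw [hT.2] at h3
        rw [hT'.2] at h4
        have : 2 * L * (i + 1) = 2 * L * i + 2 * L := by ring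
        omega
      · refine Finset.union_subset_union hVU Finset.subset_union_left
      · intro j hj r hr
        by_cases hji : j ≤ i
        · rw [hA'1 j hji] at hr
          exact Finset.mem_union_left _ (hA j hji r hr)
        · have hj1 : j = i + 1 := by omega
          subst hj1
          rw [hA'2] at hr
          simp only [Finset.mem_sdiff, not_and, not_not] at hr
          by_cases hri : r ∈ A i
          · exact Finset.mem_union_right _ (hr hri)
          · exact Finset.mem_union_left _ (hA i le_rfl r hri)
      intro j j' hjj hj'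
      have hj : j ≤ i := by omega
      by_cases h1 : j' ≤ i
      · rw [hA'1 j hj, hA'1 j' h1]
        obtain ⟨h2, h3⟩ := hAv j j' hjj h1
        refine ⟨h2, ?_⟩
        have h5 : ∀ r ∈ A j \ A j', r ∈ U := fun r hr => hA j' h1 r (Finset.mem_sdiff.1 hr).2
        have h4 : symmDiff (V ∪ P) (A j \ A j') = symmDiff V (A j \ A j') ∪ P := by
          ext r
          simp only [Finset.mem_symmDiff, Finset.mem_union]
          by_cases hr : r ∈ P
          · have h6 : r ∉ A j \ A j' := fun h => hPU r hr (h5 r h)
            simp [hr, h6]
          · simp [hr]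
        rw [h4, gU _ _ _ ?_, gU _ _ _ hVP, h3]
        rw [Finset.disjoint_left]
        intro r h6 h7
        rw [Finset.mem_symmDiff] at h6
        rcases h6 with h | h
        · exact hPU r h7 (hVU h.1)
        · exact hPU r h7 (h5 r h.1)
      · have hj1 : j' = i + 1 := by omega
        subst hj1
        rw [hA'1 j hj, hA'2]
        have hlast : A i \ (P ∪ Q) ⊂ A i := by
          rw [Finset.ssubset_iff_subset_ne]
          refine ⟨Finset.sdiff_subset, ?_⟩
          intro h
          obtain ⟨r, hr⟩ := hPne
          have h2 : r ∈ A i \ (P ∪ Q) := by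
            rw [h]; exact hDA i le_rfl (Finset.mem_union_left _ hr)
          exact (Finset.mem_sdiff.1 h2).2 (Finset.mem_union_left _ hr)
        have hIH : A i ⊆ A j ∧ g (A j) (symmDiff V (A j \ A i)) = g (A j) V := by
          by_cases h2 : j < i
          · exact ⟨(hAv j i h2 le_rfl).1.1, (hAv j i h2 le_rfl).2⟩
          · have : j = i := by omega
            subst this
            refine ⟨Finset.Subset.refl _, ?_⟩
            congr 1
            rw [Finset.sdiff_self]
            exact symmDiff_bot V
        refine ⟨lt_of_lt_of_le hlast hIH.1, ?_⟩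
        have h5 : ∀ r ∈ A j \ A i, r ∈ U := fun r hr => hA i le_rfl r (Finset.mem_sdiff.1 hr).2
        have h4 : symmDiff (V ∪ P) (A j \ (A i \ (P ∪ Q))) = symmDiff V (A j \ A i) ∪ Q := by
          ext r
          simp only [Finset.mem_symmDiff, Finset.mem_union, Finset.mem_sdiff]
          by_cases hr : r ∈ P
          · have h6 : r ∉ V := fun h => hPU r hr (hVU h)
            have h7 : r ∉ Q := hPQ r hr
            have h8 : r ∈ A j := hDA j hj (Finset.mem_union_left _ hr)
            have h9 : r ∈ A i := hDA i le_rfl (Finset.mem_union_left _ hr)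
            simp [hr, h6, h7, h8, h9]
          · by_cases hr' : r ∈ Q
            · have h6 : r ∉ V := fun h => hQU r hr' (hVU h)
              have h8 : r ∈ A j := hDA j hj (Finset.mem_union_right _ hr')
              have h9 : r ∈ A i := hDA i le_rfl (Finset.mem_union_right _ hr')
              simp [hr, hr', h6, h8, h9]
            · simp [hr, hr']
        rw [h4, gU _ _ _ ?_, gU _ _ _ hVP, hIH.2, hPQg j hj]
        rw [Finset.disjoint_left]
        intro r h6 h7
        rw [Finset.mem_symmDiff] at h6
        rcases h6 with h | h
        · exact hQU r h7 (hVU h.1)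
        · exact hQU r h7 (h5 r h.1)
  obtain ⟨U, V, A, _, _, _, hAv⟩ := main k le_rfl
  have : k < k := by
    refine lt_of_chain (c := c) (fun j => sgn (A j) (ind V)) ?_
    intro j j' hjj hj'
    obtain ⟨h1, h2⟩ := hAv j j' hjj hj'
    refine ne_of_mid hc (z := sgn (A j) (flp (A j \ A j') (ind V))) (mid_sgn h1.1 _)
      (sgn_ne h1 _) ?_
    have h3 : flp (A j \ A j') (ind V) = ind (symmDiff V (A j \ A j')) := by
      funext r
      unfold flp ind
      by_cases h4 : r ∈ A j \ A j' <;> by_cases h5 : r ∈ V <;>
        simp [Finset.mem_symmDiff, h4, h5]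
    rw [h3, hF, hF]
    exact congrArg _ h2
  exact lt_irrefl _ this

end Pool.Agent.Lib.Pfd3312.Low
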