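import Mathlib
import Pool.Agent.Lib.Pfd3312.LowSup

set_option autoImplicit false

/-!
Every colouring of `{1,2,3}^d` with few colours and without monochromatic line is sensitive to
noise: on some large support a random flip of signs changes the colour with a probability which is
at least `1 / (2 k - 1)`.
-/

namespace Pool.Agent.Lib.Pfd3312.Low

open Finset

variable {d k : ℕ}

lemma flp_flp (D : Finset (Fin d)) (v : Fin d → Bool) : flp D (flp D v) = v := by
  funext r
  unfold flp
  by_cases h : r ∈ D <;> simp [h]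

lemma flp_empty (v : Fin d → Bool) : flp ∅ v = v := by
  funext r
  simp [flp]

lemma flp_sdiff {A B C : Finset (Fin d)} (h1 : C ⊆ B) (h2 : B ⊆ A) (v : Fin d → Bool) :
    flp (A \ C) v = flp (B \ C) (flp (A \ B) v) := by
  funext r
  unfold flp
  by_cases hC : r ∈ C
  · simp [hC, h1 hC]
  · by_cases hB : r ∈ B
    · simp [hC, hB, h2 hB]
    · simp [hC, hB]

/-- For one chain of supports and one sign vector. -/
lemma chain_one {c : (Fin d → Fin 3) → Fin k} (hc : Good c) (w : ℕ) (A : ℕ → Finset (Fin d))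
    (hA : ∀ i < w, A (i + 1) ⊂ A i) (v : Fin d → Bool) :
    w + 1 ≤ k + ∑ j ∈ range w, ∑ i ∈ Ico j w,
      (if c (sgn (A j) (flp (A j \ A i) v)) ≠ c (sgn (A j) (flp (A j \ A (i + 1)) v))
        then 1 else 0) := by
  classical
  have hle : ∀ j j', j < j' → j' ≤ w → A j' ⊂ A j := by
    intro j j' hjj
    induction j', hjj using Nat.le_induction with
    | base => intro h; exact hA j (by omega)
    | succ n hn ih => intro h; exact lt_trans (hA n (by omega)) (ih (by omega))
  set y : ℕ → ℕ → Fin k := fun j i => c (sgn (A j) (flp (A j \ A i) v)) with hy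
  set G : Finset ℕ := (range w).filter (fun j => ∃ i ∈ Ico j w, y j i ≠ y j (i + 1)) with hG
  have h1 : (range (w + 1) \ G).card ≤ k := by
    have : (range (w + 1) \ G).card ≤ (univ : Finset (Fin k)).card := by
      refine Finset.card_le_card_of_injOn (fun j => c (sgn (A j) v)) (by simp) ?_
      have key : ∀ j j', j < j' → j' ≤ w → j ∉ G → c (sgn (A j) v) ≠ c (sgn (A j') v) := by
        intro j j' hjj hj' hjG
        have h2 := hle j j' hjj hj'
        refine ne_of_mid hc (z := sgn (A j) (flp (A j \ A j') v)) (mid_sgn h2.1 v)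
          (sgn_ne h2 v) ?_
        have h3 : ∀ i ∈ Ico j w, y j i = y j (i + 1) := by
          intro i hi
          by_contra hne
          exact hjG (by
            rw [hG, mem_filter, mem_range]
            exact ⟨by omega, i, hi, hne⟩)
        have h4 : ∀ n, j ≤ n → n ≤ w → y j n = y j j := by
          intro n hn
          induction n, hn using Nat.le_induction with
          | base => intro _; rfl
          | succ n hn ih =>
            intro h
            rw [← h3 n (by rw [mem_Ico]; omega)]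
            exact ih (by omega)
        have h5 := h4 j' (by omega) hj'
        simp only [hy, sdiff_self] at h5
        simpa [flp_empty] using h5
      intro a ha b hb hab
      simp only [coe_sdiff, coe_range, Set.mem_sdiff, Set.mem_Iio, mem_coe] at ha hb
      by_contra hne
      rcases lt_or_gt_of_ne hne with h | h
      · exact key a b h (by omega) ha.2 hab
      · exact key b a h (by omega) hb.2 hab.symm
    simpa using this
  have h2 : w + 1 ≤ (range (w + 1) \ G).card + G.card := by
    have := Finset.card_le_card_sdiff_add_card (s := range (w + 1)) (t := G)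
    simpa using this
  have h3 : G.card ≤ ∑ j ∈ range w, ∑ i ∈ Ico j w, (if y j i ≠ y j (i + 1) then 1 else 0) := by
    rw [Finset.card_eq_sum_ones]
    refine le_trans ?_ (Finset.sum_le_sum_of_subset (filter_subset _ _ : G ⊆ range w))
    refine Finset.sum_le_sum ?_
    intro j hj
    rw [hG, mem_filter] at hj
    obtain ⟨i, hi, hne⟩ := hj.2
    refine le_trans ?_ (Finset.single_le_sum (fun _ _ => Nat.zero_le _) hi)
    simp [hne]
  change w + 1 ≤ k + ∑ j ∈ range w, ∑ i ∈ Ico j w, (if y j i ≠ y j (i + 1) then 1 else 0)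
  omega

lemma chg_shift (c : (Fin d → Fin 3) → Fin k) {A B C : Finset (Fin d)} (h1 : C ⊆ B) (h2 : B ⊆ A) :
    ∑ v : Fin d → Bool, (if c (sgn A (flp (A \ B) v)) ≠ c (sgn A (flp (A \ C) v))
      then 1 else 0) = chg c A (B \ C) := by
  classical
  unfold chg
  rw [Finset.card_filter]
  have e : Function.Involutive (flp (A \ B)) := fun v => flp_flp _ v
  have e0 : ∀ v, (Function.Involutive.toPerm (flp (A \ B)) e) v = flp (A \ B) v := fun _ => rfl
  have e2 : ∀ v : Fin d → Bool, (if c (sgn A (flp (A \ B) v)) ≠ c (sgn A (flp (A \ C) v))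
      then 1 else 0) = (fun u : Fin d → Bool => if c (sgn A u) ≠ c (sgn A (flp (B \ C) u))
      then 1 else 0) (Function.Involutive.toPerm (flp (A \ B)) e v) := by
    intro v
    simp only [e0]
    rw [flp_sdiff h1 h2 v]
  rw [Finset.sum_congr rfl (fun v _ => e2 v)]
  exact Equiv.sum_comp (Function.Involutive.toPerm (flp (A \ B)) e) (fun u : Fin d → Bool => if c (sgn A u) ≠
    c (sgn A (flp (B \ C) u)) then 1 else 0)

/-- For one chain of supports, averaged over the sign vectors. -/
lemma chain_all {c : (Fin d → Fin 3) → Fin k} (hc : Good c) (w : ℕ) (A : ℕ → Finset (Fin d))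
    (hA : ∀ i < w, A (i + 1) ⊂ A i) :
    (w + 1 - k) * 2 ^ d ≤ ∑ j ∈ range w, ∑ i ∈ Ico j w, chg c (A j) (A i \ A (i + 1)) := by
  classical
  have hle : ∀ j j', j ≤ j' → j' ≤ w → A j' ⊆ A j := by
    intro j j' hjj
    induction j', hjj using Nat.le_induction with
    | base => intro h; exact Finset.Subset.refl _
    | succ n hn ih => intro h; exact (hA n (by omega)).1.trans (ih (by omega))
  have h1 := Finset.sum_le_sum (fun (v : Fin d → Bool) (_ : v ∈ (univ : Finset (Fin d → Bool))) =>
    chain_one hc w A hA v)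
  rw [Finset.sum_const, Finset.sum_add_distrib, Finset.sum_const, Finset.sum_comm,
    Finset.card_univ, Fintype.card_fun, Fintype.card_bool, Fintype.card_fin, smul_eq_mul,
    smul_eq_mul] at h1
  have h2 : ∑ j ∈ range w, ∑ v : Fin d → Bool, ∑ i ∈ Ico j w,
      (if c (sgn (A j) (flp (A j \ A i) v)) ≠ c (sgn (A j) (flp (A j \ A (i + 1)) v))
        then 1 else 0) = ∑ j ∈ range w, ∑ i ∈ Ico j w, chg c (A j) (A i \ A (i + 1)) := by
    refine Finset.sum_congr rfl ?_
    intro j _
    rw [Finset.sum_comm]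
    refine Finset.sum_congr rfl ?_
    intro i hi
    rw [mem_Ico] at hi
    exact chg_shift c (hA i hi.2).1 (hle j i hi.1 (by omega))
  rw [h2] at h1
  rw [Nat.sub_mul]
  have e1 : 2 ^ d * (w + 1) = (w + 1) * 2 ^ d := Nat.mul_comm _ _
  have e2 : 2 ^ d * k = k * 2 ^ d := Nat.mul_comm _ _
  rw [e1, e2] at h1
  omega

/-! ### Averaging over the orders -/

lemma exists_perm {X D D' : Finset (Fin d)} (hD : D ⊆ X) (hD' : D' ⊆ X) (h : D.card = D'.card) :
    ∃ τ : Equiv.Perm (Fin d), (∀ r, τ r ∈ X ↔ r ∈ X) ∧ ∀ r, τ r ∈ D' ↔ r ∈ D := by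
  classical
  let f : Finset (Fin d) → Fin d → Bool × Bool := fun E r => (decide (r ∈ X), decide (r ∈ E))
  have hcard : ∀ b, Fintype.card {r // f D r = b} = Fintype.card {r // f D' r = b} := by
    intro b
    rw [Fintype.card_subtype, Fintype.card_subtype]
    obtain ⟨b1, b2⟩ := b
    have h0 : ∀ E : Finset (Fin d), E ⊆ X → E.card = D.card →
        (univ.filter (fun r => f E r = (b1, b2))).card =
          if b1 then (if b2 then D.card else X.card - D.card) else
            (if b2 then 0 else d - X.card) := by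
      intro E hE hEc
      cases b1 <;> cases b2
      · have : (univ.filter (fun r => f E r = (false, false))) = univ \ X := by
          ext r
          simp only [f, mem_filter, mem_univ, true_and, Prod.mk.injEq, decide_eq_false_iff_not,
            mem_sdiff]
          exact ⟨fun h => h.1, fun h => ⟨h, fun h' => h (hE h')⟩⟩
        rw [this, Finset.card_univ_sdiff]
        simp
      · have : (univ.filter (fun r => f E r = (false, true))) = ∅ := by
          ext r
          simp only [f, mem_filter, mem_univ, true_and, Prod.mk.injEq, decide_eq_false_iff_not,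
            decide_eq_true_eq, notMem_empty, iff_false, not_and]
          exact fun h1 h2 => h1 (hE h2)
        rw [this]
        simp
      · have : (univ.filter (fun r => f E r = (true, false))) = X \ E := by
          ext r
          simp only [f, mem_filter, mem_univ, true_and, Prod.mk.injEq, decide_eq_false_iff_not,
            decide_eq_true_eq, mem_sdiff]
        rw [this, Finset.card_sdiff_of_subset hE, hEc]
        simp
      · have : (univ.filter (fun r => f E r = (true, true))) = E := by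
          ext r
          simp only [f, mem_filter, mem_univ, true_and, Prod.mk.injEq, decide_eq_true_eq]
          exact ⟨fun h => h.2, fun h => ⟨hE h, h⟩⟩
        rw [this, hEc]
        simp
    rw [h0 D hD rfl, h0 D' hD' h.symm]
  let e : ∀ b, {r // f D r = b} ≃ {r // f D' r = b} := fun b => Fintype.equivOfCardEq (hcard b)
  refine ⟨Equiv.ofFiberEquiv e, ?_, ?_⟩
  · intro r
    have := Equiv.ofFiberEquiv_map e r
    simp only [f, Prod.mk.injEq, decide_eq_decide] at this
    exact this.1
  · intro r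
    have := Equiv.ofFiberEquiv_map e r
    simp only [f, Prod.mk.injEq, decide_eq_decide] at this
    exact this.2

lemma sum_perm_eq (h : Finset (Fin d) → Finset (Fin d) → ℕ) {X D D' : Finset (Fin d)}
    (hD : D ⊆ X) (hD' : D' ⊆ X) (hc : D.card = D'.card) :
    ∑ π : Equiv.Perm (Fin d), h (X.map π.toEmbedding) (D'.map π.toEmbedding) =
      ∑ π : Equiv.Perm (Fin d), h (X.map π.toEmbedding) (D.map π.toEmbedding) := by
  classical
  obtain ⟨τ, h1, h2⟩ := exists_perm hD hD' hc
  have hX : X.map τ.toEmbedding = X := by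
    ext r
    rw [Finset.mem_map_equiv, ← h1]
    simp
  have hDD : D.map τ.toEmbedding = D' := by
    ext r
    rw [Finset.mem_map_equiv, ← h2]
    simp
  rw [← Equiv.sum_comp (Equiv.mulRight τ) (fun π : Equiv.Perm (Fin d) =>
    h (X.map π.toEmbedding) (D.map π.toEmbedding))]
  refine Finset.sum_congr rfl ?_
  intro π _
  have e : ∀ Y : Finset (Fin d), Y.map (Equiv.mulRight τ π).toEmbedding =
      (Y.map τ.toEmbedding).map π.toEmbedding := by
    intro Y
    rw [Finset.map_map]
    rfl
  rw [e, e, hX, hDD]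

lemma sum_perm_choose (h : Finset (Fin d) → Finset (Fin d) → ℕ) {X D : Finset (Fin d)}
    (hD : D ⊆ X) :
    X.card.choose D.card *
      ∑ π : Equiv.Perm (Fin d), h (X.map π.toEmbedding) (D.map π.toEmbedding) =
      ∑ π : Equiv.Perm (Fin d), ∑ E ∈ powersetCard D.card (X.map π.toEmbedding),
        h (X.map π.toEmbedding) E := by
  classical
  have h1 : ∀ π : Equiv.Perm (Fin d), ∑ E ∈ powersetCard D.card (X.map π.toEmbedding),
      h (X.map π.toEmbedding) E =
      ∑ E ∈ powersetCard D.card X, h (X.map π.toEmbedding) (E.map π.toEmbedding) := by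
    intro π
    rw [Finset.powersetCard_map, Finset.sum_map]
    rfl
  simp only [h1]
  rw [Finset.sum_comm]
  have h2 : ∀ E ∈ powersetCard D.card X,
      ∑ π : Equiv.Perm (Fin d), h (X.map π.toEmbedding) (E.map π.toEmbedding) =
      ∑ π : Equiv.Perm (Fin d), h (X.map π.toEmbedding) (D.map π.toEmbedding) := by
    intro E hE
    rw [mem_powersetCard] at hE
    exact sum_perm_eq h hD hE.1 hE.2.symm
  rw [Finset.sum_congr rfl h2, Finset.sum_const, Finset.card_powersetCard, smul_eq_mul]

/-- The coordinates number `a, a + 1, ..., d - 1`. -/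
def tl (d a : ℕ) : Finset (Fin d) := univ.filter (fun r => a ≤ (r : ℕ))

lemma card_tl {a : ℕ} (h : a ≤ d) : (tl d a).card = d - a := by
  have h1 : tl d a = blk 1 a (d - a) := by
    ext r
    have := r.2
    simp only [tl, blk, mem_filter, mem_univ, true_and, Equiv.Perm.coe_one, id_eq]
    omega
  rw [h1, card_blk 1 a (d - a) (by omega)]

lemma tl_subset {a b : ℕ} (h : a ≤ b) : tl d b ⊆ tl d a := by
  intro r hr
  simp only [tl, mem_filter, mem_univ, true_and] at hr ⊢
  omega

lemma two_mul_sum (w : ℕ) : 2 * ∑ j ∈ range w, (w - j) = w * (w + 1) := by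
  induction w with
  | zero => simp
  | succ w ih =>
    rw [Finset.sum_range_succ']
    have : ∑ j ∈ range w, (w + 1 - (j + 1)) = ∑ j ∈ range w, (w - j) :=
      Finset.sum_congr rfl fun j _ => by omega
    rw [this, Nat.mul_add, ih]
    simp only [Nat.sub_zero]
    ring

lemma sum_perm_univ (g : Finset (Fin d) → ℕ) (X : Finset (Fin d)) :
    d.choose X.card * ∑ π : Equiv.Perm (Fin d), g (X.map π.toEmbedding) =
      Fintype.card (Equiv.Perm (Fin d)) * ∑ A ∈ powersetCard X.card univ, g A := by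
  classical
  have h := sum_perm_choose (fun _ A => g A) (Finset.subset_univ X)
  simp only [Finset.card_univ, Fintype.card_fin, Finset.map_univ_equiv, Finset.sum_const,
    smul_eq_mul] at h
  exact h

/-- The noise theorem: for all `w`, `t ≥ 1`, `w t ≤ b ≤ d`, the probabilities for the sizes
`b - j t`, `j < w`, with the weights `w - j`, have a sum of at least `w + 1 - k`. -/
theorem noise_sum {c : (Fin d → Fin 3) → Fin k} (hc : Good c) {t w b : ℕ} (ht : 1 ≤ t)
    (hd : w * t ≤ b) (hb : b ≤ d) :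
    (w : ℝ) + 1 - k ≤ ∑ j ∈ range w, ((w : ℝ) - j) * noi c (b - j * t) t := by
  classical
  have hmul : ∀ i, i < w → (i + 1) * t ≤ b := by
    intro i hi
    exact le_trans (Nat.mul_le_mul_right t (by omega)) hd
  set X : ℕ → Finset (Fin d) := fun i => tl d (d - b + i * t) with hX
  have hXc : ∀ i, i ≤ w → (X i).card = b - i * t := by
    intro i hi
    have h1 : i * t ≤ b := le_trans (Nat.mul_le_mul_right t hi) hd
    show (tl d (d - b + i * t)).card = b - i * t
    rw [card_tl (by omega)]
    omega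
  have hXs : ∀ i j, i ≤ j → X j ⊆ X i := fun i j h =>
    tl_subset (Nat.add_le_add_left (Nat.mul_le_mul_right t h) _)
  have hDc : ∀ i, i < w → (X i \ X (i + 1)).card = t := by
    intro i hi
    rw [Finset.card_sdiff_of_subset (hXs i (i + 1) (by omega)), hXc i (by omega),
      hXc (i + 1) (by omega)]
    have := hmul i hi
    have e : (i + 1) * t = i * t + t := by ring
    omega
  -- the number of orders
  set N := Fintype.card (Equiv.Perm (Fin d)) with hN
  have hN0 : 0 < N := Fintype.card_pos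
  have h1 : ∀ π : Equiv.Perm (Fin d), (w + 1 - k) * 2 ^ d ≤ ∑ j ∈ range w, ∑ i ∈ Ico j w,
      chg c ((X j).map π.toEmbedding) ((X i \ X (i + 1)).map π.toEmbedding) := by
    intro π
    have h2 := chain_all hc w (fun i => (X i).map π.toEmbedding) (by
      intro i hi
      rw [Finset.ssubset_iff_subset_ne]
      refine ⟨Finset.map_subset_map.2 (hXs i (i + 1) (by omega)), ?_⟩
      intro he
      have h3 := congrArg Finset.card he
      simp only [Finset.card_map] at h3
      have h4 := hDc i hi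
      rw [Finset.card_sdiff_of_subset (hXs i (i + 1) (by omega))] at h4
      omega)
    refine le_trans h2 (le_of_eq ?_)
    refine Finset.sum_congr rfl fun j _ => Finset.sum_congr rfl fun i _ => ?_
    congr 1
    ext r
    simp only [Finset.mem_sdiff, Finset.mem_map_equiv]
  have h2 : N * ((w + 1 - k) * 2 ^ d) ≤ ∑ j ∈ range w, ∑ i ∈ Ico j w,
      ∑ π : Equiv.Perm (Fin d),
      chg c ((X j).map π.toEmbedding) ((X i \ X (i + 1)).map π.toEmbedding) := by
    have h3 := Finset.sum_le_sum (fun (π : Equiv.Perm (Fin d))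
      (_ : π ∈ (univ : Finset (Equiv.Perm (Fin d)))) => h1 π)
    rw [Finset.sum_const, Finset.card_univ, smul_eq_mul] at h3
    refine le_trans h3 (le_of_eq ?_)
    rw [Finset.sum_comm]
    refine Finset.sum_congr rfl fun j _ => ?_
    rw [Finset.sum_comm]
  have h3 : ∀ j ∈ range w, ∀ i ∈ Ico j w, ((∑ π : Equiv.Perm (Fin d),
      chg c ((X j).map π.toEmbedding) ((X i \ X (i + 1)).map π.toEmbedding) : ℕ) : ℝ) =
        N * 2 ^ d * noi c (b - j * t) t := by
    intro j hj i hi
    rw [mem_range] at hj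
    rw [mem_Ico] at hi
    have hsub : X i \ X (i + 1) ⊆ X j := Finset.sdiff_subset.trans (hXs j i hi.1)
    have h4 := sum_perm_choose (chg c) hsub
    rw [hDc i hi.2] at h4
    have h4' := sum_perm_univ (fun A => ∑ E ∈ powersetCard t A, chg c A E) (X j)
    rw [← h4, hXc j (by omega)] at h4'
    have e1 := hmul j hj
    have e2 : (j + 1) * t = j * t + t := by ring
    have hC : 0 < (b - j * t).choose t := Nat.choose_pos (by omega)
    have hC' : 0 < d.choose (b - j * t) := Nat.choose_pos (by omega)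
    have hCR : (0 : ℝ) < ((b - j * t).choose t : ℝ) := by exact_mod_cast hC
    have hCR' : (0 : ℝ) < (d.choose (b - j * t) : ℝ) := by exact_mod_cast hC'
    have h5 : (d.choose (b - j * t) : ℝ) * (((b - j * t).choose t : ℝ) *
        ((∑ π : Equiv.Perm (Fin d),
        chg c ((X j).map π.toEmbedding) ((X i \ X (i + 1)).map π.toEmbedding) : ℕ) : ℝ)) =
        N * ∑ A ∈ powersetCard (b - j * t) (univ : Finset (Fin d)),
          ∑ D ∈ powersetCard t A, (chg c A D : ℝ) := by
      exact_mod_cast h4'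
    unfold noi
    rw [mul_div_assoc', eq_div_iff (by positivity)]
    calc _ = 2 ^ d * ((d.choose (b - j * t) : ℝ) * (((b - j * t).choose t : ℝ) *
        ((∑ π : Equiv.Perm (Fin d),
        chg c ((X j).map π.toEmbedding) ((X i \ X (i + 1)).map π.toEmbedding) : ℕ) : ℝ))) := by
          ring
      _ = _ := by rw [h5]; ring
  have h4 : ((∑ j ∈ range w, ∑ i ∈ Ico j w, ∑ π : Equiv.Perm (Fin d),
      chg c ((X j).map π.toEmbedding) ((X i \ X (i + 1)).map π.toEmbedding) : ℕ) : ℝ) =
      (N * 2 ^ d) * ∑ j ∈ range w, ((w : ℝ) - j) * noi c (b - j * t) t := by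
    rw [Nat.cast_sum, Finset.mul_sum]
    refine Finset.sum_congr rfl fun j hj => ?_
    rw [Nat.cast_sum, Finset.sum_congr rfl (h3 j hj), Finset.sum_const, Nat.card_Ico,
      nsmul_eq_mul, Nat.cast_sub (Finset.mem_range.1 hj).le]
    ring
  have h5 : (N : ℝ) * (((w + 1 - k : ℕ) : ℝ) * 2 ^ d) ≤
      (N * 2 ^ d) * ∑ j ∈ range w, ((w : ℝ) - j) * noi c (b - j * t) t := by
    rw [← h4]
    exact_mod_cast h2
  have h6 : ((w + 1 - k : ℕ) : ℝ) ≤ ∑ j ∈ range w, ((w : ℝ) - j) * noi c (b - j * t) t := by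
    have h7 : (0 : ℝ) < N * 2 ^ d := by positivity
    have h8 : (N * 2 ^ d : ℝ) * ((w + 1 - k : ℕ) : ℝ) ≤
        (N * 2 ^ d) * ∑ j ∈ range w, ((w : ℝ) - j) * noi c (b - j * t) t := by
      refine le_trans (le_of_eq ?_) h5
      ring
    exact le_of_mul_le_mul_left h8 h7
  refine le_trans ?_ h6
  rcases Nat.lt_or_ge (w + 1) k with h | h
  · rw [Nat.sub_eq_zero_of_le h.le]
    have : ((w + 1 : ℕ) : ℝ) ≤ k := by exact_mod_cast h.le
    push_cast at this ⊢
    linarith
  · rw [Nat.cast_sub h]
    push_cast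
    linarith

/-- Among the `2 k - 1` sizes `b, b - t, ..., b - (2 k - 2) t` there is one, `a`, for which the
probability is at least `1 / (2 k - 1)`. -/
theorem noise_exists {c : (Fin d → Fin 3) → Fin k} (hc : Good c) (hk : 1 ≤ k) {t b : ℕ}
    (ht : 1 ≤ t) (hd : (2 * k - 1) * t ≤ b) (hb : b ≤ d) :
    ∃ j < 2 * k - 1, 1 / (2 * (k : ℝ) - 1) ≤ noi c (b - j * t) t := by
  by_contra hcon
  push Not at hcon
  have h1 := noise_sum hc ht hd hb
  have hkr : (1 : ℝ) ≤ k := by exact_mod_cast hk
  have e1 : ((2 * k - 1 : ℕ) : ℝ) = 2 * k - 1 := by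
    rw [Nat.cast_sub (by omega)]
    push_cast
    ring
  rw [e1] at h1
  have h2 : ∑ j ∈ range (2 * k - 1), ((2 * (k : ℝ) - 1) - j) * noi c (b - j * t) t <
      ∑ j ∈ range (2 * k - 1), ((2 * (k : ℝ) - 1) - j) * (1 / (2 * (k : ℝ) - 1)) := by
    refine Finset.sum_lt_sum_of_nonempty ⟨0, Finset.mem_range.2 (by omega)⟩ ?_
    intro j hj
    have hj' := Finset.mem_range.1 hj
    have h3 : ((j + 1 : ℕ) : ℝ) ≤ ((2 * k - 1 : ℕ) : ℝ) := by exact_mod_cast hj'
    rw [e1] at h3
    push_cast at h3
    exact mul_lt_mul_of_pos_left (hcon j hj') (by linarith)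
  have h3 : ∑ j ∈ range (2 * k - 1), ((2 * (k : ℝ) - 1) - j) * (1 / (2 * (k : ℝ) - 1)) = k := by
    rw [← Finset.sum_mul]
    have h4 : ∑ j ∈ range (2 * k - 1), ((2 * (k : ℝ) - 1) - j) = (2 * k - 1) * k := by
      have h5 := two_mul_sum (2 * k - 1)
      have h6 : ((2 * ∑ j ∈ range (2 * k - 1), (2 * k - 1 - j) : ℕ) : ℝ) =
          (((2 * k - 1) * (2 * k - 1 + 1) : ℕ) : ℝ) := by exact_mod_cast h5
      have h7 : ((∑ j ∈ range (2 * k - 1), (2 * k - 1 - j) : ℕ) : ℝ) =
          ∑ j ∈ range (2 * k - 1), ((2 * (k : ℝ) - 1) - j) := by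
        rw [Nat.cast_sum]
        refine Finset.sum_congr rfl fun j hj => ?_
        rw [Nat.cast_sub (Finset.mem_range.1 hj).le, e1]
      rw [Nat.cast_mul, h7, Nat.cast_mul, Nat.cast_add, e1] at h6
      push_cast at h6
      linarith
    rw [h4]
    have h5 : (2 * (k : ℝ) - 1) ≠ 0 := by linarith
    field_simp
  rw [h3] at h2
  linarith

/-- The same for the largest sizes, without division. -/
theorem noise' {c : (Fin d → Fin 3) → Fin k} (hc : Good c) (hk : 1 ≤ k) {t : ℕ} (ht : 1 ≤ t)
    (hd : (2 * k - 1) * t ≤ d) : ∃ a ≤ d, d < a + (2 * k - 1) * t ∧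
      2 ^ d * (d.choose a * a.choose t) ≤
        (2 * k - 1) * ∑ A ∈ powersetCard a univ, ∑ D ∈ powersetCard t A, chg c A D := by
  obtain ⟨j, hj, h1⟩ := noise_exists hc hk ht hd le_rfl
  have h2 : (j + 1) * t ≤ (2 * k - 1) * t := Nat.mul_le_mul_right t hj
  have e : (j + 1) * t = j * t + t := by ring
  refine ⟨d - j * t, by omega, by omega, ?_⟩
  have hkr : (1 : ℝ) ≤ k := by exact_mod_cast hk
  have e1 : ((2 * k - 1 : ℕ) : ℝ) = 2 * k - 1 := by
    rw [Nat.cast_sub (by omega)]
    push_cast
    ring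
  have hC : (0 : ℝ) < ((d - j * t).choose t : ℝ) := by
    exact_mod_cast Nat.choose_pos (show t ≤ d - j * t by omega)
  have hC' : (0 : ℝ) < (d.choose (d - j * t) : ℝ) := by
    exact_mod_cast Nat.choose_pos (show d - j * t ≤ d by omega)
  unfold noi at h1
  rw [div_le_div_iff₀ (by linarith) (by positivity)] at h1
  have h3 : ((2 ^ d * (d.choose (d - j * t) * (d - j * t).choose t) : ℕ) : ℝ) ≤
      (((2 * k - 1) * ∑ A ∈ powersetCard (d - j * t) univ, ∑ D ∈ powersetCard t A,
        chg c A D : ℕ) : ℝ) := by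
    rw [Nat.cast_mul (2 * k - 1), e1]
    push_cast
    linarith
  exact_mod_cast h3

/-- The total influence of the signs on the colour, on some support. -/
theorem influence {c : (Fin d → Fin 3) → Fin k} (hc : Good c) (hk : 1 ≤ k)
    (hd : 2 * k - 1 ≤ d) : ∃ A : Finset (Fin d), d < A.card + (2 * k - 1) ∧
      2 ^ d * A.card ≤ (2 * k - 1) * ∑ r ∈ A, chg c A {r} := by
  classical
  obtain ⟨a, h0, h1, h2⟩ := noise' hc hk (le_refl 1) (by omega)
  by_contra hcon
  push Not at hcon
  have h3 : ∀ A ∈ powersetCard a (univ : Finset (Fin d)),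
      (2 * k - 1) * ∑ D ∈ powersetCard 1 A, chg c A D < 2 ^ d * a := by
    intro A hA
    rw [mem_powersetCard] at hA
    have h4 : ∑ D ∈ powersetCard 1 A, chg c A D = ∑ r ∈ A, chg c A {r} := by
      rw [Finset.powersetCard_one, Finset.sum_map]
      rfl
    have h5 := hcon A (by rw [hA.2]; omega)
    rw [h4]
    rwa [hA.2] at h5
  have hne : (powersetCard a (univ : Finset (Fin d))).Nonempty := by
    rw [Finset.powersetCard_nonempty, Finset.card_univ, Fintype.card_fin]
    exact h0
  have h6 := Finset.sum_lt_sum_of_nonempty hne h3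
  rw [← Finset.mul_sum, Finset.sum_const, Finset.card_powersetCard, Finset.card_univ,
    Fintype.card_fin, smul_eq_mul] at h6
  rw [Nat.choose_one_right] at h2
  have h7 : 2 ^ d * (d.choose a * a) = d.choose a * (2 ^ d * a) := by ring
  rw [h7] at h2
  exact absurd (lt_of_le_of_lt h2 h6) (lt_irrefl _)

/-- If the total influence of the signs on the colour is at most `σ` on every support then
`d < (2 k - 1) (σ + 1)`. -/
theorem influence_lower {c : (Fin d → Fin 3) → Fin k} (hc : Good c) (hk : 1 ≤ k) (σ : ℕ)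
    (h : ∀ A : Finset (Fin d), ∑ r ∈ A, chg c A {r} ≤ σ * 2 ^ d) :
    d < (2 * k - 1) * (σ + 1) := by
  classical
  by_contra hcon
  push Not at hcon
  obtain ⟨A, h1, h2⟩ := influence hc hk (by
    refine le_trans ?_ hcon
    exact Nat.le_mul_of_pos_right _ (by omega))
  have h4 : 2 ^ d * A.card ≤ 2 ^ d * ((2 * k - 1) * σ) := by
    calc 2 ^ d * A.card ≤ (2 * k - 1) * ∑ r ∈ A, chg c A {r} := h2
      _ ≤ (2 * k - 1) * (σ * 2 ^ d) := Nat.mul_le_mul_left _ (h A)
      _ = _ := by ring
  have h5 : A.card ≤ (2 * k - 1) * σ := le_of_mul_le_mul_left h4 (by positivity)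
  have e : (2 * k - 1) * (σ + 1) = (2 * k - 1) * σ + (2 * k - 1) := by ring
  omega

/-! ### Unate functions -/

/-- A sign as an integer. -/
def sg (b : Bool) : ℤ := if b then 1 else -1

lemma sg_sq (b : Bool) : sg b * sg b = 1 := by cases b <;> rfl

lemma sg_not (b : Bool) : sg (!b) = - sg b := by cases b <;> rfl

lemma bool_aux : ∀ x y z t : Bool, ((z ^^ t) = false → x ≤ y) → ((z ^^ t) = true → y ≤ x) →
    sg x * (sg (!t) * sg z) + sg y * (sg (!t) * sg (!z)) =
      2 * (if x ≠ y then (1 : ℤ) else 0) := by decide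

lemma sum_flp {M : Type} [AddCommMonoid M] (r : Fin d) (f : (Fin d → Bool) → M) :
    ∑ v, f (flp {r} v) = ∑ v, f v := by
  have e : Function.Involutive (flp ({r} : Finset (Fin d))) := fun v => flp_flp _ v
  exact Equiv.sum_comp (Function.Involutive.toPerm (flp ({r} : Finset (Fin d))) e) f

lemma flp_same (r : Fin d) (v : Fin d → Bool) : flp {r} v r = !(v r) := by simp [flp]

lemma flp_other {r r' : Fin d} (h : r' ≠ r) (v : Fin d → Bool) : flp {r} v r' = v r' := by
  simp [flp, h]

lemma orth {r r' : Fin d} (h : r' ≠ r) (a b : ℤ) :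
    ∑ v : Fin d → Bool, (a * sg (v r)) * (b * sg (v r')) = 0 := by
  have h1 := sum_flp r (fun v : Fin d → Bool => (a * sg (v r)) * (b * sg (v r')))
  simp only [flp_same, flp_other h] at h1
  have h2 : ∑ v : Fin d → Bool, (a * sg (!(v r))) * (b * sg (v r')) =
      - ∑ v : Fin d → Bool, (a * sg (v r)) * (b * sg (v r')) := by
    rw [← Finset.sum_neg_distrib]
    refine Finset.sum_congr rfl fun v _ => ?_
    rw [sg_not]
    ring
  rw [h2] at h1
  omega

/-- The number of sign vectors at which `g` changes with the sign of the coordinate `r`. -/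
def infl (g : (Fin d → Bool) → Bool) (r : Fin d) : ℕ :=
  (univ.filter (fun v : Fin d → Bool => g v ≠ g (flp {r} v))).card

lemma infl_eq {g : (Fin d → Bool) → Bool} {e : Fin d → Bool}
    (hg : ∀ u v : Fin d → Bool, (∀ r, (u r ^^ e r) ≤ (v r ^^ e r)) → g u ≤ g v) (r : Fin d) :
    (infl g r : ℤ) = ∑ v, sg (g v) * (sg (!(e r)) * sg (v r)) := by
  classical
  have h1 := sum_flp r (fun v : Fin d → Bool => sg (g v) * (sg (!(e r)) * sg (v r)))
  have h2 : ∑ v : Fin d → Bool, (sg (g v) * (sg (!(e r)) * sg (v r)) +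
      sg (g (flp {r} v)) * (sg (!(e r)) * sg (flp {r} v r))) =
      ∑ v : Fin d → Bool, 2 * (if g v ≠ g (flp {r} v) then (1 : ℤ) else 0) := by
    refine Finset.sum_congr rfl fun v _ => ?_
    have hle : ∀ r', r' ≠ r → (v r' ^^ e r') = (flp {r} v r' ^^ e r') := by
      intro r' h
      rw [flp_other h]
    have hsr := flp_same r v
    -- compare
    have hup : (v r ^^ e r) = false → g v ≤ g (flp {r} v) := by
      intro h
      apply hg
      intro r'
      by_cases hr : r' = r
      · subst hr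
        rw [h]
        exact Bool.false_le _
      · rw [hle r' hr]
    have hdn : (v r ^^ e r) = true → g (flp {r} v) ≤ g v := by
      intro h
      apply hg
      intro r'
      by_cases hr : r' = r
      · subst hr
        rw [h]
        exact Bool.le_true _
      · rw [hle r' hr]
    rw [hsr]
    exact bool_aux _ _ _ _ hup hdn
  rw [Finset.sum_add_distrib, h1, ← Finset.mul_sum] at h2
  unfold infl
  rw [Finset.card_filter]
  push_cast
  push_cast at h2
  linarith

lemma unate_sq {g : (Fin d → Bool) → Bool} (hg : Unate g) (A : Finset (Fin d)) :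
    (∑ r ∈ A, infl g r) ^ 2 ≤ A.card * (2 ^ d) ^ 2 := by
  classical
  obtain ⟨e, he⟩ := hg
  have h1 : ((∑ r ∈ A, infl g r : ℕ) : ℤ) =
      ∑ v : Fin d → Bool, sg (g v) * ∑ r ∈ A, sg (!(e r)) * sg (v r) := by
    push_cast
    simp only [Finset.mul_sum]
    rw [Finset.sum_comm]
    exact Finset.sum_congr rfl fun r _ => infl_eq he r
  have h2 := Finset.sum_mul_sq_le_sq_mul_sq (univ : Finset (Fin d → Bool))
    (fun v => sg (g v)) (fun v => ∑ r ∈ A, sg (!(e r)) * sg (v r))
  rw [← h1] at h2
  have h3 : ∑ v : Fin d → Bool, sg (g v) ^ 2 = 2 ^ d := by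
    simp only [pow_two, sg_sq]
    simp
  have h4 : ∑ v : Fin d → Bool, (∑ r ∈ A, sg (!(e r)) * sg (v r)) ^ 2 = A.card * 2 ^ d := by
    simp only [pow_two, Finset.sum_mul_sum]
    rw [Finset.sum_comm]
    have h5 : ∀ r ∈ A, ∑ v : Fin d → Bool, ∑ r' ∈ A,
        (sg (!(e r)) * sg (v r)) * (sg (!(e r')) * sg (v r')) = 2 ^ d := by
      intro r hr
      rw [Finset.sum_comm, Finset.sum_eq_single r]
      · have : ∀ v : Fin d → Bool,
            (sg (!(e r)) * sg (v r)) * (sg (!(e r)) * sg (v r)) = 1 := by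
          intro v
          calc _ = (sg (!(e r)) * sg (!(e r))) * (sg (v r) * sg (v r)) := by ring
            _ = 1 := by rw [sg_sq, sg_sq]; rfl
        simp [this]
      · intro r' _ hne
        exact orth hne _ _
      · intro h; exact absurd hr h
    rw [Finset.sum_congr rfl h5]
    simp
  rw [h3, h4] at h2
  have h5 : ((∑ r ∈ A, infl g r : ℕ) : ℤ) ^ 2 ≤ ((A.card * (2 ^ d) ^ 2 : ℕ) : ℤ) := by
    refine h2.trans (le_of_eq ?_)
    push_cast
    ring
  exact_mod_cast h5

/-- If on every support the colour is determined by `m` unate functions of the signs then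
`d < (2 k m) ^ 2`. -/
theorem unate_lower {c : (Fin d → Fin 3) → Fin k} (hc : Good c) (hk : 1 ≤ k) {m : ℕ} (hm : 1 ≤ m)
    (g : Finset (Fin d) → Fin m → (Fin d → Bool) → Bool)
    (F : Finset (Fin d) → (Fin m → Bool) → Fin k) (hg : ∀ A s, Unate (g A s))
    (hF : ∀ A v, c (sgn A v) = F A (fun s => g A s v)) : d < (2 * k * m) ^ 2 := by
  classical
  by_contra hcon
  push Not at hcon
  have hkm : 1 ≤ k * m := Nat.mul_pos hk hm
  have h2k : 2 * k - 1 ≤ d := by
    refine le_trans ?_ hcon
    have h1 : 2 * k ≤ 2 * k * m := Nat.le_mul_of_pos_right _ hm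
    have h2 : 2 * k * m ≤ (2 * k * m) ^ 2 := Nat.le_self_pow (by norm_num) _
    omega
  obtain ⟨A, h1, h2⟩ := influence hc hk h2k
  set K := 2 * k - 1 with hK
  have h3 : ∑ r ∈ A, chg c A {r} ≤ ∑ s : Fin m, ∑ r ∈ A, infl (g A s) r := by
    rw [Finset.sum_comm]
    refine Finset.sum_le_sum fun r _ => ?_
    unfold chg infl
    refine le_trans (Finset.card_le_card (t := univ.biUnion (fun s : Fin m =>
      univ.filter (fun v : Fin d → Bool => g A s v ≠ g A s (flp {r} v)))) ?_)
      Finset.card_biUnion_le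
    intro v hv
    rw [mem_filter] at hv
    rw [mem_biUnion]
    by_contra hno
    push Not at hno
    refine hv.2 ?_
    rw [hF, hF]
    congr 1
    funext s
    by_contra hne
    exact hno s (mem_univ _) (by rw [mem_filter]; exact ⟨mem_univ _, hne⟩)
  have h4 : (∑ s : Fin m, ∑ r ∈ A, infl (g A s) r) ^ 2 ≤ m ^ 2 * (A.card * (2 ^ d) ^ 2) := by
    have h5 := Finset.sum_mul_sq_le_sq_mul_sq (univ : Finset (Fin m)) (fun _ => (1 : ℤ))
      (fun s => ((∑ r ∈ A, infl (g A s) r : ℕ) : ℤ))
    simp only [one_mul, one_pow, Finset.sum_const, Finset.card_univ, Fintype.card_fin,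
      nsmul_eq_mul, mul_one] at h5
    have h6 : ∑ s : Fin m, ((∑ r ∈ A, infl (g A s) r : ℕ) : ℤ) ^ 2 ≤
        m * ((A.card * (2 ^ d) ^ 2 : ℕ) : ℤ) := by
      refine (Finset.sum_le_sum (fun s _ => (by exact_mod_cast unate_sq (hg A s) A :
        ((∑ r ∈ A, infl (g A s) r : ℕ) : ℤ) ^ 2 ≤ ((A.card * (2 ^ d) ^ 2 : ℕ) : ℤ)))).trans ?_
      simp
    have h7 : (∑ s : Fin m, ((∑ r ∈ A, infl (g A s) r : ℕ) : ℤ)) ^ 2 ≤
        m * (m * ((A.card * (2 ^ d) ^ 2 : ℕ) : ℤ)) :=
      h5.trans (mul_le_mul_of_nonneg_left h6 (by positivity))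
    have h8 : ((∑ s : Fin m, ∑ r ∈ A, infl (g A s) r) ^ 2 : ℕ) ≤
        m * (m * (A.card * (2 ^ d) ^ 2)) := by exact_mod_cast h7
    refine h8.trans (le_of_eq ?_)
    ring
  have h5 : (2 ^ d * A.card) ^ 2 ≤ K ^ 2 * (m ^ 2 * (A.card * (2 ^ d) ^ 2)) := by
    calc (2 ^ d * A.card) ^ 2 ≤ (K * ∑ r ∈ A, chg c A {r}) ^ 2 := Nat.pow_le_pow_left h2 2
      _ ≤ (K * ∑ s : Fin m, ∑ r ∈ A, infl (g A s) r) ^ 2 :=
          Nat.pow_le_pow_left (Nat.mul_le_mul_left _ h3) 2
      _ = K ^ 2 * (∑ s : Fin m, ∑ r ∈ A, infl (g A s) r) ^ 2 := by ring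
      _ ≤ _ := Nat.mul_le_mul_left _ h4
  have h6 : A.card ≤ K ^ 2 * m ^ 2 := by
    rcases Nat.eq_zero_or_pos A.card with h | h
    · rw [h]; exact Nat.zero_le _
    · have h7 : ((2 ^ d) ^ 2 * A.card) * A.card ≤ ((2 ^ d) ^ 2 * A.card) * (K ^ 2 * m ^ 2) := by
        calc _ = (2 ^ d * A.card) ^ 2 := by ring
          _ ≤ _ := h5
          _ = _ := by ring
      exact le_of_mul_le_mul_left h7 (by positivity)
  have h7 : K ^ 2 * m ^ 2 + K ≤ (2 * k * m) ^ 2 := by
    have e1 : 2 * k = K + 1 := by omega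
    rw [e1]
    have e2 : ((K + 1) * m) ^ 2 = K ^ 2 * m ^ 2 + (2 * K + 1) * m ^ 2 := by ring
    rw [e2]
    have e3 : 2 * K + 1 ≤ (2 * K + 1) * m ^ 2 := Nat.le_mul_of_pos_right _ (by positivity)
    omega
  omega

end Pool.Agent.Lib.Pfd3312.Low
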