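import Mathlib
import Pool.Agent.Lib.P18dd.SwB
import Pool.Agent.Lib.Pfd3312.LowNoise

set_option autoImplicit false

/-!
The total influence of the signs on functions computed by circuits of constant depth (after Linial,
Mansour, Nisan and Boppana), and colourings of `{1,2,3}^d` computed by such circuits.
-/

namespace Pool.Agent.Lib.Pfd3312.Low

open Finset P28cd

variable {d k : ℕ}

/-- The function `g` with the signs shifted by `e`. -/
def shf (e : Fin d → Bool) (g : (Fin d → Bool) → Bool) : (Fin d → Bool) → Bool :=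
  fun z => g (fun i => z i ^^ e i)

/-- The functions which have at every point a certificate of size at most `t`. -/
def Both (d t : ℕ) : Set ((Fin d → Bool) → Bool) := {g | P18dd.Cert t true g ∧ P18dd.Cert t false g}

lemma cert_res {t : ℕ} {b : Bool} {g : (Fin d → Bool) → Bool} (h : P18dd.Cert t b g)
    (τ : P18dd.Res (Fin d)) : P18dd.Cert t b (P18dd.res τ g) := by
  intro z hz
  obtain ⟨D, hD, hD'⟩ := h _ hz
  refine ⟨D, hD, fun z' hz' => hD' _ ?_⟩
  intro i hi
  simp only [P18dd.ov]
  rw [hz' i hi]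

lemma cert_shf {t : ℕ} {b : Bool} {g : (Fin d → Bool) → Bool} (h : P18dd.Cert t b g)
    (e : Fin d → Bool) : P18dd.Cert t b (shf e g) := by
  intro z hz
  obtain ⟨D, hD, hD'⟩ := h _ hz
  refine ⟨D, hD, fun z' hz' => hD' _ ?_⟩
  intro i hi
  show (z' i ^^ e i) = (z i ^^ e i)
  rw [hz' i hi]

lemma cert_mono {t t' : ℕ} (ht : t ≤ t') {b : Bool} {g : (Fin d → Bool) → Bool}
    (h : P18dd.Cert t b g) : P18dd.Cert t' b g := by
  intro z hz
  obtain ⟨D, hD, hD'⟩ := h z hz
  exact ⟨D, hD.trans ht, hD'⟩

lemma cert_not {t : ℕ} {b : Bool} {g : (Fin d → Bool) → Bool} (h : P18dd.Cert t b g) :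
    P18dd.Cert t (!b) (fun z => !g z) := by
  intro z hz
  obtain ⟨D, hD, hD'⟩ := h z (by simpa using hz)
  refine ⟨D, hD, fun z' hz' => ?_⟩
  show (!g z') = !b
  rw [hD' z' hz']

lemma both_not {t : ℕ} {g : (Fin d → Bool) → Bool} (h : g ∈ Both d t) :
    (fun z => !g z) ∈ Both d t := ⟨cert_not h.2, cert_not h.1⟩

/-! ### Influences -/

lemma infl_le (g : (Fin d → Bool) → Bool) (r : Fin d) : infl g r ≤ 2 ^ d := by
  unfold infl
  refine (Finset.card_le_univ _).trans ?_
  simp

/-- One-sided certificates bound the total influence. -/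
lemma infl_cert {t : ℕ} {b : Bool} {g : (Fin d → Bool) → Bool} (h : P18dd.Cert t b g) :
    ∑ r, infl g r ≤ 2 * t * 2 ^ d := by
  classical
  have h1 : ∀ r, infl g r = 2 * ∑ v : Fin d → Bool,
      (if g v = b ∧ g (flp {r} v) ≠ b then 1 else 0) := by
    intro r
    have e1 := sum_flp r (fun v : Fin d → Bool => if g v = b ∧ g (flp {r} v) ≠ b then 1 else 0)
    simp only [flp_flp] at e1
    unfold infl
    rw [Finset.card_filter, two_mul]
    nth_rewrite 1 [← e1]
    rw [← Finset.sum_add_distrib]
    refine Finset.sum_congr rfl fun v _ => ?_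
    cases hb : b <;> cases hx : g v <;> cases hy : g (flp {r} v) <;> simp
  simp only [h1]
  rw [← Finset.mul_sum, Finset.sum_comm, mul_assoc]
  refine Nat.mul_le_mul_left 2 ?_
  have h2 : ∀ v ∈ (univ : Finset (Fin d → Bool)),
      ∑ r, (if g v = b ∧ g (flp {r} v) ≠ b then 1 else 0) ≤ t := by
    intro v _
    by_cases hv : g v = b
    · obtain ⟨D, hD, hD'⟩ := h v hv
      refine le_trans ?_ hD
      rw [← Finset.card_filter]
      refine Finset.card_le_card ?_
      intro r hr
      rw [mem_filter] at hr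
      by_contra hrD
      refine hr.2.2 (hD' _ ?_)
      intro i hi
      have : i ≠ r := fun h => hrD (h ▸ hi)
      exact flp_other this v
    · simp [hv]
  refine (Finset.sum_le_sum h2).trans (le_of_eq ?_)
  simp [mul_comm]

lemma sum_xor {M : Type} [AddCommMonoid M] (y : Fin d → Bool) (f : (Fin d → Bool) → M) :
    ∑ e : Fin d → Bool, f (fun i => y i ^^ e i) = ∑ e, f e := by
  have h : Function.Involutive (fun e : Fin d → Bool => fun i => y i ^^ e i) := by
    intro e
    funext i
    simp
  exact Equiv.sum_comp (Function.Involutive.toPerm _ h) f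

/-- Averaging over the shifts: the influence of `r` survives if `r` is a star. -/
lemma sum_shf (f : (Fin d → Bool) → Bool) (τ : P18dd.Res (Fin d)) (r : Fin d) :
    ∑ e : Fin d → Bool, infl (P18dd.res τ (shf e f)) r =
      if τ r = none then 2 ^ d * infl f r else 0 := by
  classical
  by_cases hr : τ r = none
  · rw [if_pos hr]
    have h1 : ∀ e z : Fin d → Bool, P18dd.res τ (shf e f) (flp {r} z) =
        f (flp {r} (fun i => P18dd.ov τ z i ^^ e i)) := by
      intro e z
      simp only [P18dd.res, shf]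
      congr 1
      funext i
      by_cases hi : i = r
      · subst hi
        rw [flp_same]
        simp only [P18dd.ov, hr, Option.getD_none, flp_same]
        cases z i <;> cases e i <;> rfl
      · rw [flp_other hi]
        simp only [P18dd.ov]
        rw [flp_other hi]
    have h2 : ∀ e : Fin d → Bool, infl (P18dd.res τ (shf e f)) r =
        ∑ z : Fin d → Bool, (fun u : Fin d → Bool => if f u ≠ f (flp {r} u) then 1 else 0)
          (fun i => P18dd.ov τ z i ^^ e i) := by
      intro e
      unfold infl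
      rw [Finset.card_filter]
      refine Finset.sum_congr rfl fun z _ => ?_
      rw [h1]
      rfl
    simp only [h2]
    rw [Finset.sum_comm]
    simp only [sum_xor (f := fun u : Fin d → Bool => if f u ≠ f (flp {r} u) then 1 else 0)]
    unfold infl
    rw [Finset.card_filter]
    simp
  · rw [if_neg hr]
    refine Finset.sum_eq_zero fun e _ => ?_
    unfold infl
    rw [Finset.card_eq_zero, Finset.filter_eq_empty_iff]
    intro z _
    rw [not_not]
    simp only [P18dd.res]
    congr 1
    funext i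
    simp only [P18dd.ov]
    by_cases hi : i = r
    · subst hi
      obtain ⟨b, hb⟩ := Option.ne_none_iff_exists'.1 hr
      simp [hb]
    · rw [flp_other hi]

lemma ex_star (p β : ℝ) (r : Fin d) :
    P18dd.ex (P18dd.w3 p β) (fun τ : P18dd.Res (Fin d) => P18dd.ind (τ r = none)) = β := by
  classical
  have h1 : (fun τ : P18dd.Res (Fin d) => P18dd.ind (τ r = none)) =
      fun τ : P18dd.Res (Fin d) => ∏ i, (fun (i : Fin d) (a : Option Bool) =>
        if i = r then P18dd.ind (a = none) else (1 : ℝ)) i (τ i) := by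
    funext τ
    simp only
    rw [Finset.prod_ite_eq' univ r (fun i => P18dd.ind (τ i = none))]
    simp
  rw [h1]
  refine (P18dd.ex_prod (I := Fin d) (P18dd.w3 p β) (fun (i : Fin d) (a : Option Bool) =>
    if i = r then P18dd.ind (a = none) else (1 : ℝ))).trans ?_
  have h2 : ∀ i, ∑ a, P18dd.w3 p β a * (if i = r then P18dd.ind (a = none) else (1 : ℝ)) =
      if i = r then β else 1 := by
    intro i
    by_cases hi : i = r
    · simp only [hi, if_true]
      rw [Fintype.sum_option, Fintype.sum_bool]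
      simp [P18dd.ind, P18dd.w3]
    · simp only [hi, if_false, mul_one]
      exact P18dd.w3_sum p β
  simp only [h2]
  rw [Finset.prod_ite_eq' univ r (fun _ => β)]
  simp

/-- The total influence is recovered from the restricted functions. -/
lemma influence_res (f : (Fin d → Bool) → Bool) (p β : ℝ) :
    ∑ e : Fin d → Bool, P18dd.ex (P18dd.w3 p β) (fun τ : P18dd.Res (Fin d) =>
      ((∑ r, infl (P18dd.res τ (shf e f)) r : ℕ) : ℝ)) =
      2 ^ d * β * ((∑ r, infl f r : ℕ) : ℝ) := by
  classical
  rw [← P18dd.ex_sum]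
  have h1 : ∀ τ : P18dd.Res (Fin d),
      ∑ e : Fin d → Bool, ((∑ r, infl (P18dd.res τ (shf e f)) r : ℕ) : ℝ) =
      ∑ r, (2 ^ d * (infl f r : ℝ)) * P18dd.ind (τ r = none) := by
    intro τ
    rw [← Nat.cast_sum, Finset.sum_comm, Nat.cast_sum]
    refine Finset.sum_congr rfl fun r _ => ?_
    rw [sum_shf]
    by_cases hr : τ r = none
    · rw [if_pos hr, P18dd.ind_of hr]
      push_cast
      ring
    · rw [if_neg hr, P18dd.ind_of_not hr]
      simp
  simp only [h1]
  rw [P18dd.ex_sum]
  have h2 : ∀ r, P18dd.ex (P18dd.w3 p β) (fun τ : P18dd.Res (Fin d) =>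
      (2 ^ d * (infl f r : ℝ)) * P18dd.ind (τ r = none)) = (2 ^ d * (infl f r : ℝ)) * β := by
    intro r
    rw [P18dd.ex_mul, ex_star]
  simp only [h2]
  push_cast
  rw [Finset.mul_sum]
  refine Finset.sum_congr rfl fun r _ => ?_
  ring

/-! ### Circuits -/

/-- A family of gates over the functions `P`. -/
def IsFam (P : Set ((Fin d → Bool) → Bool)) {S : ℕ} (h : ℕ) (level : Fin S → ℕ)
    (val : Fin S → (Fin d → Bool) → Bool) : Prop :=
  (∀ g, level g < h) ∧ ∀ g, ∃ T ⊆ Avail P level val (level g), IsGate T (val g)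

lemma isGate_image {T : Set ((Fin d → Bool) → Bool)} {f : (Fin d → Bool) → Bool}
    (φ : (Fin d → Bool) → Fin d → Bool) (h : IsGate T f) :
    IsGate ((fun g => fun z => g (φ z)) '' T) (fun z => f (φ z)) := by
  rcases h with h | h
  · left
    intro z
    rw [h]
    constructor
    · rintro h1 _ ⟨g, hg, rfl⟩
      exact h1 g hg
    · intro h1 g hg
      exact h1 _ ⟨g, hg, rfl⟩
  · right
    intro z
    rw [h]
    constructor
    · rintro ⟨g, hg, h1⟩
      exact ⟨_, ⟨g, hg, rfl⟩, h1⟩
    · rintro ⟨_, ⟨g, hg, rfl⟩, h1⟩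
      exact ⟨g, hg, h1⟩

/-- A gate over functions with small certificates has small certificates on one side. -/
lemma gate_cert {t : ℕ} {T : Set ((Fin d → Bool) → Bool)} (hT : T ⊆ Both d t)
    {f : (Fin d → Bool) → Bool} (h : IsGate T f) :
    P18dd.Cert t true f ∨ P18dd.Cert t false f := by
  rcases h with h | h
  · right
    intro z hz
    have h1 : ¬ ∀ g ∈ T, g z = true := fun h2 => by
      have := (h z).2 h2
      rw [hz] at this
      exact Bool.noConfusion this
    push Not at h1
    obtain ⟨g, hg, hgz⟩ := h1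
    obtain ⟨D, hD, hD'⟩ := (hT hg).2 z (by simpa using hgz)
    refine ⟨D, hD, fun z' hz' => ?_⟩
    by_contra h3
    have h4 : f z' = true := by simpa using h3
    have := (h z').1 h4 g hg
    rw [hD' z' hz'] at this
    exact Bool.noConfusion this
  · left
    intro z hz
    obtain ⟨g, hg, hgz⟩ := (h z).1 hz
    obtain ⟨D, hD, hD'⟩ := (hT hg).1 z hgz
    exact ⟨D, hD, fun z' hz' => (h z').2 ⟨g, hg, hD' z' hz'⟩⟩

/-- The switching lemma for one gate. -/
lemma gate_switch {w s : ℕ} (hw : 1 ≤ w) (hws : w ≤ s) {T : Set ((Fin d → Bool) → Bool)}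
    (hT : T ⊆ Both d w) {f : (Fin d → Bool) → Bool} (h : IsGate T f) :
    P18dd.pr (P18dd.w3 (1 / 2) (1 / (32 * w))) (fun τ : P18dd.Res (Fin d) =>
      P18dd.res τ f ∉ Both d s) ≤ (1 / 2 : ℝ) ^ (s + 1) := by
  classical
  have hw0 : (0 : ℝ) < w := by exact_mod_cast hw
  have hw1 : (1 : ℝ) ≤ w := by exact_mod_cast hw
  have hβ0 : (0 : ℝ) < 1 / (32 * w) := by positivity
  have hβ : 16 * (w : ℝ) * (1 / (32 * w)) = 1 / 2 := by field_simp; norm_num
  have hβ1 : (1 : ℝ) / (32 * w) ≤ 1 / 32 := by
    apply one_div_le_one_div_of_le (by norm_num)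
    linarith
  have hnn : ∀ a, 0 ≤ P18dd.w3 (1 / 2) (1 / (32 * (w : ℝ))) a := fun a =>
    P18dd.w3_nonneg (by norm_num) hβ0.le (by linarith) a
  rcases h with h | h
  · -- AND
    have h1 := P18dd.switching w hw (1 / (32 * (w : ℝ))) hβ0 (by rw [hβ]; norm_num)
      ((fun g => fun z => !g z) '' T) (by
        rintro _ ⟨g, hg, rfl⟩
        exact cert_not (hT hg).2) (fun z => !f z) (by
        intro z
        rw [Bool.not_eq_true']
        constructor
        · intro h2
          have h3 : ¬ ∀ g ∈ T, g z = true := fun h4 => by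
            have := (h z).2 h4
            rw [h2] at this
            exact Bool.noConfusion this
          push Not at h3
          obtain ⟨g, hg, hgz⟩ := h3
          refine ⟨_, ⟨g, hg, rfl⟩, ?_⟩
          simpa using hgz
        · rintro ⟨_, ⟨g, hg, rfl⟩, h2⟩
          by_contra h3
          have h4 : f z = true := by simpa using h3
          have := (h z).1 h4 g hg
          simp [this] at h2) s
    rw [hβ] at h1
    refine le_trans (P18dd.pr_mono hnn ?_) h1
    intro τ hτ hc
    apply hτ
    refine ⟨?_, ?_⟩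
    · have h5 := cert_not hc
      have h6 : (fun z => !(P18dd.res τ (fun z => !f z)) z) = P18dd.res τ f := by
        funext z
        simp [P18dd.res]
      rw [h6] at h5
      exact h5
    · have h2 : P18dd.Cert w false f := by
        rcases gate_cert hT (Or.inl h) with h3 | h3
        · -- use the direct argument
          intro z hz
          have h1 : ¬ ∀ g ∈ T, g z = true := fun h2 => by
            have := (h z).2 h2
            rw [hz] at this
            exact Bool.noConfusion this
          push Not at h1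
          obtain ⟨g, hg, hgz⟩ := h1
          obtain ⟨D, hD, hD'⟩ := (hT hg).2 z (by simpa using hgz)
          refine ⟨D, hD, fun z' hz' => ?_⟩
          by_contra h3
          have h4 : f z' = true := by simpa using h3
          have := (h z').1 h4 g hg
          rw [hD' z' hz'] at this
          exact Bool.noConfusion this
        · exact h3
      exact cert_res (cert_mono hws h2) τ
  · -- OR
    have h1 := P18dd.switching w hw (1 / (32 * (w : ℝ))) hβ0 (by rw [hβ]; norm_num) T
      (fun g hg => (hT hg).1) f h s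
    rw [hβ] at h1
    refine le_trans (P18dd.pr_mono hnn ?_) h1
    intro τ hτ hc
    apply hτ
    refine ⟨?_, hc⟩
    have h2 : P18dd.Cert w true f := by
      intro z hz
      obtain ⟨g, hg, hgz⟩ := (h z).1 hz
      obtain ⟨D, hD, hD'⟩ := (hT hg).1 z hgz
      exact ⟨D, hD, fun z' hz' => (h z').2 ⟨g, hg, hD' z' hz'⟩⟩
    exact cert_res (cert_mono hws h2) τ

/-- After a restriction which makes the gates of level `0` simple the family has one level less. -/
lemma fam_res {w s h S : ℕ} (hws : w ≤ s) (hh : 1 ≤ h) {level : Fin S → ℕ}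
    {val : Fin S → (Fin d → Bool) → Bool} (hF : IsFam (Both d w) (h + 1) level val)
    (e : Fin d → Bool) (τ : P18dd.Res (Fin d))
    (hτ : ∀ g, level g = 0 → P18dd.res τ (shf e (val g)) ∈ Both d s) :
    IsFam (Both d s) h (fun g => level g - 1) (fun g => P18dd.res τ (shf e (val g))) := by
  refine ⟨fun g => ?_, ?_⟩
  · have := hF.1 g
    show level g - 1 < h
    omega
  intro g
  by_cases hg : level g = 0
  · refine ⟨{P18dd.res τ (shf e (val g))}, ?_, ?_⟩
    · intro f hf
      rw [Set.mem_singleton_iff] at hf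
      subst hf
      exact Or.inl (hτ g hg)
    · left
      intro z
      simp
  · obtain ⟨T, hT, hTg⟩ := hF.2 g
    refine ⟨(fun f => fun z => f (fun i => P18dd.ov τ z i ^^ e i)) '' T, ?_,
      isGate_image (fun z => fun i => P18dd.ov τ z i ^^ e i) hTg⟩
    rintro _ ⟨f, hf, rfl⟩
    rcases hT hf with h1 | ⟨g', hg', h1 | h1⟩
    · left
      exact ⟨cert_res (cert_shf (cert_mono hws h1.1) e) τ,
        cert_res (cert_shf (cert_mono hws h1.2) e) τ⟩
    · by_cases hg0 : level g' = 0
      · left
        have := hτ g' hg0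
        subst h1
        exact this
      · right
        refine ⟨g', ?_, Or.inl ?_⟩
        · show level g' - 1 < level g - 1
          omega
        · subst h1
          rfl
    · by_cases hg0 : level g' = 0
      · left
        have := both_not (hτ g' hg0)
        subst h1
        exact this
      · right
        refine ⟨g', ?_, Or.inr ?_⟩
        · show level g' - 1 < level g - 1
          omega
        · subst h1
          rfl

/-- The total influence of all families with `S` gates and `h` levels over functions with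
certificates of size `w` is at most `X`. -/
def Bd (d S h w : ℕ) (X : ℝ) : Prop :=
  ∀ (level : Fin S → ℕ) (val : Fin S → (Fin d → Bool) → Bool), IsFam (Both d w) h level val →
    ∀ g, ((∑ r, infl (val g) r : ℕ) : ℝ) ≤ X * 2 ^ d

lemma bd_mono {S h w : ℕ} {X Y : ℝ} (hXY : X ≤ Y) (hb : Bd d S h w X) : Bd d S h w Y := by
  intro level val hF g
  exact (hb level val hF g).trans (mul_le_mul_of_nonneg_right hXY (by positivity))

lemma bd_one (d S w : ℕ) : Bd d S 1 w (2 * w) := by
  intro level val hF g
  obtain ⟨T, hT, hg⟩ := hF.2 g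
  have hl : level g = 0 := by have := hF.1 g; omega
  have hT' : T ⊆ Both d w := by
    intro f hf
    rcases hT hf with h1 | ⟨g', hg', _⟩
    · exact h1
    · rw [hl] at hg'
      omega
  rcases gate_cert hT' hg with h | h
  · exact_mod_cast infl_cert h
  · exact_mod_cast infl_cert h

lemma bd_step {S h w s : ℕ} (hw : 1 ≤ w) (hws : w ≤ s) (hh : 1 ≤ h) (hS : S * d ≤ 2 ^ s) {X : ℝ}
    (hX : 0 ≤ X) (hb : Bd d S h s X) : Bd d S (h + 1) w (32 * w * (X + 1 / 2)) := by
  classical
  intro level val hF g
  have hw0 : (0 : ℝ) < w := by exact_mod_cast hw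
  have hw1 : (1 : ℝ) ≤ w := by exact_mod_cast hw
  set β : ℝ := 1 / (32 * w) with hβ
  have hβ0 : (0 : ℝ) < β := by positivity
  have hβ1 : β ≤ 1 / 32 := by
    rw [hβ]
    apply one_div_le_one_div_of_le (by norm_num)
    linarith
  have hnn : ∀ a, 0 ≤ P18dd.w3 (1 / 2) β a := fun a =>
    P18dd.w3_nonneg (by norm_num) hβ0.le (by linarith) a
  have hS' : (S : ℝ) * d ≤ 2 ^ s := by exact_mod_cast hS
  have key : ∀ e : Fin d → Bool, P18dd.ex (P18dd.w3 (1 / 2) β) (fun τ : P18dd.Res (Fin d) =>
      ((∑ r, infl (P18dd.res τ (shf e (val g))) r : ℕ) : ℝ)) ≤ (X + 1 / 2) * 2 ^ d := by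
    intro e
    set bad : P18dd.Res (Fin d) → Prop := fun τ => ∃ g' ∈ (univ : Finset (Fin S)),
      level g' = 0 ∧ P18dd.res τ (shf e (val g')) ∉ Both d s with hbad
    have h1 : P18dd.pr (P18dd.w3 (1 / 2) β) bad ≤ S * (1 / 2 : ℝ) ^ (s + 1) := by
      refine (P18dd.pr_exists_le univ hnn _).trans ?_
      have h2 : ∀ g' ∈ (univ : Finset (Fin S)), P18dd.pr (P18dd.w3 (1 / 2) β)
          (fun τ : P18dd.Res (Fin d) => level g' = 0 ∧ P18dd.res τ (shf e (val g')) ∉ Both d s) ≤
          (1 / 2 : ℝ) ^ (s + 1) := by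
        intro g' _
        by_cases hg0 : level g' = 0
        · obtain ⟨T, hT, hTg⟩ := hF.2 g'
          have hT' : T ⊆ Both d w := by
            intro f hf
            rcases hT hf with h1 | ⟨g'', hg'', _⟩
            · exact h1
            · rw [hg0] at hg''
              omega
          have h3 := gate_switch (d := d) hw hws
            (T := (fun f => fun z => f (fun i => z i ^^ e i)) '' T) (by
              rintro _ ⟨f, hf, rfl⟩
              exact ⟨cert_shf (hT' hf).1 e, cert_shf (hT' hf).2 e⟩)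
            (isGate_image (fun z => fun i => z i ^^ e i) hTg)
          refine le_trans (P18dd.pr_mono hnn ?_) h3
          intro τ hτ
          exact hτ.2
        · have : P18dd.pr (P18dd.w3 (1 / 2) β) (fun τ : P18dd.Res (Fin d) =>
              level g' = 0 ∧ P18dd.res τ (shf e (val g')) ∉ Both d s) ≤ 0 := by
            unfold P18dd.pr
            have h4 : (fun τ : P18dd.Res (Fin d) => P18dd.ind
                (level g' = 0 ∧ P18dd.res τ (shf e (val g')) ∉ Both d s)) =
                fun _ => (0 : ℝ) * 1 := by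
              funext τ
              rw [P18dd.ind_of_not (fun h => hg0 h.1)]
              ring
            rw [h4, P18dd.ex_mul]
            simp
          exact this.trans (by positivity)
      refine (Finset.sum_le_sum h2).trans (le_of_eq ?_)
      simp
    have h2 : ∀ τ : P18dd.Res (Fin d),
        ((∑ r, infl (P18dd.res τ (shf e (val g))) r : ℕ) : ℝ) ≤
        (X * 2 ^ d) * 1 + (d * 2 ^ d) * P18dd.ind (bad τ) := by
      intro τ
      by_cases hτ : bad τ
      · rw [P18dd.ind_of hτ]
        have h3 : ∑ r, infl (P18dd.res τ (shf e (val g))) r ≤ d * 2 ^ d := by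
          refine (Finset.sum_le_sum fun r _ => infl_le _ r).trans (le_of_eq ?_)
          simp
        have h4 : ((∑ r, infl (P18dd.res τ (shf e (val g))) r : ℕ) : ℝ) ≤ d * 2 ^ d := by
          exact_mod_cast h3
        have h5 : 0 ≤ X * 2 ^ d := by positivity
        linarith
      · rw [P18dd.ind_of_not hτ, mul_zero, add_zero, mul_one]
        refine hb _ _ (fam_res hws hh hF e τ ?_) g
        intro g' hg'
        by_contra h3
        exact hτ ⟨g', mem_univ _, hg', h3⟩
    refine (P18dd.ex_mono hnn h2).trans ?_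
    rw [P18dd.ex_add, P18dd.ex_mul, P18dd.ex_mul, P18dd.ex_one (P18dd.w3_sum _ _)]
    have h3 : (d * 2 ^ d : ℝ) * P18dd.ex (P18dd.w3 (1 / 2) β) (fun τ => P18dd.ind (bad τ)) ≤
        (d * 2 ^ d : ℝ) * (S * (1 / 2 : ℝ) ^ (s + 1)) :=
      mul_le_mul_of_nonneg_left h1 (by positivity)
    have h4 : (d * 2 ^ d : ℝ) * (S * (1 / 2 : ℝ) ^ (s + 1)) ≤ 1 / 2 * 2 ^ d := by
      have h5 : (S : ℝ) * d * (1 / 2 : ℝ) ^ (s + 1) ≤ 1 / 2 := by
        calc (S : ℝ) * d * (1 / 2 : ℝ) ^ (s + 1) ≤ 2 ^ s * (1 / 2 : ℝ) ^ (s + 1) :=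
              mul_le_mul_of_nonneg_right hS' (by positivity)
          _ = 1 / 2 := by
              rw [pow_succ, ← mul_assoc, ← mul_pow]
              norm_num
      have h6 : (d * 2 ^ d : ℝ) * (S * (1 / 2 : ℝ) ^ (s + 1)) =
          ((S : ℝ) * d * (1 / 2 : ℝ) ^ (s + 1)) * 2 ^ d := by ring
      rw [h6]
      exact mul_le_mul_of_nonneg_right h5 (by positivity)
    linarith
  have h1 := influence_res (val g) (1 / 2) β
  have h2 : 2 ^ d * β * ((∑ r, infl (val g) r : ℕ) : ℝ) ≤ 2 ^ d * ((X + 1 / 2) * 2 ^ d) := by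
    rw [← h1]
    refine (Finset.sum_le_sum fun e _ => key e).trans (le_of_eq ?_)
    simp
  have h3 : β * ((∑ r, infl (val g) r : ℕ) : ℝ) ≤ (X + 1 / 2) * 2 ^ d := by
    have h4 : (0 : ℝ) < 2 ^ d := by positivity
    have h5 : 2 ^ d * (β * ((∑ r, infl (val g) r : ℕ) : ℝ)) ≤ 2 ^ d * ((X + 1 / 2) * 2 ^ d) := by
      rw [← mul_assoc]; exact h2
    exact le_of_mul_le_mul_left h5 h4
  have h4 : (32 * (w : ℝ)) * (β * ((∑ r, infl (val g) r : ℕ) : ℝ)) =
      ((∑ r, infl (val g) r : ℕ) : ℝ) := by
    rw [hβ]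
    field_simp
  rw [← h4]
  calc (32 * (w : ℝ)) * (β * ((∑ r, infl (val g) r : ℕ) : ℝ)) ≤
        (32 * (w : ℝ)) * ((X + 1 / 2) * 2 ^ d) := mul_le_mul_of_nonneg_left h3 (by positivity)
    _ = _ := by ring

lemma bd_all {S s : ℕ} (hs : 1 ≤ s) (hS : S * d ≤ 2 ^ s) (n : ℕ) :
    Bd d S (n + 1) s (3 * s * (32 * s) ^ n - 1) := by
  have hs1 : (1 : ℝ) ≤ s := by exact_mod_cast hs
  induction n with
  | zero =>
    refine bd_mono ?_ (bd_one d S s)
    simp only [pow_zero, mul_one]
    linarith
  | succ n ih =>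
    have h0 : (1 : ℝ) ≤ (32 * s) ^ n := one_le_pow₀ (by linarith)
    have h1 := bd_step hs le_rfl (by omega) hS (by nlinarith) ih
    refine bd_mono ?_ h1
    rw [pow_succ]
    nlinarith

lemma lit_both (d : ℕ) : Lit d ⊆ Both d 1 := by
  rintro f ⟨i, rfl | rfl⟩
  · refine ⟨fun z hz => ⟨{i}, by simp, fun z' hz' => ?_⟩,
      fun z hz => ⟨{i}, by simp, fun z' hz' => ?_⟩⟩ <;>
    · have := hz' i (by simp)
      simp_all
  · refine ⟨fun z hz => ⟨{i}, by simp, fun z' hz' => ?_⟩,
      fun z hz => ⟨{i}, by simp, fun z' hz' => ?_⟩⟩ <;>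
    · have := hz' i (by simp)
      simp_all

/-- The total influence of a circuit of depth `h` with `S` gates is at most `3 (32 s) ^ (h - 1)`,
`2 ^ s ≥ S d`. -/
theorem circ_influence {S s h : ℕ} (hs : 1 ≤ s) (hS : S * d ≤ 2 ^ s) (hh : 1 ≤ h)
    {f : (Fin d → Bool) → Bool} (hf : Circ (Lit d) h S f) :
    ∑ r, infl f r ≤ 3 * (32 * s) ^ (h - 1) * 2 ^ d := by
  have hs1 : (1 : ℝ) ≤ s := by exact_mod_cast hs
  obtain ⟨level, val, out, h1, h2, rfl⟩ := hf
  have hF : IsFam (Both d 1) h level val := by
    refine ⟨h1, fun g => ?_⟩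
    obtain ⟨T, hT, hg⟩ := h2 g
    refine ⟨T, ?_, hg⟩
    intro f hf
    rcases hT hf with h3 | h3
    · exact Or.inl (lit_both d h3)
    · exact Or.inr h3
  have hb : Bd d S h 1 (3 * (32 * s) ^ (h - 1)) := by
    rcases Nat.lt_or_ge h 2 with hh1 | hh2
    · have : h = 1 := by omega
      subst this
      refine bd_mono ?_ (bd_one d S 1)
      norm_num
    · obtain ⟨n, rfl⟩ : ∃ n, h = n + 1 + 1 := ⟨h - 2, by omega⟩
      have h0 : (1 : ℝ) ≤ (32 * s) ^ n := one_le_pow₀ (by linarith)
      have h3 := bd_step (w := 1) le_rfl hs (by omega) hS (by nlinarith) (bd_all hs hS n)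
      refine bd_mono ?_ h3
      simp only [Nat.cast_one, mul_one, Nat.add_sub_cancel]
      rw [pow_succ]
      nlinarith
  have := hb level val hF out
  exact_mod_cast this

/-- Colourings which on every support are determined by `m` functions computed by circuits of depth
`h` with `S` gates. -/
theorem circ_lower {c : (Fin d → Fin 3) → Fin k} (hc : Good c) (hk : 1 ≤ k) {m h S s : ℕ}
    (hm : 1 ≤ m) (hh : 1 ≤ h) (hs : 1 ≤ s) (hS : S * d ≤ 2 ^ s)
    (g : Finset (Fin d) → Fin m → (Fin d → Bool) → Bool)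
    (F : Finset (Fin d) → (Fin m → Bool) → Fin k) (hg : ∀ A i, Circ (Lit d) h S (g A i))
    (hF : ∀ A v, c (sgn A v) = F A (fun i => g A i v)) :
    d < 8 * k * m * (32 * s) ^ (h - 1) := by
  classical
  set M := m * (32 * s) ^ (h - 1) with hM
  have hM1 : 1 ≤ M := Nat.mul_pos hm (Nat.pow_pos (by omega))
  have h1 := influence_lower hc hk (3 * M) (by
    intro A
    have h3 : ∑ r ∈ A, chg c A {r} ≤ ∑ i : Fin m, ∑ r ∈ A, infl (g A i) r := by
      rw [Finset.sum_comm]
      refine Finset.sum_le_sum fun r _ => ?_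
      unfold chg infl
      refine le_trans (Finset.card_le_card (t := univ.biUnion (fun s : Fin m =>
        univ.filter (fun v : Fin d → Bool => g A s v ≠ g A s (flp {r} v)))) ?_)
        Finset.card_biUnion_le
      intro v hv
      rw [mem_filter] at hv
      rw [mem_biUnion]
      by_contra hno
      push Not at hno
      refine hv.2 ?_
      rw [hF, hF]
      congr 1
      funext s
      by_contra hne
      exact hno s (mem_univ _) (by rw [mem_filter]; exact ⟨mem_univ _, hne⟩)
    refine h3.trans ?_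
    have h4 : ∀ i ∈ (univ : Finset (Fin m)), ∑ r ∈ A, infl (g A i) r ≤
        3 * (32 * s) ^ (h - 1) * 2 ^ d := by
      intro i _
      exact (Finset.sum_le_sum_of_subset (Finset.subset_univ A)).trans
        (circ_influence hs hS hh (hg A i))
    refine (Finset.sum_le_sum h4).trans (le_of_eq ?_)
    simp only [Finset.sum_const, Finset.card_univ, Fintype.card_fin, smul_eq_mul, hM]
    ring)
  have h2 : (2 * k - 1) * (3 * M + 1) ≤ 2 * k * (4 * M) :=
    Nat.mul_le_mul (by omega) (by omega)
  have h3 : 2 * k * (4 * M) = 8 * k * m * (32 * s) ^ (h - 1) := by rw [hM]; ring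
  omega

end Pool.Agent.Lib.Pfd3312.Low
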