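import Mathlib
import Pool.Agent.Lib.Pfd3312.LowSup

set_option autoImplicit false

/-!
Colourings of `{1,2,3}^d` which on every support are given by polynomials of low degree over a
finite prime field in the signs, and the certificate bound.
-/

namespace Pool.Agent.Lib.Pfd3312.Low

open Finset MvPolynomial

variable {d k : ℕ}

lemma totalDegree_aeval_le {σ τ R : Type} [CommRing R] [Fintype σ] (g : σ → MvPolynomial τ R)
    (e : ℕ) (hg : ∀ u, (g u).totalDegree ≤ e) (P : MvPolynomial σ R) :
    (aeval g P).totalDegree ≤ e * P.totalDegree := by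
  classical
  rw [aeval_def, eval₂_eq']
  refine totalDegree_finsetSum_le ?_
  intro m hm
  refine (totalDegree_mul _ _).trans ?_
  have h1 : (algebraMap R (MvPolynomial τ R) (coeff m P)).totalDegree = 0 := by
    rw [algebraMap_eq]
    exact totalDegree_C _
  rw [h1, zero_add]
  refine (totalDegree_finsetProd _ _).trans ?_
  have h2 : ∑ i, m i ≤ P.totalDegree := by
    have := le_totalDegree hm
    rwa [Finsupp.sum_fintype _ _ (fun _ => rfl)] at this
  calc ∑ i, (g i ^ m i).totalDegree ≤ ∑ i, m i * e := by
        refine Finset.sum_le_sum fun i _ => (totalDegree_pow _ _).trans ?_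
        exact Nat.mul_le_mul_left _ (hg i)
    _ = e * ∑ i, m i := by rw [← Finset.sum_mul, mul_comm]
    _ ≤ e * P.totalDegree := Nat.mul_le_mul_left _ h2

/-- By Chevalley's theorem a system of polynomials of low degree over a prime field keeps its values
when all coordinates in some nonempty subset of a large set `W` are changed from `0` to `1`. -/
lemma exists_block (p : ℕ) [hp : Fact p.Prime] {ι : Type} (s : Finset ι)
    (P : ι → MvPolynomial (Fin d) (ZMod p)) (B : ι → Fin d → ZMod p) (W : Finset (Fin d))
    (hB : ∀ i ∈ s, ∀ u ∈ W, B i u = 0)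
    (hdeg : (p - 1) * ∑ i ∈ s, (P i).totalDegree < W.card) :
    ∃ E ⊆ W, E.Nonempty ∧
      ∀ i ∈ s, eval (fun u => if u ∈ E then 1 else B i u) (P i) = eval (B i) (P i) := by
  classical
  have hp2 := hp.out.two_le
  let g : ι → Fin d → MvPolynomial {x // x ∈ W} (ZMod p) := fun i u =>
    if h : u ∈ W then X ⟨u, h⟩ ^ (p - 1) else C (B i u)
  let f : ι → MvPolynomial {x // x ∈ W} (ZMod p) := fun i =>
    aeval (g i) (P i) - C (eval (B i) (P i))
  have hfd : ∀ i, (f i).totalDegree ≤ (p - 1) * (P i).totalDegree := by
    intro i
    refine (totalDegree_sub _ _).trans (max_le ?_ ?_)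
    · refine totalDegree_aeval_le _ _ (fun u => ?_) _
      by_cases h : u ∈ W
      · simp only [g, h, dif_pos]
        rw [totalDegree_X_pow]
      · simp only [g, h]
        simp
    · rw [totalDegree_C]
      exact Nat.zero_le _
  have hcard : ∑ i ∈ s, (f i).totalDegree < Fintype.card {x // x ∈ W} := by
    rw [Fintype.card_coe]
    refine lt_of_le_of_lt (Finset.sum_le_sum fun i _ => hfd i) ?_
    rw [← Finset.mul_sum]
    exact hdeg
  have hdvd := char_dvd_card_solutions_of_sum_lt (K := ZMod p) p hcard
  have hev : ∀ (i : ι) (y : {x // x ∈ W} → ZMod p), eval y (f i) =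
      eval (fun u => if h : u ∈ W then y ⟨u, h⟩ ^ (p - 1) else B i u) (P i) -
        eval (B i) (P i) := by
    intro i y
    simp only [f, map_sub, eval_C]
    congr 1
    have h1 : eval y (aeval (g i) (P i)) = eval (fun u => eval y (g i u)) (P i) := by
      rw [← coe_aeval_eq_eval, ← coe_aeval_eq_eval]
      simp only [RingHom.coe_coe]
      rw [← AlgHom.comp_apply, comp_aeval]
    rw [h1]
    congr 2
    funext u
    by_cases h : u ∈ W
    · simp [g, h]
    · simp [g, h]
  -- zero is a solution
  have h0 : ∀ i ∈ s, eval (0 : {x // x ∈ W} → ZMod p) (f i) = 0 := by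
    intro i hi
    rw [hev, sub_eq_zero]
    congr 2
    funext u
    by_cases h : u ∈ W
    · simp only [h, dif_pos, Pi.zero_apply]
      rw [zero_pow (by omega), hB i hi u h]
    · simp [h]
  have hex : ∃ y : {x // x ∈ W} → ZMod p, y ≠ 0 ∧ ∀ i ∈ s, eval y (f i) = 0 := by
    by_contra hcon
    push Not at hcon
    have : Fintype.card {y : {x // x ∈ W} → ZMod p // ∀ i ∈ s, eval y (f i) = 0} = 1 := by
      rw [Fintype.card_eq_one_iff]
      refine ⟨⟨0, h0⟩, ?_⟩
      rintro ⟨y, hy⟩
      by_contra hne
      obtain ⟨i, hi, h⟩ := hcon y (fun h => hne (Subtype.ext h))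
      exact h (hy i hi)
    rw [this] at hdvd
    have := Nat.dvd_one.1 hdvd
    omega
  obtain ⟨y, hy0, hy⟩ := hex
  obtain ⟨z, hz⟩ := Function.ne_iff.1 hy0
  refine ⟨univ.filter (fun u => ∃ h : u ∈ W, y ⟨u, h⟩ ≠ 0), ?_, ⟨z, ?_⟩, ?_⟩
  · intro u hu
    rw [mem_filter] at hu
    exact hu.2.1
  · rw [mem_filter]
    exact ⟨mem_univ _, z.2, hz⟩
  · intro i hi
    have h1 := hy i hi
    rw [hev, sub_eq_zero] at h1
    rw [← h1]
    congr 2
    funext u
    by_cases h : u ∈ W
    · by_cases h2 : y ⟨u, h⟩ = 0
      · simp only [mem_filter, mem_univ, true_and, h, exists_true_left, ne_eq, h2,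
          not_true_eq_false, if_false, dif_pos]
        rw [zero_pow (by omega), hB i hi u h]
      · simp only [mem_filter, mem_univ, true_and, h, exists_true_left, ne_eq, h2,
          not_false_eq_true, if_true, dif_pos]
        exact (ZMod.pow_card_sub_one_eq_one h2).symm
    · simp [h]

theorem poly_lower {c : (Fin d → Fin 3) → Fin k} (hc : Good c) (p : ℕ) [hp : Fact p.Prime]
    (r D : ℕ) (P : Finset (Fin d) → Fin r → MvPolynomial (Fin d) (ZMod p))
    (F : Finset (Fin d) → (Fin r → ZMod p) → Fin k) (hP : ∀ A s, (P A s).totalDegree ≤ D)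
    (hF : ∀ A T, c (sgn A (ind T)) =
      F A (fun s => eval (fun u => if u ∈ T then 1 else 0) (P A s))) :
    2 * d < (p - 1) * r * D * (k * (k + 1)) + 2 * k := by
  classical
  by_contra hcon
  push Not at hcon
  have main : ∀ i ≤ k, ∃ (A : ℕ → Finset (Fin d)),
      2 * (univ \ A i).card ≤ (p - 1) * r * D * (i * (i + 1)) + 2 * i ∧
      ∀ j j', j < j' → j' ≤ i → A j' ⊂ A j ∧ ∀ s, eval (fun u => if u ∈ A j \ A j' then 1 else 0)
        (P (A j) s) = eval (fun _ => 0) (P (A j) s) := by
    intro i
    induction i with
    | zero =>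
      intro _
      exact ⟨fun _ => univ, by simp, fun j j' h1 h2 => by omega⟩
    | succ i ih =>
      intro hi
      obtain ⟨A, hU, hA⟩ := ih (by omega)
      set M := (p - 1) * r * D with hM
      have hsub : ∀ j ≤ i, A i ⊆ A j := by
        intro j hj
        by_cases h : j = i
        · subst h; exact Finset.Subset.refl _
        · exact (hA j i (by omega) le_rfl).1.1
      have hUc : (univ \ A i).card + (A i).card = d := by
        rw [Finset.card_univ_sdiff, Fintype.card_fin]
        have := Finset.card_le_univ (A i)
        rw [Fintype.card_fin] at this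
        omega
      have e1 : M * ((i + 1) * (i + 1 + 1)) = M * (i * (i + 1)) + 2 * (M * (i + 1)) := by ring
      have e2 : M * ((i + 1) * (i + 1 + 1)) ≤ M * (k * (k + 1)) :=
        Nat.mul_le_mul_left _ (Nat.mul_le_mul hi (by omega))
      have hWc : M * (i + 1) + 1 ≤ (A i).card := by omega
      obtain ⟨W, hW, hWcard⟩ := Finset.exists_subset_card_eq hWc
      obtain ⟨E, hE, hEne, hEv⟩ := exists_block p (univ : Finset (Fin (i + 1) × Fin r))
        (fun q => P (A q.1) q.2) (fun q u => if u ∈ A q.1 \ A i then 1 else 0) W (by
          intro q _ u hu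
          have : u ∉ A q.1 \ A i := fun h => (Finset.mem_sdiff.1 h).2 (hW hu)
          simp [this]) (by
          rw [hWcard]
          have h1 : ∑ q : Fin (i + 1) × Fin r, (P (A q.1) q.2).totalDegree ≤
              (i + 1) * r * D := by
            refine (Finset.sum_le_sum fun q _ => hP _ _).trans ?_
            simp [Fintype.card_prod]
          have h2 : (p - 1) * ∑ q : Fin (i + 1) × Fin r, (P (A q.1) q.2).totalDegree ≤
              M * (i + 1) := by
            refine (Nat.mul_le_mul_left _ h1).trans (le_of_eq ?_)
            rw [hM]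
            ring
          omega)
      obtain ⟨A', hA'1, hA'2⟩ : ∃ A' : ℕ → Finset (Fin d), (∀ j ≤ i, A' j = A j) ∧
          A' (i + 1) = A i \ E :=
        ⟨fun j => if j ≤ i then A j else A i \ E, fun j hj => if_pos hj, if_neg (by omega)⟩
      refine ⟨A', ?_, ?_⟩
      · rw [hA'2]
        have h1 : (univ : Finset (Fin d)) \ (A i \ E) ⊆ (univ \ A i) ∪ E := by
          intro u hu
          simp only [Finset.mem_sdiff, mem_univ, true_and, not_and, not_not,
            Finset.mem_union] at hu ⊢
          by_cases h : u ∈ A i
          · exact Or.inr (hu h)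
          · exact Or.inl h
        have h2 := (Finset.card_le_card h1).trans (Finset.card_union_le _ _)
        have h3 := Finset.card_le_card hE
        omega
      · intro j j' hjj hj'
        have hj : j ≤ i := by omega
        by_cases h1 : j' ≤ i
        · rw [hA'1 j hj, hA'1 j' h1]
          exact hA j j' hjj h1
        · have hj1 : j' = i + 1 := by omega
          subst hj1
          rw [hA'1 j hj, hA'2]
          have hEA : E ⊆ A i := hE.trans hW
          have hlast : A i \ E ⊂ A i := by
            rw [Finset.ssubset_iff_subset_ne]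
            refine ⟨Finset.sdiff_subset, ?_⟩
            intro h
            obtain ⟨r, hr⟩ := hEne
            have h2 : r ∈ A i \ E := by rw [h]; exact hEA hr
            exact (Finset.mem_sdiff.1 h2).2 hr
          refine ⟨lt_of_lt_of_le hlast (hsub j hj), ?_⟩
          intro s
          have h2 := hEv (⟨j, by omega⟩, s) (mem_univ _)
          simp only at h2
          have h3 : (fun u => if u ∈ A j \ (A i \ E) then (1 : ZMod p) else 0) =
              fun u => if u ∈ E then 1 else if u ∈ A j \ A i then 1 else 0 := by
            funext u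
            by_cases hu : u ∈ E
            · have h4 : u ∈ A j \ (A i \ E) := by
                simp only [Finset.mem_sdiff, hu, not_true_eq_false, and_false,
                  not_false_eq_true, and_true]
                exact hsub j hj (hEA hu)
              simp [h4, hu]
            · have h4 : u ∈ A j \ (A i \ E) ↔ u ∈ A j \ A i := by
                simp only [Finset.mem_sdiff, hu, not_false_eq_true, and_true]
              simp only [h4, hu, if_false]
          rw [h3, h2]
          by_cases h5 : j < i
          · exact (hA j i h5 le_rfl).2 s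
          · have : j = i := by omega
            subst this
            simp
  obtain ⟨A, _, hA⟩ := main k le_rfl
  have : k < k := by
    refine lt_of_chain (c := c) (fun j => sgn (A j) (ind ∅)) ?_
    intro j j' hjj hj'
    obtain ⟨h1, h2⟩ := hA j j' hjj hj'
    refine ne_of_mid hc (z := sgn (A j) (flp (A j \ A j') (ind ∅))) (mid_sgn h1.1 _)
      (sgn_ne h1 _) ?_
    have h3 : flp (A j \ A j') (ind ∅) = ind (A j \ A j') := by
      funext r
      unfold flp ind
      by_cases h4 : r ∈ A j \ A j' <;> simp [h4]
    rw [h3, hF, hF]
    congr 1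
    funext s
    rw [h2 s]
    congr 2
  exact lt_irrefl _ this

/-! ### Certificates -/

/-- If for one sign vector `v` the colour on every support is determined by at most `r` of the signs
of `v` then `d < (r + 1) k`. -/
theorem cert_lower {c : (Fin d → Fin 3) → Fin k} (hc : Good c) (r : ℕ) (v : Fin d → Bool)
    (h : ∀ A : Finset (Fin d), ∃ E : Finset (Fin d), E.card ≤ r ∧
      ∀ u : Fin d → Bool, (∀ i ∈ E, u i = v i) → c (sgn A u) = c (sgn A v)) :
    d < (r + 1) * k := by
  classical
  by_contra hcon
  push Not at hcon
  choose E hE hEc using h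
  have main : ∀ i ≤ k, ∃ (A : ℕ → Finset (Fin d)), (A i).card = d - i ∧
      ∀ j j', j < j' → j' ≤ i → A j' ⊂ A j ∧ Disjoint (A j \ A j') (E (A j)) := by
    intro i
    induction i with
    | zero =>
      intro _
      exact ⟨fun _ => univ, by simp, fun j j' h1 h2 => by omega⟩
    | succ i ih =>
      intro hi
      obtain ⟨A, hAc, hA⟩ := ih (by omega)
      have hsub : ∀ j ≤ i, A i ⊆ A j := by
        intro j hj
        by_cases h : j = i
        · subst h; exact Finset.Subset.refl _
        · exact (hA j i (by omega) le_rfl).1.1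
      have h1 : ((range (i + 1)).biUnion (fun j => E (A j))).card < (A i).card := by
        refine lt_of_le_of_lt (Finset.card_biUnion_le) ?_
        refine lt_of_le_of_lt (Finset.sum_le_sum fun j _ => hE (A j)) ?_
        rw [Finset.sum_const, Finset.card_range, smul_eq_mul, hAc]
        have e1 : (i + 1) * r ≤ k * r := Nat.mul_le_mul_right _ hi
        have e2 : (r + 1) * k = k * r + k := by ring
        omega
      obtain ⟨x, hx, hxE⟩ := Finset.exists_mem_notMem_of_card_lt_card h1
      obtain ⟨A', hA'1, hA'2⟩ : ∃ A' : ℕ → Finset (Fin d), (∀ j ≤ i, A' j = A j) ∧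
          A' (i + 1) = (A i).erase x :=
        ⟨fun j => if j ≤ i then A j else (A i).erase x, fun j hj => if_pos hj, if_neg (by omega)⟩
      refine ⟨A', ?_, ?_⟩
      · rw [hA'2, Finset.card_erase_of_mem hx, hAc]
        omega
      · intro j j' hjj hj'
        have hj : j ≤ i := by omega
        by_cases h2 : j' ≤ i
        · rw [hA'1 j hj, hA'1 j' h2]
          exact hA j j' hjj h2
        · have hj1 : j' = i + 1 := by omega
          subst hj1
          rw [hA'1 j hj, hA'2]
          refine ⟨lt_of_lt_of_le (Finset.erase_ssubset hx) (hsub j hj), ?_⟩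
          rw [Finset.disjoint_left]
          intro u hu huE
          rw [Finset.mem_sdiff, Finset.mem_erase, not_and_or, not_not] at hu
          by_cases hux : u = x
          · subst hux
            apply hxE
            rw [Finset.mem_biUnion]
            exact ⟨j, Finset.mem_range.2 (by omega), huE⟩
          · have h3 : u ∉ A i := by
              rcases hu.2 with h | h
              · exact absurd h hux
              · exact h
            have h4 : j < i := by
              by_contra h5
              have : j = i := by omega
              subst this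
              exact h3 hu.1
            exact (Finset.disjoint_left.1 (hA j i h4 le_rfl).2) (Finset.mem_sdiff.2 ⟨hu.1, h3⟩) huE
  obtain ⟨A, _, hA⟩ := main k le_rfl
  have : k < k := by
    refine lt_of_chain (c := c) (fun j => sgn (A j) v) ?_
    intro j j' hjj hj'
    obtain ⟨h1, h2⟩ := hA j j' hjj hj'
    refine ne_of_mid hc (z := sgn (A j) (flp (A j \ A j') v)) (mid_sgn h1.1 _)
      (sgn_ne h1 _) ?_
    refine hEc (A j) _ ?_
    intro i hi
    unfold flp
    rw [if_neg (fun h => (Finset.disjoint_left.1 h2) h hi)]
  exact lt_irrefl _ this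

end Pool.Agent.Lib.Pfd3312.Low
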