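import Mathlib
import Pool.Agent.Lib.Pfd3312.LowPoly
import Pool.Agent.Lib.Pfd3312.LowAC

set_option autoImplicit false

/-!
Partitions of `{1,2,3}^d` into sets in general position, the class being approximately a simple
function of the signs on every support.
-/

namespace Pool.Agent.Lib.Pfd3312.Low

open Finset

variable {d k : ℕ}

lemma chg_le (c : (Fin d → Fin 3) → Fin k) (A : Finset (Fin d)) {m : ℕ}
    (g : Fin m → (Fin d → Bool) → Bool) (F : (Fin m → Bool) → Fin k) (r : Fin d) :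
    chg c A {r} ≤ ∑ i, infl (g i) r +
      2 * (univ.filter (fun v : Fin d → Bool => c (sgn A v) ≠ F (fun i => g i v))).card := by
  classical
  set E := univ.filter (fun v : Fin d → Bool => c (sgn A v) ≠ F (fun i => g i v)) with hE
  have h1 : univ.filter (fun v : Fin d → Bool => c (sgn A v) ≠ c (sgn A (flp {r} v))) ⊆
      (univ.biUnion (fun i : Fin m =>
        univ.filter (fun v : Fin d → Bool => g i v ≠ g i (flp {r} v)))) ∪
        (E ∪ E.image (flp {r})) := by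
    intro v hv
    rw [mem_filter] at hv
    by_contra hno
    simp only [mem_union, mem_biUnion, mem_filter, mem_univ, true_and, not_or, not_exists,
      not_not, mem_image] at hno
    obtain ⟨h1, h2, h3⟩ := hno
    have h4 : v ∉ E := h2
    have h5 : flp {r} v ∉ E := fun h => h3 (flp {r} v) ⟨h, flp_flp _ _⟩
    rw [hE, mem_filter, not_and, not_not] at h4 h5
    refine hv.2 ?_
    rw [h4 (mem_univ _), h5 (mem_univ _)]
    congr 1
    funext i
    exact h1 i
  have h2 := Finset.card_le_card h1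
  have h3 : (E.image (flp {r})).card ≤ E.card := Finset.card_image_le
  have h4 := Finset.card_union_le (univ.biUnion (fun i : Fin m =>
        univ.filter (fun v : Fin d → Bool => g i v ≠ g i (flp {r} v)))) (E ∪ E.image (flp {r}))
  have h5 := Finset.card_union_le E (E.image (flp {r}))
  have h6 : (univ.biUnion (fun i : Fin m =>
        univ.filter (fun v : Fin d → Bool => g i v ≠ g i (flp {r} v)))).card ≤
      ∑ i, infl (g i) r := Finset.card_biUnion_le
  unfold chg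
  omega

theorem detCol_pos {m : ℕ} {P : Set ((Fin d → Bool) → Bool)} (h : DetCol d k m P) : 1 ≤ k := by
  obtain ⟨c, -⟩ := h
  exact lt_of_le_of_lt (Nat.zero_le _) (c (fun _ => 0)).isLt

/-- On some large support the total influence of the `m` functions is large. -/
theorem detCol_influence {m : ℕ} {P : Set ((Fin d → Bool) → Bool)} (h : DetCol d k m P)
    (hd : 2 * k - 1 ≤ d) : ∃ (A : Finset (Fin d)) (g : Fin m → (Fin d → Bool) → Bool),
      (∀ i, g i ∈ P) ∧ d < A.card + (2 * k - 1) ∧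
      2 ^ d * A.card ≤ 2 * (2 * k - 1) * ∑ i, ∑ r ∈ A, infl (g i) r := by
  classical
  have hk := detCol_pos h
  obtain ⟨c, hc, hA⟩ := h
  choose g F hg hE using hA
  obtain ⟨A, h1, h2⟩ := influence (good_of_generalPosition hc) hk hd
  refine ⟨A, g A, hg A, h1, ?_⟩
  set E := (univ.filter (fun v : Fin d → Bool => c (sgn A v) ≠ F A (fun i => g A i v))).card with hEd
  have h3 : ∑ r ∈ A, chg c A {r} ≤ ∑ i, ∑ r ∈ A, infl (g A i) r + A.card * (2 * E) := by
    refine (Finset.sum_le_sum fun r _ => chg_le c A (g A) (F A) r).trans (le_of_eq ?_)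
    rw [Finset.sum_add_distrib, Finset.sum_comm, Finset.sum_const, smul_eq_mul]
  set I := ∑ i, ∑ r ∈ A, infl (g A i) r with hI
  have h4 : 8 * k * E ≤ 2 ^ d := hE A
  have h5 : (2 * k - 1) * ∑ r ∈ A, chg c A {r} ≤ (2 * k - 1) * I + (2 * k - 1) * (A.card * (2 * E)) := by
    rw [← Nat.mul_add]
    exact Nat.mul_le_mul_left _ h3
  have h6 : (2 * k - 1) * (A.card * (2 * E)) ≤ 2 * k * (A.card * (2 * E)) :=
    Nat.mul_le_mul_right _ (by omega)
  have h7 : 2 * (2 * k * (A.card * (2 * E))) ≤ 2 ^ d * A.card := by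
    calc 2 * (2 * k * (A.card * (2 * E))) = (8 * k * E) * A.card := by ring
      _ ≤ 2 ^ d * A.card := Nat.mul_le_mul_right _ h4
  have h8 : 2 * (2 * k - 1) * I = 2 * ((2 * k - 1) * I) := by ring
  rw [h8]
  omega

theorem detCol_circ {m h S s : ℕ} (hm : 1 ≤ m) (hh : 1 ≤ h) (hs : 1 ≤ s) (hS : S * d ≤ 2 ^ s)
    (hc : DetCol d k m {f | P28cd.Circ (Lit d) h S f}) : d < 14 * k * m * (32 * s) ^ (h - 1) := by
  have hk := detCol_pos hc
  set W := (32 * s) ^ (h - 1) with hW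
  have hW1 : 1 ≤ W := Nat.pow_pos (by omega)
  have hmW : 1 ≤ m * W := Nat.mul_pos hm hW1
  have e0 : 14 * k * m * W = 14 * k * (m * W) := by ring
  have e1 : 14 * k ≤ 14 * k * (m * W) := Nat.le_mul_of_pos_right _ hmW
  by_contra hcon
  push Not at hcon
  obtain ⟨A, g, hg, h1, h2⟩ := detCol_influence hc (by omega)
  have h3 : ∑ i, ∑ r ∈ A, infl (g i) r ≤ m * (3 * W * 2 ^ d) := by
    have h4 : ∀ i ∈ (univ : Finset (Fin m)), ∑ r ∈ A, infl (g i) r ≤ 3 * W * 2 ^ d := by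
      intro i _
      exact (Finset.sum_le_sum_of_subset (Finset.subset_univ A)).trans
        (circ_influence hs hS hh (hg i))
    refine (Finset.sum_le_sum h4).trans (le_of_eq ?_)
    simp
  have h4 : 2 ^ d * A.card ≤ 2 ^ d * ((2 * k - 1) * (6 * (m * W))) := by
    calc 2 ^ d * A.card ≤ 2 * (2 * k - 1) * ∑ i, ∑ r ∈ A, infl (g i) r := h2
      _ ≤ 2 * (2 * k - 1) * (m * (3 * W * 2 ^ d)) := Nat.mul_le_mul_left _ h3
      _ = _ := by ring
  have h5 : A.card ≤ (2 * k - 1) * (6 * (m * W)) := le_of_mul_le_mul_left h4 (by positivity)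
  have h6 : (2 * k - 1) * (6 * (m * W)) + (2 * k - 1) ≤ (2 * k - 1) * (7 * (m * W)) := by
    have : (2 * k - 1) * (7 * (m * W)) =
        (2 * k - 1) * (6 * (m * W)) + (2 * k - 1) * (m * W) := by ring
    rw [this]
    exact Nat.add_le_add_left (Nat.le_mul_of_pos_right _ hmW) _
  have h7 : (2 * k - 1) * (7 * (m * W)) ≤ 2 * k * (7 * (m * W)) :=
    Nat.mul_le_mul_right _ (by omega)
  have h8 : 2 * k * (7 * (m * W)) = 14 * k * (m * W) := by ring
  omega

theorem detCol_unate {m : ℕ} (hm : 1 ≤ m) (hc : DetCol d k m {f | Unate f}) :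
    d < (4 * k * m) ^ 2 := by
  have hk := detCol_pos hc
  by_contra hcon
  push Not at hcon
  have hkm : 1 ≤ k * m := Nat.mul_pos hk hm
  have h2k : 2 * k - 1 ≤ d := by
    refine le_trans ?_ hcon
    have h1 : 4 * k ≤ 4 * k * m := Nat.le_mul_of_pos_right _ hm
    have h2 : 4 * k * m ≤ (4 * k * m) ^ 2 := Nat.le_self_pow (by norm_num) _
    omega
  obtain ⟨A, g, hg, h1, h2⟩ := detCol_influence hc h2k
  set K := 2 * k - 1 with hK
  have h4 : (∑ i, ∑ r ∈ A, infl (g i) r) ^ 2 ≤ m ^ 2 * (A.card * (2 ^ d) ^ 2) := by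
    have h5 := Finset.sum_mul_sq_le_sq_mul_sq (univ : Finset (Fin m)) (fun _ => (1 : ℤ))
      (fun i => ((∑ r ∈ A, infl (g i) r : ℕ) : ℤ))
    simp only [one_mul, one_pow, Finset.sum_const, Finset.card_univ, Fintype.card_fin,
      nsmul_eq_mul, mul_one] at h5
    have h6 : ∑ i : Fin m, ((∑ r ∈ A, infl (g i) r : ℕ) : ℤ) ^ 2 ≤
        m * ((A.card * (2 ^ d) ^ 2 : ℕ) : ℤ) := by
      refine (Finset.sum_le_sum (fun i _ => (by exact_mod_cast unate_sq (hg i) A :
        ((∑ r ∈ A, infl (g i) r : ℕ) : ℤ) ^ 2 ≤ ((A.card * (2 ^ d) ^ 2 : ℕ) : ℤ)))).trans ?_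
      simp
    have h7 : (∑ i : Fin m, ((∑ r ∈ A, infl (g i) r : ℕ) : ℤ)) ^ 2 ≤
        m * (m * ((A.card * (2 ^ d) ^ 2 : ℕ) : ℤ)) :=
      h5.trans (mul_le_mul_of_nonneg_left h6 (by positivity))
    have h8 : ((∑ i : Fin m, ∑ r ∈ A, infl (g i) r) ^ 2 : ℕ) ≤
        m * (m * (A.card * (2 ^ d) ^ 2)) := by exact_mod_cast h7
    refine h8.trans (le_of_eq ?_)
    ring
  have h5 : (2 ^ d * A.card) ^ 2 ≤ (2 * K) ^ 2 * (m ^ 2 * (A.card * (2 ^ d) ^ 2)) := by
    calc (2 ^ d * A.card) ^ 2 ≤ (2 * K * ∑ i, ∑ r ∈ A, infl (g i) r) ^ 2 :=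
          Nat.pow_le_pow_left h2 2
      _ = (2 * K) ^ 2 * (∑ i, ∑ r ∈ A, infl (g i) r) ^ 2 := by ring
      _ ≤ _ := Nat.mul_le_mul_left _ h4
  have h6 : A.card ≤ 4 * K ^ 2 * m ^ 2 := by
    rcases Nat.eq_zero_or_pos A.card with h | h
    · rw [h]; exact Nat.zero_le _
    · have h7 : ((2 ^ d) ^ 2 * A.card) * A.card ≤
          ((2 ^ d) ^ 2 * A.card) * (4 * K ^ 2 * m ^ 2) := by
        calc _ = (2 ^ d * A.card) ^ 2 := by ring
          _ ≤ _ := h5
          _ = _ := by ring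
      exact le_of_mul_le_mul_left h7 (by positivity)
  have h7 : 4 * K ^ 2 * m ^ 2 + K ≤ (4 * k * m) ^ 2 := by
    have e1 : 4 * k = 2 * (K + 1) := by omega
    rw [e1]
    have e2 : (2 * (K + 1) * m) ^ 2 = 4 * K ^ 2 * m ^ 2 + (8 * K + 4) * m ^ 2 := by ring
    rw [e2]
    have e3 : 8 * K + 4 ≤ (8 * K + 4) * m ^ 2 := Nat.le_mul_of_pos_right _ (by positivity)
    omega
  omega

theorem cert_exists {c : (Fin d → Fin 3) → Fin k} (hc : Good c) (v : Fin d → Bool)
    {r : ℕ} (hr : (r + 1) * k ≤ d) : ∃ A : Finset (Fin d), ∀ E : Finset (Fin d), E.card ≤ r →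
      ∃ u : Fin d → Bool, (∀ i ∈ E, u i = v i) ∧ c (sgn A u) ≠ c (sgn A v) := by
  by_contra hcon
  push Not at hcon
  exact absurd (cert_lower hc r v hcon) (not_lt.2 hr)

end Pool.Agent.Lib.Pfd3312.Low
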