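import Mathlib
import Pool.Agent.Lib.Pfd3312.LowAC

set_option autoImplicit false

/-!
Khrapchenko's bound for the total influence of formulas, and colourings of `{1,2,3}^d` given by small
formulas.
-/

namespace Pool.Agent.Lib.Pfd3312.Low

open Finset

variable {d k : ℕ}

/-- `Fml d L f`: `f` is computed by a formula with `L` leaves, which are literals, and gates AND and
OR of fan-in two. -/
inductive Fml (d : ℕ) : ℕ → ((Fin d → Bool) → Bool) → Prop
  | lit (f : (Fin d → Bool) → Bool) : f ∈ Lit d → Fml d 1 f
  | and (L L' : ℕ) (f g : (Fin d → Bool) → Bool) : Fml d L f → Fml d L' g →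
      Fml d (L + L') (fun v => f v && g v)
  | or (L L' : ℕ) (f g : (Fin d → Bool) → Bool) : Fml d L f → Fml d L' g →
      Fml d (L + L') (fun v => f v || g v)

/-- The number of edges of the cube between `A` and `B`. -/
def edg (A B : Finset (Fin d → Bool)) : ℕ :=
  ∑ a ∈ A, (univ.filter (fun r : Fin d => flp {r} a ∈ B)).card

lemma edg_union_left {A A' B : Finset (Fin d → Bool)} (h : Disjoint A A') :
    edg (A ∪ A') B = edg A B + edg A' B := by
  unfold edg
  rw [Finset.sum_union h]

lemma edg_union_right {A B B' : Finset (Fin d → Bool)} (h : Disjoint B B') :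
    edg A (B ∪ B') = edg A B + edg A B' := by
  unfold edg
  rw [← Finset.sum_add_distrib]
  refine Finset.sum_congr rfl fun a _ => ?_
  rw [← Finset.card_union_of_disjoint]
  · congr 1
    ext r
    simp only [mem_filter, mem_univ, true_and, mem_union]
  · rw [Finset.disjoint_left]
    intro r h1 h2
    rw [mem_filter] at h1 h2
    exact (Finset.disjoint_left.1 h) h1.2 h2.2

lemma sq_aux {x y p q r s : ℕ} (h1 : x ^ 2 ≤ p * q) (h2 : y ^ 2 ≤ r * s) :
    (x + y) ^ 2 ≤ (p + r) * (q + s) := by
  have h3 : (2 * x * y) ^ 2 ≤ (p * s + r * q) ^ 2 := by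
    calc (2 * x * y) ^ 2 = 4 * (x ^ 2 * y ^ 2) := by ring
      _ ≤ 4 * ((p * q) * (r * s)) := Nat.mul_le_mul_left _ (Nat.mul_le_mul h1 h2)
      _ = 4 * (p * s) * (r * q) := by ring
      _ ≤ (p * s + r * q) ^ 2 := by
          zify
          nlinarith [sq_nonneg ((p * s : ℤ) - r * q)]
  have h4 : 2 * x * y ≤ p * s + r * q := (Nat.pow_le_pow_iff_left (by norm_num)).1 h3
  calc (x + y) ^ 2 = x ^ 2 + 2 * x * y + y ^ 2 := by ring
    _ ≤ p * q + (p * s + r * q) + r * s := by omega
    _ = _ := by ring

theorem khrapchenko {L : ℕ} {f : (Fin d → Bool) → Bool} (h : Fml d L f) :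
    ∀ A B : Finset (Fin d → Bool), (∀ a ∈ A, f a = false) → (∀ b ∈ B, f b = true) →
      edg A B ^ 2 ≤ L * (A.card * B.card) := by
  classical
  induction h with
  | lit f hf =>
    intro A B hA hB
    obtain ⟨i, hi⟩ := hf
    have hr : ∀ a ∈ A, ∀ r, flp {r} a ∈ B → r = i := by
      intro a ha r hr
      by_contra hne
      have h1 := hA a ha
      have h2 := hB _ hr
      have h3 : flp {r} a i = a i := flp_other (fun h => hne h.symm) a
      rcases hi with h | h
      · rw [h] at h1 h2
        simp only at h1 h2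
        rw [h3, h1] at h2
        exact Bool.noConfusion h2
      · rw [h] at h1 h2
        simp only at h1 h2
        rw [h3, h1] at h2
        exact Bool.noConfusion h2
    have h1 : edg A B ≤ (A.filter (fun a => flp {i} a ∈ B)).card := by
      unfold edg
      rw [Finset.card_filter]
      refine Finset.sum_le_sum fun a ha => ?_
      by_cases h : flp {i} a ∈ B
      · rw [if_pos h]
        rw [Finset.card_le_one]
        intro r hr1 r' hr1'
        rw [mem_filter] at hr1 hr1'
        rw [hr a ha r hr1.2, hr a ha r' hr1'.2]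
      · rw [if_neg h, Nat.le_zero, Finset.card_eq_zero, Finset.filter_eq_empty_iff]
        intro r _ hr1
        have := hr a ha r hr1
        subst this
        exact h hr1
    have h2 : edg A B ≤ A.card := h1.trans (Finset.card_filter_le _ _)
    have h3 : edg A B ≤ B.card := by
      refine h1.trans ?_
      refine Finset.card_le_card_of_injOn (flp {i}) ?_ ?_
      · intro a ha
        simp only [coe_filter, Set.mem_setOf_eq] at ha
        exact ha.2
      · intro a _ a' _ haa
        have := congrArg (flp {i}) haa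
        rwa [flp_flp, flp_flp] at this
    rw [pow_two, one_mul]
    exact Nat.mul_le_mul h2 h3
  | and L L' f g _ _ ihf ihg =>
    intro A B hA hB
    have hAu : A = (A.filter (fun a => f a = false)) ∪ (A.filter (fun a => ¬ f a = false)) :=
      (Finset.filter_union_filter_not_eq _ A).symm
    have hdis : Disjoint (A.filter (fun a => f a = false)) (A.filter (fun a => ¬ f a = false)) :=
      Finset.disjoint_filter_filter_not _ _ _
    have hc : A.card = (A.filter (fun a => f a = false)).card +
        (A.filter (fun a => ¬ f a = false)).card := by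
      conv_lhs => rw [hAu]
      exact Finset.card_union_of_disjoint hdis
    have h1 := ihf (A.filter (fun a => f a = false)) B (fun a ha => (mem_filter.1 ha).2)
      (fun b hb => by have := hB b hb; simp only [Bool.and_eq_true] at this; exact this.1)
    have h2 := ihg (A.filter (fun a => ¬ f a = false)) B (fun a ha => by
        have h3 := hA a (mem_filter.1 ha).1
        have h4 := (mem_filter.1 ha).2
        simp only [Bool.not_eq_false] at h4
        simpa [h4] using h3)
      (fun b hb => by have := hB b hb; simp only [Bool.and_eq_true] at this; exact this.2)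
    have h3 : edg A B = edg (A.filter (fun a => f a = false)) B +
        edg (A.filter (fun a => ¬ f a = false)) B := by
      conv_lhs => rw [hAu]
      exact edg_union_left hdis
    rw [h3, hc]
    have h4 := sq_aux (p := L * B.card) (q := (A.filter (fun a => f a = false)).card)
      (r := L' * B.card) (s := (A.filter (fun a => ¬ f a = false)).card)
      (h1.trans (le_of_eq (by ring))) (h2.trans (le_of_eq (by ring)))
    exact h4.trans (le_of_eq (by ring))
  | or L L' f g _ _ ihf ihg =>
    intro A B hA hB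
    have hBu : B = (B.filter (fun a => f a = true)) ∪ (B.filter (fun a => ¬ f a = true)) :=
      (Finset.filter_union_filter_not_eq _ B).symm
    have hdis : Disjoint (B.filter (fun a => f a = true)) (B.filter (fun a => ¬ f a = true)) :=
      Finset.disjoint_filter_filter_not _ _ _
    have hc : B.card = (B.filter (fun a => f a = true)).card +
        (B.filter (fun a => ¬ f a = true)).card := by
      conv_lhs => rw [hBu]
      exact Finset.card_union_of_disjoint hdis
    have h1 := ihf A (B.filter (fun a => f a = true))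
      (fun a ha => by have := hA a ha; simp only [Bool.or_eq_false_iff] at this; exact this.1)
      (fun b hb => (mem_filter.1 hb).2)
    have h2 := ihg A (B.filter (fun a => ¬ f a = true))
      (fun a ha => by have := hA a ha; simp only [Bool.or_eq_false_iff] at this; exact this.2)
      (fun b hb => by
        have h3 := hB b (mem_filter.1 hb).1
        have h4 := (mem_filter.1 hb).2
        simp only [Bool.not_eq_true] at h4
        simpa [h4] using h3)
    have h3 : edg A B = edg A (B.filter (fun a => f a = true)) +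
        edg A (B.filter (fun a => ¬ f a = true)) := by
      conv_lhs => rw [hBu]
      exact edg_union_right hdis
    rw [h3, hc]
    have h4 := sq_aux (p := L * A.card) (q := (B.filter (fun a => f a = true)).card)
      (r := L' * A.card) (s := (B.filter (fun a => ¬ f a = true)).card)
      (h1.trans (le_of_eq (by ring))) (h2.trans (le_of_eq (by ring)))
    exact h4.trans (le_of_eq (by ring))

/-- The total influence of a formula with `L` leaves is at most `√L`. -/
theorem fml_influence {L : ℕ} {f : (Fin d → Bool) → Bool} (h : Fml d L f) :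
    (∑ r, infl f r) ^ 2 ≤ L * (2 ^ d) ^ 2 := by
  classical
  set A : Finset (Fin d → Bool) := univ.filter (fun a => f a = false) with hA
  set B : Finset (Fin d → Bool) := univ.filter (fun a => ¬ f a = false) with hB
  have h1 := khrapchenko h A B (fun a ha => (mem_filter.1 ha).2) (fun b hb => by
    have := (mem_filter.1 hb).2
    simpa using this)
  have hAB : A.card + B.card = 2 ^ d := by
    have := Finset.card_filter_add_card_filter_not (s := (univ : Finset (Fin d → Bool)))
      (fun a => f a = false)
    rw [hA, hB, this]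
    simp
  have h2 : ∑ r, infl f r = 2 * edg A B := by
    have h3 : ∀ r, infl f r = 2 * ∑ v : Fin d → Bool,
        (if f v = false ∧ f (flp {r} v) ≠ false then 1 else 0) := by
      intro r
      have e1 := sum_flp r (fun v : Fin d → Bool =>
        if f v = false ∧ f (flp {r} v) ≠ false then 1 else 0)
      simp only [flp_flp] at e1
      unfold infl
      rw [Finset.card_filter, two_mul]
      nth_rewrite 1 [← e1]
      rw [← Finset.sum_add_distrib]
      refine Finset.sum_congr rfl fun v _ => ?_
      cases hx : f v <;> cases hy : f (flp {r} v) <;> simp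
    simp only [h3]
    rw [← Finset.mul_sum, Finset.sum_comm]
    congr 1
    unfold edg
    rw [hA, Finset.sum_filter]
    refine Finset.sum_congr rfl fun v _ => ?_
    by_cases hv : f v = false
    · rw [if_pos hv, Finset.card_filter]
      refine Finset.sum_congr rfl fun r _ => ?_
      by_cases hr : f (flp {r} v) = false
      · simp [hv, hr, hB]
      · simp [hv, hr, hB]
    · simp [hv]
  rw [h2]
  have h3 : 4 * (A.card * B.card) ≤ (2 ^ d) ^ 2 := by
    rw [← hAB]
    zify
    nlinarith [sq_nonneg ((A.card : ℤ) - B.card)]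
  calc (2 * edg A B) ^ 2 = 4 * edg A B ^ 2 := by ring
    _ ≤ 4 * (L * (A.card * B.card)) := Nat.mul_le_mul_left _ h1
    _ = L * (4 * (A.card * B.card)) := by ring
    _ ≤ L * (2 ^ d) ^ 2 := Nat.mul_le_mul_left _ h3

/-- If on every support the colour is determined by `m` functions given by formulas with at most `L`
leaves then `d ^ 2 < 16 k ^ 2 m ^ 2 L`. -/
theorem fml_lower {c : (Fin d → Fin 3) → Fin k} (hc : Good c) (hk : 1 ≤ k) {m L : ℕ} (hm : 1 ≤ m)
    (hL : 1 ≤ L) (g : Finset (Fin d) → Fin m → (Fin d → Bool) → Bool)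
    (F : Finset (Fin d) → (Fin m → Bool) → Fin k)
    (hg : ∀ A s, ∃ L' ≤ L, Fml d L' (g A s))
    (hF : ∀ A v, c (sgn A v) = F A (fun s => g A s v)) : d ^ 2 < 16 * k ^ 2 * m ^ 2 * L := by
  classical
  by_contra hcon
  push Not at hcon
  have h4k : 4 * k ≤ d := by
    have h1 : (4 * k) ^ 2 ≤ d ^ 2 := by
      refine le_trans ?_ hcon
      calc (4 * k) ^ 2 = 16 * k ^ 2 * 1 * 1 := by ring
        _ ≤ 16 * k ^ 2 * m ^ 2 * L :=
          Nat.mul_le_mul (Nat.mul_le_mul_left _ (Nat.one_le_pow _ _ hm)) hL
    exact (Nat.pow_le_pow_iff_left (by norm_num)).1 h1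
  obtain ⟨A, h1, h2⟩ := influence hc hk (by omega)
  set K := 2 * k - 1 with hK
  have h3 : ∑ r ∈ A, chg c A {r} ≤ ∑ s : Fin m, ∑ r, infl (g A s) r := by
    refine le_trans ?_ (Finset.sum_le_sum fun s _ =>
      Finset.sum_le_sum_of_subset (f := fun r => infl (g A s) r) (Finset.subset_univ A))
    rw [Finset.sum_comm]
    refine Finset.sum_le_sum fun r _ => ?_
    unfold chg infl
    refine le_trans (Finset.card_le_card (t := univ.biUnion (fun s : Fin m =>
      univ.filter (fun v : Fin d → Bool => g A s v ≠ g A s (flp {r} v)))) ?_)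
      Finset.card_biUnion_le
    intro v hv
    rw [mem_filter] at hv
    rw [mem_biUnion]
    by_contra hno
    push Not at hno
    refine hv.2 ?_
    rw [hF, hF]
    congr 1
    funext s
    by_contra hne
    exact hno s (mem_univ _) (by rw [mem_filter]; exact ⟨mem_univ _, hne⟩)
  have h4 : (∑ s : Fin m, ∑ r, infl (g A s) r) ^ 2 ≤ m ^ 2 * (L * (2 ^ d) ^ 2) := by
    have h5 := Finset.sum_mul_sq_le_sq_mul_sq (univ : Finset (Fin m)) (fun _ => (1 : ℤ))
      (fun s => ((∑ r, infl (g A s) r : ℕ) : ℤ))
    simp only [one_mul, one_pow, Finset.sum_const, Finset.card_univ, Fintype.card_fin,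
      nsmul_eq_mul, mul_one] at h5
    have h6 : ∑ s : Fin m, ((∑ r, infl (g A s) r : ℕ) : ℤ) ^ 2 ≤
        m * ((L * (2 ^ d) ^ 2 : ℕ) : ℤ) := by
      refine (Finset.sum_le_sum (fun s _ => ?_ : ∀ s ∈ (univ : Finset (Fin m)),
        ((∑ r, infl (g A s) r : ℕ) : ℤ) ^ 2 ≤ ((L * (2 ^ d) ^ 2 : ℕ) : ℤ))).trans ?_
      · obtain ⟨L', hL', hf⟩ := hg A s
        exact_mod_cast (fml_influence hf).trans (Nat.mul_le_mul_right _ hL')
      · simp
    have h7 : (∑ s : Fin m, ((∑ r, infl (g A s) r : ℕ) : ℤ)) ^ 2 ≤
        m * (m * ((L * (2 ^ d) ^ 2 : ℕ) : ℤ)) :=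
      h5.trans (mul_le_mul_of_nonneg_left h6 (by positivity))
    have h8 : ((∑ s : Fin m, ∑ r, infl (g A s) r) ^ 2 : ℕ) ≤
        m * (m * (L * (2 ^ d) ^ 2)) := by exact_mod_cast h7
    refine h8.trans (le_of_eq ?_)
    ring
  have h5 : (2 ^ d * A.card) ^ 2 ≤ K ^ 2 * (m ^ 2 * (L * (2 ^ d) ^ 2)) := by
    calc (2 ^ d * A.card) ^ 2 ≤ (K * ∑ r ∈ A, chg c A {r}) ^ 2 := Nat.pow_le_pow_left h2 2
      _ ≤ (K * ∑ s : Fin m, ∑ r, infl (g A s) r) ^ 2 :=
          Nat.pow_le_pow_left (Nat.mul_le_mul_left _ h3) 2
      _ = K ^ 2 * (∑ s : Fin m, ∑ r, infl (g A s) r) ^ 2 := by ring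
      _ ≤ _ := Nat.mul_le_mul_left _ h4
  have h6 : A.card ^ 2 ≤ K ^ 2 * m ^ 2 * L := by
    have h7 : (2 ^ d) ^ 2 * A.card ^ 2 ≤ (2 ^ d) ^ 2 * (K ^ 2 * m ^ 2 * L) := by
      calc _ = (2 ^ d * A.card) ^ 2 := by ring
        _ ≤ _ := h5
        _ = _ := by ring
    exact le_of_mul_le_mul_left h7 (by positivity)
  have h7 : d < 2 * A.card := by omega
  have h8 : d ^ 2 < (2 * A.card) ^ 2 := Nat.pow_lt_pow_left h7 (by norm_num)
  have h9 : K ^ 2 ≤ (2 * k) ^ 2 := Nat.pow_le_pow_left (by omega) 2
  have h10 : (2 * A.card) ^ 2 ≤ 16 * k ^ 2 * m ^ 2 * L := by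
    calc (2 * A.card) ^ 2 = 4 * A.card ^ 2 := by ring
      _ ≤ 4 * (K ^ 2 * m ^ 2 * L) := Nat.mul_le_mul_left _ h6
      _ ≤ 4 * ((2 * k) ^ 2 * m ^ 2 * L) :=
          Nat.mul_le_mul_left _ (Nat.mul_le_mul_right _ (Nat.mul_le_mul_right _ h9))
      _ = _ := by ring
  omega

end Pool.Agent.Lib.Pfd3312.Low
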