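import Mathlib
import Pool.Agent.Lib.Pfd3312.LowAdd
import Pool.Agent.Lib.Pfd3312.Behrend

set_option autoImplicit false

/-!
Additive statistics with few values: colourings with few colours, and the numerical form of the
lower bound.
-/

namespace Pool.Agent.Lib.Pfd3312.Low

open Finset Pool.Agent.Lib.Pfd3312.Sub

/-- The colouring of `col_behrend` as a function of `(n2 x, W w x)`. -/
theorem good_behrend (d L k D : ℕ) (hL : 1 ≤ L) (hk : 0 < k)
    (hbig : 2 * d * (2 * d + 1) ^ L < (2 * k) ^ D) :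
    ∃ w : Fin d → ℕ, (∀ j, w j ≤ (2 * d + 1) ^ L) ∧
      (∀ x : Fin d → Fin 3, n2 x / L + sc (2 * k) D (W w x) <
        d / L + 2 ^ D * (D * (2 * k) ^ 2 + 1)) ∧
      Good (fun x : Fin d → Fin 3 => n2 x / L + sc (2 * k) D (W w x)) := by
  classical
  obtain ⟨w, hw1, hw2⟩ := exists_weights L d
  have hn2 : ∀ x : Fin d → Fin 3, n2 x ≤ d := by
    intro x
    unfold n2
    refine (Finset.card_filter_le _ _).trans ?_
    simp
  have hW : ∀ x : Fin d → Fin 3, W w x < (2 * k) ^ D := by
    intro x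
    refine lt_of_le_of_lt ?_ hbig
    unfold W
    have h1 : ∀ j ∈ (univ : Finset (Fin d)), w j * (x j : ℕ) ≤ (2 * d + 1) ^ L * 2 := by
      intro j _
      have := (x j).isLt
      exact Nat.mul_le_mul (hw1 j) (by omega)
    refine (Finset.sum_le_card_nsmul _ _ _ h1).trans ?_
    simp only [card_univ, Fintype.card_fin, smul_eq_mul]
    nlinarith
  have hlt : ∀ x : Fin d → Fin 3, n2 x / L + sc (2 * k) D (W w x) <
      d / L + 2 ^ D * (D * (2 * k) ^ 2 + 1) := by
    intro x
    have h1 := sc_lt (2 * k) D (W w x)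
    have h2 : n2 x / L ≤ d / L := Nat.div_le_div_right (hn2 x)
    omega
  refine ⟨w, hw1, hlt, ?_⟩
  rintro v ⟨j0, b0, hj0⟩ ⟨h01, h12⟩
  simp only at h01 h12
  -- the moving set
  set A : Finset (Fin d) := univ.filter (fun j => (v j).isRight) with hA
  set B : Finset (Fin d) := univ.filter (fun j => v j = Sum.inl 1) with hB
  have hdisj : Disjoint B A := by
    rw [Finset.disjoint_left]
    intro j hj1 hj2
    simp only [hB, hA, mem_filter, mem_univ, true_and] at hj1 hj2
    rw [hj1] at hj2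
    simp at hj2
  have hn0 : n2 (point v 0) = B.card := by
    unfold n2
    congr 1
    ext j
    simp only [hB, mem_filter, mem_univ, true_and, point]
    rcases hv : v j with a | b
    · simp
    · cases b <;> simp
  have hn2' : n2 (point v 2) = B.card := by
    unfold n2
    congr 1
    ext j
    simp only [hB, mem_filter, mem_univ, true_and, point]
    rcases hv : v j with a | b
    · simp
    · cases b <;> simp
  have hn1 : n2 (point v 1) = B.card + A.card := by
    rw [← Finset.card_union_of_disjoint hdisj]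
    unfold n2
    congr 1
    ext j
    simp only [hB, hA, mem_union, mem_filter, mem_univ, true_and, point]
    rcases hv : v j with a | b
    · simp
    · cases b <;> simp
  have hAne : 0 < A.card := Finset.card_pos.2 ⟨j0, by simp [hA, hj0]⟩
  have hmid : W w (point v 0) + W w (point v 2) = 2 * W w (point v 1) := by
    unfold W
    rw [← Finset.sum_add_distrib, Finset.mul_sum]
    refine Finset.sum_congr rfl fun j _ => ?_
    simp only [point]
    rcases hv : v j with a | b
    · simp only; ring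
    · cases b
      · simp [Fin.rev]; ring
      · simp; ring
  by_cases hWW : W w (point v 0) = W w (point v 2)
  · -- balanced line
    have hW1 : W w (point v 1) = W w (point v 0) := by omega
    have hAL : L ≤ A.card := by
      by_contra hcon
      push Not at hcon
      set e : Fin d → ℤ := fun j => match v j with
        | Sum.inl _ => 0
        | Sum.inr true => 1
        | Sum.inr false => -1 with he
      refine hw2 e ?_ ⟨j0, ?_⟩ ?_ ?_
      · intro j
        simp only [he]
        rcases v j with a | b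
        · simp
        · cases b <;> simp
      · simp only [he, hj0]
        cases b0 <;> simp
      · have : (univ.filter (fun j => e j ≠ 0)) = A := by
          ext j
          simp only [hA, he, mem_filter, mem_univ, true_and]
          rcases hv : v j with a | b
          · simp
          · cases b <;> simp
        rw [this]; exact hcon
      · have h2 : (2 : ℤ) * ∑ j, e j * (w j : ℤ) =
            (W w (point v 2) : ℤ) - (W w (point v 0) : ℤ) := by
          unfold W
          push_cast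
          rw [← Finset.sum_sub_distrib, Finset.mul_sum]
          refine Finset.sum_congr rfl fun j _ => ?_
          simp only [he, point]
          rcases hv : v j with a | b
          · simp
          · cases b
            · simp [Fin.rev]; ring
            · simp; ring
        rw [hWW] at h2
        have h3 : (2 : ℤ) * ∑ j, e j * (w j : ℤ) = 0 := by rw [h2]; ring
        exact (mul_eq_zero.1 h3).resolve_left (by norm_num)
    rw [hn0, hn1, hW1] at h01
    have hdiv : B.card / L + 1 ≤ (B.card + A.card) / L := by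
      have : (B.card + L) / L = B.card / L + 1 := Nat.add_div_right _ (by omega)
      rw [← this]
      exact Nat.div_le_div_right (by omega)
    omega
  · have hs : sc (2 * k) D (W w (point v 0)) = sc (2 * k) D (W w (point v 2)) := by
      rw [hn2'] at h12
      rw [hn0] at h01
      omega
    have hlt2 := sc_mid k hk D _ _ _ (hW _) (hW _) hmid hWW hs
    rw [hn0, hn1] at h01
    have hdiv : B.card / L ≤ (B.card + A.card) / L := Nat.div_le_div_right (by omega)
    omega

theorem addCol_lower {d k R : ℕ} (h : AddCol d k R) (L : ℕ) : (d - 2 * L * k).choose L ≤ R := by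
  obtain ⟨A, _, φ, F, hR, hF⟩ := h
  exact additive_lower φ F (good_of_generalPosition hF) R L hR

lemma aux_upper (L : ℕ) (hL : 1 ≤ L) : L * (4 * L + 5) * 128 ≤ 72 * 2 ^ (4 * L) := by
  induction L, hL using Nat.le_induction with
  | base => norm_num
  | succ L hL ih =>
    have e : 2 ^ (4 * (L + 1)) = 16 * 2 ^ (4 * L) := by
      rw [show 4 * (L + 1) = 4 * L + 4 by ring, pow_add]; ring
    rw [e]
    nlinarith

theorem addCol_upper {d k L : ℕ} (hL : 1 ≤ L) (hd : 2 ^ (16 * L) ≤ d) (hk : 73 * d ≤ L * k) :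
    AddCol d k ((2 * d + 1) ^ (L + 2)) := by
  classical
  have hd0 : 0 < d := lt_of_lt_of_le (by positivity) hd
  set l := Nat.log 2 d with hl
  have h1 : 2 ^ l ≤ d := Nat.pow_log_le_self 2 hd0.ne'
  have h2 : d < 2 ^ (l + 1) := Nat.lt_pow_succ_log_self (by norm_num) d
  have hlL : 16 * L ≤ l := by
    have : 2 ^ (16 * L) < 2 ^ (l + 1) := lt_of_le_of_lt hd h2
    have := (Nat.pow_lt_pow_iff_right (by norm_num : 1 < 2)).1 this
    omega
  set b := (l + 2) / 4 with hb
  have hbig : 2 * d * (2 * d + 1) ^ L < (2 * 2 ^ b) ^ (4 * (L + 1)) := by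
    have e1 : (2 * 2 ^ b) ^ (4 * (L + 1)) = (2 ^ (4 * (b + 1))) ^ (L + 1) := by
      rw [← pow_succ', ← pow_mul, ← pow_mul]
      congr 1; ring
    rw [e1]
    have e2 : 2 ^ (l + 2) ≤ 2 ^ (4 * (b + 1)) := Nat.pow_le_pow_right (by norm_num) (by omega)
    have e3 : 2 ^ (l + 2) = 2 * 2 ^ (l + 1) := by rw [pow_succ]; ring
    have e4 : 2 * d + 1 ≤ 2 ^ (4 * (b + 1)) := by omega
    calc 2 * d * (2 * d + 1) ^ L < (2 * d + 1) * (2 * d + 1) ^ L :=
          Nat.mul_lt_mul_of_pos_right (by omega) (by positivity)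
      _ = (2 * d + 1) ^ (L + 1) := by rw [pow_succ]; ring
      _ ≤ (2 ^ (4 * (b + 1))) ^ (L + 1) := Nat.pow_le_pow_left e4 _
  obtain ⟨w, hw, hlt, hgood⟩ := good_behrend d L (2 ^ b) (4 * (L + 1)) hL (by positivity) hbig
  have hcol : d / L + 2 ^ (4 * (L + 1)) * (4 * (L + 1) * (2 * 2 ^ b) ^ 2 + 1) ≤ k := by
    have hkey : 4 * L + 2 * (b + 1) + 4 ≤ 7 + (l - 4 * L) := by omega
    have e5 : 4 * (L + 1) * (2 * 2 ^ b) ^ 2 + 1 ≤ (4 * L + 5) * 2 ^ (2 * (b + 1)) := by
      have e6 : (2 * 2 ^ b) ^ 2 = 2 ^ (2 * (b + 1)) := by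
        rw [← pow_succ', ← pow_mul]; congr 1; ring
      rw [e6]
      have e7 : 1 ≤ 2 ^ (2 * (b + 1)) := Nat.one_le_two_pow
      nlinarith
    have e8 : 2 ^ (4 * (L + 1)) * (4 * (L + 1) * (2 * 2 ^ b) ^ 2 + 1) ≤
        (4 * L + 5) * 128 * 2 ^ (l - 4 * L) := by
      calc 2 ^ (4 * (L + 1)) * (4 * (L + 1) * (2 * 2 ^ b) ^ 2 + 1)
          ≤ 2 ^ (4 * (L + 1)) * ((4 * L + 5) * 2 ^ (2 * (b + 1))) := Nat.mul_le_mul_left _ e5
        _ = (4 * L + 5) * 2 ^ (4 * L + 2 * (b + 1) + 4) := by
            rw [show 4 * L + 2 * (b + 1) + 4 = 4 * (L + 1) + 2 * (b + 1) by ring, pow_add]; ring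
        _ ≤ (4 * L + 5) * 2 ^ (7 + (l - 4 * L)) :=
            Nat.mul_le_mul_left _ (Nat.pow_le_pow_right (by norm_num) hkey)
        _ = (4 * L + 5) * 128 * 2 ^ (l - 4 * L) := by rw [pow_add]; ring
    have e9 : L * ((4 * L + 5) * 128 * 2 ^ (l - 4 * L)) ≤ 72 * d := by
      have e10 : 2 ^ l = 2 ^ (4 * L) * 2 ^ (l - 4 * L) := by
        rw [← pow_add]; congr 1; omega
      calc L * ((4 * L + 5) * 128 * 2 ^ (l - 4 * L))
          = (L * (4 * L + 5) * 128) * 2 ^ (l - 4 * L) := by ring
        _ ≤ (72 * 2 ^ (4 * L)) * 2 ^ (l - 4 * L) := Nat.mul_le_mul_right _ (aux_upper L hL)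
        _ = 72 * 2 ^ l := by rw [e10]; ring
        _ ≤ 72 * d := Nat.mul_le_mul_left _ h1
    have e11 : L * (d / L) ≤ d := Nat.mul_div_le d L
    have e12 : L * (d / L + 2 ^ (4 * (L + 1)) * (4 * (L + 1) * (2 * 2 ^ b) ^ 2 + 1)) ≤ L * k := by
      refine le_trans ?_ hk
      rw [mul_add]
      have := Nat.mul_le_mul_left L e8
      omega
    exact Nat.le_of_mul_le_mul_left e12 (by omega)
  have hkpos : 0 < k := by
    rcases Nat.eq_zero_or_pos k with h | h
    · subst h; omega
    · exact h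
  -- the statistic
  set φ : Fin d → Fin 3 → ℤ × ℤ := fun i a => ((if a = 1 then 1 else 0), (w i * (a : ℕ) : ℕ))
    with hφ
  have hsum : ∀ x : Fin d → Fin 3, ∑ i, φ i (x i) = ((n2 x : ℤ), (W w x : ℤ)) := by
    intro x
    rw [Prod.ext_iff]
    constructor
    · simp only [hφ, Prod.fst_sum, n2]
      rw [Finset.sum_boole]
    · simp only [hφ, Prod.snd_sum, W]
      push_cast
      rfl
  let F : ℤ × ℤ → Fin k := fun p =>
    if h : p.1.toNat / L + sc (2 * 2 ^ b) (4 * (L + 1)) p.2.toNat < k then ⟨_, h⟩ else ⟨0, hkpos⟩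
  have hF : ∀ x : Fin d → Fin 3, (F (∑ i, φ i (x i)) : ℕ) =
      n2 x / L + sc (2 * 2 ^ b) (4 * (L + 1)) (W w x) := by
    intro x
    rw [hsum]
    have h3 := lt_of_lt_of_le (hlt x) hcol
    have h4 : ((n2 x : ℤ)).toNat / L + sc (2 * 2 ^ b) (4 * (L + 1)) ((W w x : ℤ)).toNat < k := by
      simpa using h3
    simp only [F, dif_pos h4, Int.toNat_natCast]
  refine ⟨ℤ × ℤ, inferInstance, φ, F, ?_, ?_⟩
  · have hsub : Set.range (fun x : Fin d → Fin 3 => ∑ i, φ i (x i)) ⊆
        ((Finset.range (d + 1) ×ˢ Finset.range (2 * d * (2 * d + 1) ^ L + 1)).image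
          (fun p : ℕ × ℕ => ((p.1 : ℤ), (p.2 : ℤ))) : Finset (ℤ × ℤ)) := by
      rintro _ ⟨x, rfl⟩
      simp only [hsum]
      rw [Finset.mem_coe, Finset.mem_image]
      refine ⟨(n2 x, W w x), ?_, rfl⟩
      rw [Finset.mem_product, Finset.mem_range, Finset.mem_range]
      constructor
      · show n2 x < d + 1
        unfold n2
        have := Finset.card_filter_le (univ : Finset (Fin d)) (fun j => x j = 1)
        simp at this ⊢
        omega
      · show W w x < 2 * d * (2 * d + 1) ^ L + 1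
        unfold W
        have h1 : ∀ j ∈ (univ : Finset (Fin d)), w j * (x j : ℕ) ≤ (2 * d + 1) ^ L * 2 := by
          intro j _
          have := (x j).isLt
          exact Nat.mul_le_mul (hw j) (by omega)
        have h2 := Finset.sum_le_card_nsmul _ _ _ h1
        simp only [card_univ, Fintype.card_fin, smul_eq_mul] at h2
        have h3 : d * ((2 * d + 1) ^ L * 2) = 2 * d * (2 * d + 1) ^ L := by ring
        omega
    have h5 := Set.ncard_le_ncard hsub (Finset.finite_toSet _)
    rw [Set.ncard_coe_finset] at h5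
    refine h5.trans (Finset.card_image_le.trans ?_)
    rw [Finset.card_product, Finset.card_range, Finset.card_range]
    have h6 : 1 ≤ (2 * d + 1) ^ L := Nat.one_le_pow _ _ (by omega)
    calc (d + 1) * (2 * d * (2 * d + 1) ^ L + 1) ≤ (2 * d + 1) * ((2 * d + 1) * (2 * d + 1) ^ L) :=
          Nat.mul_le_mul (by omega) (by nlinarith)
      _ = (2 * d + 1) ^ (L + 2) := by rw [pow_add]; ring
  · have hg : Good (fun x : Fin d → Fin 3 => F (∑ i, φ i (x i))) := by
      intro v hv ⟨h3, h4⟩
      refine hgood v hv ⟨?_, ?_⟩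
      · have := congrArg Fin.val h3
        simpa only [hF] using this
      · have := congrArg Fin.val h4
        simpa only [hF] using this
    exact fun a => hg.generalPosition a

lemma aux_exp (L : ℕ) (hL : 1 ≤ L) : 8 * L + 20 ≤ 2 ^ (L + 4) := by
  induction L, hL using Nat.le_induction with
  | base => norm_num
  | succ L hL ih =>
    have e : 2 ^ (L + 1 + 4) = 2 * 2 ^ (L + 4) := by ring
    omega

theorem addCol_lower' {d k L : ℕ} (hL : 1 ≤ L) (hd : 2 ^ (16 * L) ≤ d)
    (h : AddCol d k ((2 * d + 1) ^ (L + 2))) : d < 8 * (L + 3) * k := by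
  by_contra hcon
  push Not at hcon
  set r := 2 * L + 5 with hr
  have hch := addCol_lower h r
  set n := d - 2 * r * k with hn
  have h2n : d ≤ 2 * n := by
    have : 2 * (2 * r * k) ≤ d := by
      refine le_trans ?_ hcon
      rw [hr]; nlinarith
    omega
  have hL16 : 16 * L < 2 ^ (16 * L) := Nat.lt_two_pow_self
  have hd4 : 8 * L + 20 ≤ d := by
    refine le_trans (aux_exp L hL) (le_trans ?_ hd)
    exact Nat.pow_le_pow_right (by norm_num) (by omega)
  have hd0 : 0 < d := by omega
  have h4 : d ≤ 4 * (n + 1 - r) := by omega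
  -- lower bound for the binomial coefficient
  have hbin : (n + 1 - r) ^ r ≤ r ^ r * n.choose r := by
    have h5 := Nat.pow_le_choose (α := ℚ) r n
    rw [div_le_iff₀ (by positivity)] at h5
    have h6 : (n + 1 - r) ^ r ≤ n.choose r * r.factorial := by exact_mod_cast h5
    refine h6.trans ?_
    rw [mul_comm]
    exact Nat.mul_le_mul_right _ (Nat.factorial_le_pow r)
  have h7 : d ^ r ≤ (4 * r) ^ r * (2 * d + 1) ^ (L + 2) := by
    calc d ^ r ≤ (4 * (n + 1 - r)) ^ r := Nat.pow_le_pow_left h4 _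
      _ = 4 ^ r * (n + 1 - r) ^ r := by rw [mul_pow]
      _ ≤ 4 ^ r * (r ^ r * n.choose r) := Nat.mul_le_mul_left _ hbin
      _ ≤ 4 ^ r * (r ^ r * (2 * d + 1) ^ (L + 2)) :=
          Nat.mul_le_mul_left _ (Nat.mul_le_mul_left _ hch)
      _ = (4 * r) ^ r * (2 * d + 1) ^ (L + 2) := by rw [mul_pow]; ring
  have h8 : (4 * r) ^ r ≤ 2 ^ ((L + 4) * r) := by
    rw [pow_mul]
    refine Nat.pow_le_pow_left ?_ _
    have := aux_exp L hL
    omega
  have h9 : (2 * d + 1) ^ (L + 2) ≤ 2 ^ (2 * (L + 2)) * d ^ (L + 2) := by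
    calc (2 * d + 1) ^ (L + 2) ≤ (4 * d) ^ (L + 2) := Nat.pow_le_pow_left (by omega) _
      _ = 2 ^ (2 * (L + 2)) * d ^ (L + 2) := by
          rw [mul_pow, pow_mul]; norm_num
  have h10 : d ^ (L + 3) ≤ 2 ^ ((L + 4) * r + 2 * (L + 2)) := by
    have e : d ^ r = d ^ (L + 3) * d ^ (L + 2) := by
      rw [← pow_add]; congr 1; omega
    have h11 : d ^ (L + 3) * d ^ (L + 2) ≤ 2 ^ ((L + 4) * r + 2 * (L + 2)) * d ^ (L + 2) := by
      rw [← e]
      calc d ^ r ≤ (4 * r) ^ r * (2 * d + 1) ^ (L + 2) := h7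
        _ ≤ 2 ^ ((L + 4) * r) * (2 ^ (2 * (L + 2)) * d ^ (L + 2)) := Nat.mul_le_mul h8 h9
        _ = 2 ^ ((L + 4) * r + 2 * (L + 2)) * d ^ (L + 2) := by rw [pow_add]; ring
    exact Nat.le_of_mul_le_mul_right h11 (by positivity)
  have h12 : 2 ^ (16 * L * (L + 3)) ≤ d ^ (L + 3) := by
    rw [pow_mul]
    exact Nat.pow_le_pow_left hd _
  have h13 : 16 * L * (L + 3) ≤ (L + 4) * r + 2 * (L + 2) :=
    (Nat.pow_le_pow_iff_right (by norm_num : 1 < 2)).1 (h12.trans h10)
  rw [hr] at h13
  nlinarith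

end Pool.Agent.Lib.Pfd3312.Low
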