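import Mathlib
import Pool.Agent.Lib.Pfd3312.LowUp
import Pool.Agent.Lib.Pfd3312.LowSup

set_option autoImplicit false

/-!
Lower bounds for the number of colours of colourings of `{1,2,3}^d` of low complexity: the classes
and the bounds.
-/

namespace Pool.Agent.Lib.Pfd3312.Low

open Finset

/-- One pass colourings on every support: `{1,2,3}^d` has a colouring `c` with `k` colours and all
classes in general position and an order `σ` of the coordinates such that for every set `A` and
every `n` the colours of the points with support `A` (the points with the coordinate `2` exactly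
off `A`), as a function of the signs of the coordinates which are not among the first `n`, are one
of at most `w` functions when the signs of the first `n` coordinates vary. -/
def PassCol (d k w : ℕ) : Prop :=
  ∃ (c : (Fin d → Fin 3) → Fin k) (σ : Equiv.Perm (Fin d)),
    (∀ (A : Finset (Fin d)) (n : ℕ), (Set.range (sub c σ A n)).ncard ≤ w) ∧
    ∀ a, GeneralPosition (c ⁻¹' {a})

/-- Additive statistics on every support: `{1,2,3}^d` has a colouring `c` with `k` colours and all
classes in general position such that for every set `A` the colour of the points with support `A`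
is a function of `∑ δ r`, over the `r` in `A` where the coordinate is `3`, with `δ r` in an abelian
group, and this sum takes at most `R` values. Everything may depend on `A`. -/
def SupCol (d k R : ℕ) : Prop :=
  ∃ c : (Fin d → Fin 3) → Fin k,
    (∀ A : Finset (Fin d), ∃ (G : Type) (_ : AddCommGroup G) (δ : Fin d → G) (F : G → Fin k),
      (Set.range (fun T : Finset (Fin d) => ∑ r ∈ T ∩ A, δ r)).ncard ≤ R ∧
      ∀ T, c (sgn A (ind T)) = F (∑ r ∈ T ∩ A, δ r)) ∧
    ∀ a, GeneralPosition (c ⁻¹' {a})

/-- Products in a monoid: `{1,2,3}^d` has a colouring with `k` colours and all classes in general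
position which is a function of a product `φ 0 (x (τ 0)) * φ 1 (x (τ 1)) * ...`, `τ` an order of
the coordinates, in a monoid with at most `R` elements. -/
def MonCol (d k R : ℕ) : Prop :=
  ∃ (M : Type) (_ : Monoid M) (_ : Fintype M) (τ : Equiv.Perm (Fin d)) (φ : Fin d → Fin 3 → M)
    (F : M → Fin k), Fintype.card M ≤ R ∧
    ∀ a, GeneralPosition ((fun x : Fin d → Fin 3 =>
      F (List.ofFn (fun q : Fin d => φ q (x (τ q)))).prod) ⁻¹' {a})

theorem passCol_lower {d k S : ℕ} (h : PassCol d k (2 ^ S)) : 2 * d < S * (k * (k + 1)) + 2 * k := by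
  obtain ⟨c, σ, hw, hg⟩ := h
  exact sup_lower (good_of_generalPosition hg) σ S hw

theorem monCol_lower {d k S : ℕ} (h : MonCol d k (2 ^ S)) : d < (S + 1) * k := by
  obtain ⟨M, _, _, τ, φ, F, hM, hg⟩ := h
  have h1 := good_of_generalPosition hg
  refine monoid_lower τ.symm φ F ?_ S hM
  unfold mprod
  simpa using h1

theorem supCol_lower {d k R : ℕ} (h : SupCol d k R) (L : ℕ) :
    (d - 2 * L * k).choose L ≤ R ^ k := by
  obtain ⟨c, hA, hg⟩ := h
  choose G iG δ F hR hF using hA
  exact supadd_lower (good_of_generalPosition hg) R G δ F hR hF L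

theorem supCol_lower' {d k p : ℕ} (hp : 1 ≤ p) (h : SupCol d k (k ^ p)) : d < 4 * p * k ^ 2 := by
  by_contra hcon
  push Not at hcon
  have hk : 0 < k := by
    obtain ⟨c, -⟩ := h
    exact lt_of_le_of_lt (Nat.zero_le _) (c (fun _ => 0)).isLt
  set L := p * k with hL
  have hLk : p ≤ L := Nat.le_mul_of_pos_right p hk
  have hL0 : 0 < L := by omega
  have hch := supCol_lower h L
  set n := d - 2 * L * k with hn
  have e1 : 2 * L * k = 2 * p * k ^ 2 := by rw [hL]; ring
  have hn2 : 2 * p * k ^ 2 ≤ n := by
    have : 4 * p * k ^ 2 = 2 * p * k ^ 2 + 2 * p * k ^ 2 := by ring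
    omega
  have hLsq : L ≤ p * k ^ 2 := by rw [hL]; nlinarith
  have hbin : (n + 1 - L) ^ L ≤ L ^ L * n.choose L := by
    have h5 := Nat.pow_le_choose (α := ℚ) L n
    rw [div_le_iff₀ (by positivity)] at h5
    have h6 : (n + 1 - L) ^ L ≤ n.choose L * L.factorial := by exact_mod_cast h5
    refine h6.trans ?_
    rw [mul_comm]
    exact Nat.mul_le_mul_right _ (Nat.factorial_le_pow L)
  have h7 : (n + 1 - L) ^ L ≤ (L * k) ^ L := by
    calc (n + 1 - L) ^ L ≤ L ^ L * n.choose L := hbin
      _ ≤ L ^ L * (k ^ p) ^ k := Nat.mul_le_mul_left _ hch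
      _ = (L * k) ^ L := by rw [← pow_mul, ← hL, ← mul_pow]
  have h8 : n + 1 - L ≤ L * k := (Nat.pow_le_pow_iff_left hL0.ne').1 h7
  have h9 : L * k = p * k ^ 2 := by rw [hL]; ring
  have h10 : 2 * p * k ^ 2 = p * k ^ 2 + p * k ^ 2 := by ring
  omega

end Pool.Agent.Lib.Pfd3312.Low
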