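import Mathlib
import Pool.Agent.Lib.Pfd3312.LowNoise

set_option autoImplicit false

/-!
Colourings of `{1,2,3}^d` which on every support change only a few times along every increasing
chain of sign vectors.
-/

namespace Pool.Agent.Lib.Pfd3312.Low

open Finset

variable {d k : ℕ}

/-- Moves the positions `q, ..., q + j - 1` to the end. -/
def rot (d q j : ℕ) (h : q + j ≤ d) : Equiv.Perm (Fin d) where
  toFun x := ⟨if (x : ℕ) < q then x else if (x : ℕ) < q + j then x - q + (d - j) else x - j, by
    have := x.2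
    split_ifs <;> omega⟩
  invFun y := ⟨if (y : ℕ) < q then y else if (y : ℕ) < d - j then y + j else y - (d - j) + q, by
    have := y.2
    split_ifs <;> omega⟩
  left_inv x := by
    have := x.2
    ext
    simp only
    split_ifs <;> omega
  right_inv y := by
    have := y.2
    ext
    simp only
    split_ifs <;> omega

lemma rot_val (d q j : ℕ) (h : q + j ≤ d) (x : Fin d) : ((rot d q j h x : Fin d) : ℕ) =
    if (x : ℕ) < q then (x : ℕ) else if (x : ℕ) < q + j then x - q + (d - j) else x - j := rfl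

/-- The indicator of a change between the levels `p` and `p + 1` on the support of the first `d - j`
coordinates. -/
def phi (c : (Fin d → Fin 3) → Fin k) (e : Fin d → Bool) (j : ℕ) (ρ : Equiv.Perm (Fin d))
    (p : ℕ) : ℕ :=
  if c (sgn (univ.filter (fun r => (ρ r : ℕ) < d - j)) (fun r => decide ((ρ r : ℕ) < p) ^^ e r)) ≠
    c (sgn (univ.filter (fun r => (ρ r : ℕ) < d - j)) (fun r => decide ((ρ r : ℕ) < p + 1) ^^ e r))
  then 1 else 0

lemma sum_phi {c : (Fin d → Fin 3) → Fin k} {e : Fin d → Bool} {M : ℕ} (h : AltLe c e M) (j : ℕ)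
    (ρ : Equiv.Perm (Fin d)) : ∑ p ∈ range d, phi c e j ρ p ≤ M := by
  refine h (univ.filter (fun r => (ρ r : ℕ) < d - j)) (fun p r => decide ((ρ r : ℕ) < p)) ?_
  intro p p' hpp r
  simp only
  by_cases h1 : (ρ r : ℕ) < p
  · have h2 : (ρ r : ℕ) < p' := lt_of_lt_of_le h1 hpp
    simp [h1, h2]
  · simp only [h1, decide_false]
    exact Bool.false_le _

theorem alt_sum {c : (Fin d → Fin 3) → Fin k} (hc : Good c) {e : Fin d → Bool} {M w : ℕ}
    (h : AltLe c e M) (hw : w ≤ d) : 2 * (w + 1) * (d - w + 1) ≤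
      2 * k * (d - w + 1) + w * (w + 1) * M := by
  classical
  set N := Fintype.card (Equiv.Perm (Fin d)) with hN
  have hN0 : 0 < N := Fintype.card_pos
  -- the chain for `π` and `q`
  let A : ℕ → Equiv.Perm (Fin d) → ℕ → Finset (Fin d) := fun q π i =>
    univ.filter (fun r => ¬ (q ≤ (π r : ℕ) ∧ (π r : ℕ) < q + i))
  let V : ℕ → Equiv.Perm (Fin d) → Fin d → Bool := fun q π r => decide ((π r : ℕ) < q) ^^ e r
  let H : ℕ → ℕ → ℕ → Equiv.Perm (Fin d) → ℕ := fun j i q π =>
    if c (sgn (A q π j) (flp (A q π j \ A q π i) (V q π))) ≠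
      c (sgn (A q π j) (flp (A q π j \ A q π (i + 1)) (V q π))) then 1 else 0
  have h1 : ∀ q ≤ d - w, ∀ π : Equiv.Perm (Fin d),
      w + 1 ≤ k + ∑ j ∈ range w, ∑ i ∈ Ico j w, H j i q π := by
    intro q hq π
    refine chain_one hc w (A q π) ?_ (V q π)
    intro i hi
    rw [Finset.ssubset_iff_of_subset]
    · refine ⟨π.symm ⟨q + i, by omega⟩, ?_, ?_⟩
      · simp [A]
      · simp [A]
    · intro r hr
      simp only [A, mem_filter, mem_univ, true_and, not_and, not_lt] at hr ⊢
      intro h2
      have := hr h2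
      omega
  -- the change of variables
  have h2 : ∀ j i q, j ≤ i → i < w → q ≤ d - w → ∀ π : Equiv.Perm (Fin d), ∀ hqj : q + j ≤ d,
      H j i q π = phi c e j (rot d q j hqj * π) (q + (i - j)) := by
    intro j i q hji hi hq π hqj
    have e1 : A q π j = univ.filter (fun r => ((rot d q j hqj * π) r : ℕ) < d - j) := by
      ext r
      have hr := (π r).2
      simp only [A, mem_filter, mem_univ, true_and, Equiv.Perm.mul_apply, rot_val]
      split_ifs <;> omega
    have e2 : ∀ i', j ≤ i' → i' ≤ w → flp (A q π j \ A q π i') (V q π) =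
        fun r => decide (((rot d q j hqj * π) r : ℕ) < q + (i' - j)) ^^ e r := by
      intro i' hi' hiw
      funext r
      have hr := (π r).2
      have e3 : r ∈ A q π j \ A q π i' ↔ q + j ≤ (π r : ℕ) ∧ (π r : ℕ) < q + i' := by
        simp only [A, Finset.mem_sdiff, mem_filter, mem_univ, true_and]
        omega
      unfold flp
      simp only [e3, V]
      have e4 : ((rot d q j hqj * π) r : ℕ) < q + (i' - j) ↔
          ((π r : ℕ) < q ∨ (q + j ≤ (π r : ℕ) ∧ (π r : ℕ) < q + i')) := by
        simp only [Equiv.Perm.mul_apply, rot_val]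
        split_ifs <;> omega
      simp only [e4]
      by_cases h3 : (π r : ℕ) < q
      · have h4 : ¬ (q + j ≤ (π r : ℕ) ∧ (π r : ℕ) < q + i') := by omega
        simp [h3, h4]
      · by_cases h4 : q + j ≤ (π r : ℕ) ∧ (π r : ℕ) < q + i'
        · simp [h3, h4]
        · simp [h3, h4]
    simp only [H, phi]
    rw [e2 i hji (by omega), e2 (i + 1) (by omega) (by omega), ← e1]
    have e5 : q + (i + 1 - j) = q + (i - j) + 1 := by omega
    rw [e5]
  have h3 : ∀ j i, j ≤ i → i < w →
      ∑ q ∈ range (d - w + 1), ∑ π : Equiv.Perm (Fin d), H j i q π ≤ N * M := by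
    intro j i hji hi
    have h4 : ∀ q ∈ range (d - w + 1), ∑ π : Equiv.Perm (Fin d), H j i q π =
        ∑ ρ : Equiv.Perm (Fin d), phi c e j ρ (q + (i - j)) := by
      intro q hq
      rw [mem_range] at hq
      have hqj : q + j ≤ d := by omega
      rw [← Equiv.sum_comp (Equiv.mulLeft (rot d q j hqj))
        (fun ρ => phi c e j ρ (q + (i - j)))]
      refine Finset.sum_congr rfl fun π _ => ?_
      exact h2 j i q hji hi (by omega) π hqj
    rw [Finset.sum_congr rfl h4, Finset.sum_comm]
    have h5 : ∀ ρ ∈ (univ : Finset (Equiv.Perm (Fin d))),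
        ∑ q ∈ range (d - w + 1), phi c e j ρ (q + (i - j)) ≤ M := by
      intro ρ _
      refine le_trans ?_ (sum_phi h j ρ)
      rw [← Finset.sum_image (f := phi c e j ρ) (g := fun q => q + (i - j))
        (s := range (d - w + 1)) (by
          intro a _ b _ hab
          simpa using hab)]
      refine Finset.sum_le_sum_of_subset ?_
      intro p hp
      rw [mem_image] at hp
      obtain ⟨q, hq, rfl⟩ := hp
      rw [mem_range] at hq ⊢
      omega
    refine (Finset.sum_le_sum h5).trans (le_of_eq ?_)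
    rw [Finset.sum_const, Finset.card_univ, smul_eq_mul]
  have h4 : (d - w + 1) * (N * (w + 1)) ≤ (d - w + 1) * (N * k) +
      ∑ j ∈ range w, ∑ i ∈ Ico j w,
        ∑ q ∈ range (d - w + 1), ∑ π : Equiv.Perm (Fin d), H j i q π := by
    have h5 : ∀ q ∈ range (d - w + 1), N * (w + 1) ≤ N * k +
        ∑ j ∈ range w, ∑ i ∈ Ico j w, ∑ π : Equiv.Perm (Fin d), H j i q π := by
      intro q hq
      rw [mem_range] at hq
      have h6 := Finset.sum_le_sum (fun (π : Equiv.Perm (Fin d))
        (_ : π ∈ (univ : Finset (Equiv.Perm (Fin d)))) => h1 q (by omega) π)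
      rw [Finset.sum_const, Finset.sum_add_distrib, Finset.sum_const, Finset.card_univ,
        smul_eq_mul, smul_eq_mul, Finset.sum_comm] at h6
      refine h6.trans (Nat.add_le_add_left (le_of_eq ?_) _)
      refine Finset.sum_congr rfl fun j _ => ?_
      rw [Finset.sum_comm]
    have h6 := Finset.sum_le_sum h5
    rw [Finset.sum_const, Finset.sum_add_distrib, Finset.sum_const, Finset.card_range,
      smul_eq_mul, smul_eq_mul, Finset.sum_comm] at h6
    refine h6.trans (Nat.add_le_add_left (le_of_eq ?_) _)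
    refine Finset.sum_congr rfl fun j _ => ?_
    rw [Finset.sum_comm]
  have h5 : 2 * ∑ j ∈ range w, ∑ i ∈ Ico j w,
        ∑ q ∈ range (d - w + 1), ∑ π : Equiv.Perm (Fin d), H j i q π ≤
      w * (w + 1) * (N * M) := by
    rw [← two_mul_sum w, mul_assoc, Finset.sum_mul]
    refine Nat.mul_le_mul_left 2 ?_
    refine Finset.sum_le_sum fun j _ => ?_
    have h6 : ∀ i ∈ Ico j w, ∑ q ∈ range (d - w + 1), ∑ π : Equiv.Perm (Fin d), H j i q π ≤
        N * M := by
      intro i hi
      rw [mem_Ico] at hi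
      exact h3 j i hi.1 hi.2
    refine (Finset.sum_le_sum h6).trans (le_of_eq ?_)
    rw [Finset.sum_const, Nat.card_Ico, smul_eq_mul]
  have h6 : N * (2 * (w + 1) * (d - w + 1)) ≤
      N * (2 * k * (d - w + 1) + w * (w + 1) * M) := by
    calc N * (2 * (w + 1) * (d - w + 1)) = 2 * ((d - w + 1) * (N * (w + 1))) := by ring
      _ ≤ 2 * ((d - w + 1) * (N * k)) + w * (w + 1) * (N * M) := by omega
      _ = _ := by ring
  exact le_of_mul_le_mul_left h6 hN0

/-- A partition which changes at most `M` times along increasing chains has at least about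
`d / (2 (M + 1))` sets. -/
theorem alt_lower {c : (Fin d → Fin 3) → Fin k} (hc : Good c) (hk : 1 ≤ k) {e : Fin d → Bool}
    {M : ℕ} (h : AltLe c e M) : d < (2 * k - 1) * (M + 1) := by
  by_contra hcon
  push Not at hcon
  have h0 : 2 * k - 1 ≤ (2 * k - 1) * (M + 1) := Nat.le_mul_of_pos_right _ (by omega)
  have h1 := alt_sum hc h (show 2 * k - 1 ≤ d by omega)
  set n := d - (2 * k - 1) + 1 with hn
  have e1 : 2 * k - 1 + 1 = 2 * k := by omega
  rw [e1] at h1
  have h2 : 2 * k * n ≤ (2 * k) * ((2 * k - 1) * M) := by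
    have h3 : 2 * (2 * k) * n = 2 * k * n + 2 * k * n := by ring
    have h4 : (2 * k - 1) * (2 * k) * M = (2 * k) * ((2 * k - 1) * M) := by ring
    omega
  have h3 : n ≤ (2 * k - 1) * M := le_of_mul_le_mul_left h2 (by omega)
  have h4 : (2 * k - 1) * (M + 1) = (2 * k - 1) * M + (2 * k - 1) := by ring
  omega

end Pool.Agent.Lib.Pfd3312.Low
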