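import Mathlib
import Pool.Agent.Lib.Pfd3312.LowNoise

set_option autoImplicit false

/-!
Colourings of `{1,2,3}^d` without monochromatic line which are invariant under isometries of order
two of the cube.
-/

namespace Pool.Agent.Lib.Pfd3312.Low

open Finset

variable {d k : ℕ}

/-- The isometry of the cube which permutes the coordinates by `τ` and then reverses (exchanges the
values `1` and `3`, written `0` and `2`) those in `ε`. -/
def iso (τ : Equiv.Perm (Fin d)) (ε : Fin d → Bool) (x : Fin d → Fin 3) : Fin d → Fin 3 :=
  fun r => if ε r then Fin.rev (x (τ r)) else x (τ r)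

/-- The coordinates which are moved or reversed. -/
def mv (τ : Equiv.Perm (Fin d)) (ε : Fin d → Bool) : Finset (Fin d) :=
  univ.filter (fun r => τ r ≠ r ∨ ε r = true)

lemma iso_sgn {τ : Equiv.Perm (Fin d)} {ε : Fin d → Bool} {A : Finset (Fin d)}
    (hA : ∀ r, τ r ∈ A ↔ r ∈ A) {u : Fin d → Bool} (hu : ∀ r ∈ mv τ ε, (u (τ r) ^^ ε r) = !(u r)) :
    iso τ ε (sgn A u) = sgn A (flp (mv τ ε) u) := by
  funext r
  unfold iso sgn flp
  by_cases h1 : r ∈ A
  · have h2 : τ r ∈ A := (hA r).2 h1
    by_cases h3 : r ∈ mv τ ε
    · have h4 := hu r h3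
      simp only [h1, h2, h3, if_true]
      generalize u (τ r) = x at *
      generalize u r = y at *
      generalize ε r = z at *
      cases x <;> cases y <;> cases z <;> simp_all
    · simp only [mv, mem_filter, mem_univ, true_and, not_or, not_not] at h3
      have h5 : ε r = false := by simpa using h3.2
      simp only [h1, h3.1, h5, if_true]
      simp [mv, h3.1, h5]
  · have h2 : τ r ∉ A := fun h => h1 ((hA r).1 h)
    simp only [h1, h2, if_false]
    cases ε r <;> simp

/-- A colouring which is invariant under `m` nontrivial isometries of order two with disjoint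
supports has more than `m` colours. -/
theorem sym_lower {c : (Fin d → Fin 3) → Fin k} (hc : Good c) {m : ℕ}
    (τ : Fin m → Equiv.Perm (Fin d)) (ε : Fin m → Fin d → Bool)
    (hinv : ∀ i x, iso (τ i) (ε i) (iso (τ i) (ε i) x) = x)
    (hne : ∀ i, (mv (τ i) (ε i)).Nonempty)
    (hdis : ∀ i j, i ≠ j → Disjoint (mv (τ i) (ε i)) (mv (τ j) (ε j)))
    (hcinv : ∀ i x, c (iso (τ i) (ε i) x) = c x) : m < k := by
  classical
  -- the involution property
  have hττ : ∀ i r, τ i (τ i r) = r := by
    intro i r
    by_contra hne
    have h1 := congrFun (hinv i (fun s => if s = r then 0 else 1)) r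
    simp only [iso] at h1
    rw [if_neg hne] at h1
    cases h2 : ε i r <;> cases h3 : ε i (τ i r) <;> simp [h2, h3] at h1
  have hεε : ∀ i r, ε i (τ i r) = ε i r := by
    intro i r
    have h1 := congrFun (hinv i (fun _ => 0)) r
    simp only [iso] at h1
    cases h2 : ε i r <;> cases h3 : ε i (τ i r) <;> simp [h2, h3] at h1 ⊢
  have hmem : ∀ i r, τ i r ∈ mv (τ i) (ε i) ↔ r ∈ mv (τ i) (ε i) := by
    intro i r
    simp only [mv, mem_filter, mem_univ, true_and, hττ, hεε]
    constructor
    · rintro (h | h)
      · exact Or.inl (fun h' => h h'.symm)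
      · exact Or.inr h
    · rintro (h | h)
      · exact Or.inl (fun h' => h h'.symm)
      · exact Or.inr h
  have hfix : ∀ i r, r ∉ mv (τ i) (ε i) → τ i r = r := by
    intro i r h
    simp only [mv, mem_filter, mem_univ, true_and, not_or, not_not] at h
    exact h.1
  have huniq : ∀ i j r, r ∈ mv (τ i) (ε i) → r ∈ mv (τ j) (ε j) → i = j := by
    intro i j r h1 h2
    by_contra h
    exact (Finset.disjoint_left.1 (hdis i j h)) h1 h2
  -- the sign vector
  obtain ⟨v, hv⟩ : ∃ v : Fin d → Bool, ∀ i, ∀ r ∈ mv (τ i) (ε i), (v (τ i r) ^^ ε i r) = !(v r) := by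
    refine ⟨fun s => decide (∃ i, s < τ i s) || decide (∃ i, τ i s < s ∧ ε i s = true), ?_⟩
    intro i r hr
    have hr' := (hmem i r).2 hr
    have e1 : ∀ s ∈ mv (τ i) (ε i), (∃ j, s < τ j s) ↔ s < τ i s := by
      intro s hs
      constructor
      · rintro ⟨j, hj⟩
        have h1 : s ∈ mv (τ j) (ε j) := by
          by_contra h
          rw [hfix j s h] at hj
          exact lt_irrefl _ hj
        rw [huniq i j s hs h1]
        exact hj
      · exact fun h => ⟨i, h⟩
    have e2 : ∀ s ∈ mv (τ i) (ε i), (∃ j, τ j s < s ∧ ε j s = true) ↔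
        (τ i s < s ∧ ε i s = true) := by
      intro s hs
      constructor
      · rintro ⟨j, hj, hj'⟩
        have h1 : s ∈ mv (τ j) (ε j) := by
          by_contra h
          rw [hfix j s h] at hj
          exact lt_irrefl _ hj
        rw [huniq i j s hs h1]
        exact ⟨hj, hj'⟩
      · exact fun h => ⟨i, h⟩
    simp only [e1 r hr, e1 _ hr', e2 r hr, e2 _ hr', hττ, hεε]
    rcases lt_trichotomy r (τ i r) with h | h | h
    · have h' : ¬ τ i r < r := not_lt.2 h.le
      cases hε : ε i r <;> simp [h, h']
    · have hε : ε i r = true := by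
        simp only [mv, mem_filter, mem_univ, true_and] at hr
        rcases hr with h2 | h2
        · exact absurd h.symm h2
        · exact h2
      rw [← h]
      simp [hε]
    · have h' : ¬ r < τ i r := not_lt.2 h.le
      cases hε : ε i r <;> simp [h, h']
  -- the chain
  let A : ℕ → Finset (Fin d) := fun j => univ.filter (fun r => ∀ i : Fin m, (i : ℕ) < j →
    r ∉ mv (τ i) (ε i))
  have hAss : ∀ j (hj : j < m), A (j + 1) ⊂ A j := by
    intro j hj
    rw [Finset.ssubset_iff_of_subset]
    · obtain ⟨r, hr⟩ := hne ⟨j, hj⟩
      refine ⟨r, ?_, ?_⟩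
      · simp only [A, mem_filter, mem_univ, true_and]
        intro i hi h
        have := huniq i ⟨j, hj⟩ r h hr
        rw [this] at hi
        exact lt_irrefl _ hi
      · simp only [A, mem_filter, mem_univ, true_and, not_forall, not_not]
        exact ⟨⟨j, hj⟩, Nat.lt_succ_self j, hr⟩
    · intro r hr
      simp only [A, mem_filter, mem_univ, true_and] at hr ⊢
      exact fun i hi => hr i (by omega)
  have hle : ∀ j j', j < j' → j' ≤ m → A j' ⊂ A j := by
    intro j j' hjj
    induction j', hjj using Nat.le_induction with
    | base => intro h; exact hAss j (by omega)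
    | succ n hn ih => intro h; exact lt_trans (hAss n (by omega)) (ih (by omega))
  have hcol : ∀ j n, j ≤ n → n ≤ m → c (sgn (A j) (flp (A j \ A n) v)) = c (sgn (A j) v) := by
    intro j n hjn
    induction n, hjn using Nat.le_induction with
    | base => intro _; rw [sdiff_self]; exact congrArg _ (congrArg _ (flp_empty v))
    | succ n hn ih =>
      intro hnm
      rw [← ih (by omega)]
      have hn' : n < m := by omega
      set i : Fin m := ⟨n, hn'⟩ with hi
      have h1 : flp (A j \ A (n + 1)) v = flp (mv (τ i) (ε i)) (flp (A j \ A n) v) := by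
        have h2 : A n \ A (n + 1) = mv (τ i) (ε i) := by
          ext r
          simp only [A, Finset.mem_sdiff, mem_filter, mem_univ, true_and, not_forall, not_not]
          constructor
          · rintro ⟨h3, i', hi', h4⟩
            have : ¬ (i' : ℕ) < n := fun h => h3 i' h h4
            have : i' = i := Fin.ext (by simp only [hi]; omega)
            rwa [← this]
          · intro h3
            refine ⟨?_, i, by simp [hi], h3⟩
            intro i' hi' h4
            have := huniq i' i r h4 h3
            rw [this] at hi'
            simp only [hi] at hi'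
            exact lt_irrefl _ hi'
        rw [flp_sdiff (hAss n hn').1 (by
          by_cases h : j = n
          · subst h; exact Finset.Subset.refl _
          · exact (hle j n (by omega) (by omega)).1), h2]
      rw [h1, ← iso_sgn]
      · exact hcinv i _
      · intro r
        by_cases hr : r ∈ mv (τ i) (ε i)
        · have h3 : ∀ s ∈ mv (τ i) (ε i), s ∈ A j := by
            intro s hs
            simp only [A, mem_filter, mem_univ, true_and]
            intro i' hi' h4
            have := huniq i' i s h4 hs
            rw [this] at hi'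
            simp only [hi] at hi'
            omega
          simp only [h3 r hr, h3 _ ((hmem i r).2 hr)]
        · rw [hfix i r hr]
      · intro r hr
        have h3 : ∀ s ∈ mv (τ i) (ε i), s ∉ A j \ A n := by
          intro s hs h4
          rw [Finset.mem_sdiff] at h4
          apply h4.2
          simp only [A, mem_filter, mem_univ, true_and]
          intro i' hi' h5
          have := huniq i' i s h5 hs
          rw [this] at hi'
          simp only [hi] at hi'
          exact lt_irrefl _ hi'
        have h4 : ∀ s ∈ mv (τ i) (ε i), flp (A j \ A n) v s = v s := by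
          intro s hs
          unfold flp
          rw [if_neg (h3 s hs)]
        rw [h4 r hr, h4 _ ((hmem i r).2 hr)]
        exact hv i r hr
  refine lt_of_chain (c := c) (fun j => sgn (A j) v) ?_
  intro j j' hjj hj'
  exact ne_of_mid hc (z := sgn (A j) (flp (A j \ A j') v)) (mid_sgn (hle j j' hjj hj').1 v)
    (sgn_ne (hle j j' hjj hj') v) (hcol j j' hjj.le hj')

end Pool.Agent.Lib.Pfd3312.Low
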