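import Pool.Agent.Lib.Pfd3312.Basic

set_option autoImplicit false

namespace Pool.Agent.Lib.Pfd3312

open Finset

/-- The midpoint of two points without zero symbol. -/
def mid {ι : Type} (x y : ι → Bool) : ι → Fin 3 := fun i =>
  if x i = y i then (if x i then 2 else 0) else 1

lemma Good.mid_ne {ι C : Type} {c : (ι → Fin 3) → C} (hc : Good c) {x y : ι → Bool}
    (hxy : x ≠ y) (h1 : c (mid x x) = c (mid y y)) : c (mid x y) ≠ c (mid x x) := by
  intro h2
  have : ∃ j, x j ≠ y j := by
    by_contra hcon
    push Not at hcon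
    exact hxy (funext hcon)
  obtain ⟨j, hj⟩ := this
  refine hc (fun i => if x i = y i then Sum.inl (if x i then 2 else 0) else Sum.inr (!(x i)))
    ⟨j, !(x j), by simp [hj]⟩ ?_
  have e0 : point (fun i => if x i = y i then Sum.inl (if x i then 2 else 0)
      else Sum.inr (!(x i))) 0 = mid x x := by
    funext i
    by_cases h : x i = y i
    · simp [point, mid, h]
    · cases hx : x i <;> cases hy : y i <;> simp_all [point, mid]
  have e1 : point (fun i => if x i = y i then Sum.inl (if x i then 2 else 0)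
      else Sum.inr (!(x i))) 1 = mid x y := by
    funext i
    by_cases h : x i = y i
    · simp [point, mid, h]
    · cases hx : x i <;> cases hy : y i <;> simp_all [point, mid] <;> rfl
  have e2 : point (fun i => if x i = y i then Sum.inl (if x i then 2 else 0)
      else Sum.inr (!(x i))) 2 = mid y y := by
    funext i
    by_cases h : x i = y i
    · simp [point, mid, h]
    · cases hx : x i <;> cases hy : y i <;> simp_all [point, mid] <;> rfl
  rw [e0, e1, e2]
  exact ⟨h2.symm, h2.trans h1⟩

lemma Good.restrict {α β C : Type} {c : (α ⊕ β → Fin 3) → C} (hc : Good c) (m : β → Fin 3) :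
    Good (fun p : α → Fin 3 => c (Sum.elim p m)) := by
  intro w ⟨j, b, hj⟩ hcon
  have key : ∀ i, point (Sum.elim w (fun k => Sum.inl (m k))) i = Sum.elim (point w i) m := by
    intro i
    funext s
    rcases s with s | s <;> simp [point]
  refine hc (Sum.elim w (fun k => Sum.inl (m k))) ⟨Sum.inl j, b, by simpa using hj⟩ ?_
  rw [key, key, key]
  exact hcon

lemma Good.reindex {ι κ C : Type} (e : κ ≃ ι) {c : (ι → Fin 3) → C} (hc : Good c) :
    Good (fun p : κ → Fin 3 => c (p ∘ e.symm)) := by
  intro w ⟨j, b, hj⟩ hcon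
  refine hc (w ∘ e.symm) ⟨e j, b, by simpa using hj⟩ ?_
  exact hcon

/-- Choice of a pair of fillings of the second block. -/
lemma pair_exists {α β : Type} [Fintype α] [Fintype β] [DecidableEq α] [DecidableEq β]
    (A : Finset (α ⊕ β → Bool)) (b : ℕ)
    (hA : 2 ^ (Fintype.card α + Fintype.card β) ≤ 2 ^ b * A.card)
    (hβ : Fintype.card β = b + 1) :
    ∃ z z' : β → Bool, z ≠ z' ∧ 2 ^ Fintype.card α ≤ 2 ^ (2 * b + 1) *
      (univ.filter (fun x : α → Bool => Sum.elim x z ∈ A ∧ Sum.elim x z' ∈ A)).card := by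
  classical
  by_contra hcon
  push Not at hcon
  set χ : (α → Bool) → (β → Bool) → ℕ := fun x z => if Sum.elim x z ∈ A then 1 else 0 with hχ
  set M : ℕ := 2 ^ Fintype.card α with hM
  set P : ℕ := 2 ^ b with hP
  set S : ℕ := A.card with hS
  have hMpos : 0 < M := by positivity
  have hPpos : 0 < P := by positivity
  have hcardα : Fintype.card (α → Bool) = M := by simp [hM]
  have hcardβ : Fintype.card (β → Bool) = 2 * P := by
    simp [hP, hβ, pow_succ, mul_comm]
  -- the total number
  have hSsum : ∑ x, ∑ z, χ x z = S := by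
    rw [← Fintype.sum_prod_type', hS, Finset.card_eq_sum_ones, ← Finset.sum_filter]
    · refine Finset.sum_bij (fun p _ => Sum.elim p.1 p.2) ?_ ?_ ?_ ?_
      · intro p hp
        simpa using hp
      · intro p _ q _ h
        have h1 := congrArg (fun g => g ∘ Sum.inl) h
        have h2 := congrArg (fun g => g ∘ Sum.inr) h
        simp only [Sum.elim_comp_inl, Sum.elim_comp_inr] at h1 h2
        exact Prod.ext h1 h2
      · intro g hg
        refine ⟨(g ∘ Sum.inl, g ∘ Sum.inr), ?_, ?_⟩
        · simpa using hg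
        · simp
      · intro p _
        rfl
  -- the number of pairs
  set T : ℕ := ∑ x, (∑ z, χ x z) ^ 2 with hT
  have hCS : S ^ 2 ≤ M * T := by
    have := sq_sum_le_card_mul_sum_sq (s := (univ : Finset (α → Bool)))
      (f := fun x => ∑ z, χ x z)
    rw [hSsum, Finset.card_univ, hcardα] at this
    exact this
  have hTeq : T = ∑ z, ∑ z', ∑ x, χ x z * χ x z' := by
    rw [hT]
    have h1 : ∀ x, (∑ z, χ x z) ^ 2 = ∑ z, ∑ z', χ x z * χ x z' := by
      intro x
      rw [sq, Finset.sum_mul_sum]
    simp_rw [h1]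
    rw [Finset.sum_comm]
    refine Finset.sum_congr rfl fun z _ => ?_
    rw [Finset.sum_comm]
  have hdiag : ∀ z, ∑ x, χ x z * χ x z = ∑ x, χ x z := by
    intro z
    refine Finset.sum_congr rfl fun x _ => ?_
    simp only [hχ]
    split_ifs <;> simp
  have hQ : ∀ z z', ∑ x, χ x z * χ x z' =
      (univ.filter (fun x : α → Bool => Sum.elim x z ∈ A ∧ Sum.elim x z' ∈ A)).card := by
    intro z z'
    rw [Finset.card_filter]
    refine Finset.sum_congr rfl fun x _ => ?_
    simp only [hχ]
    split_ifs <;> simp_all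
  have hpow : 2 ^ (2 * b + 1) = 2 * P ^ 2 := by
    rw [hP]; ring
  -- bound for each pair
  have hbound : ∀ z z', 2 * P ^ 2 * ∑ x, χ x z * χ x z' ≤
      M + (if z = z' then 2 * P ^ 2 * ∑ x, χ x z else 0) := by
    intro z z'
    by_cases h : z = z'
    · subst h
      rw [if_pos rfl, hdiag]
      omega
    · rw [if_neg h, hQ, ← hpow]
      exact (hcon z z' h).le
  have hex : ∃ z z' : β → Bool, z ≠ z' := by
    have : Nontrivial (β → Bool) := by
      rw [← Fintype.one_lt_card_iff_nontrivial, hcardβ]
      omega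
    exact exists_pair_ne _
  have hlt : 2 * P ^ 2 * T < ∑ z : β → Bool, ∑ z' : β → Bool,
      (M + (if z = z' then 2 * P ^ 2 * ∑ x, χ x z else 0)) := by
    rw [hTeq, Finset.mul_sum]
    obtain ⟨z, z', hzz⟩ := hex
    refine Finset.sum_lt_sum (fun u _ => ?_) ⟨z, mem_univ _, ?_⟩
    · rw [Finset.mul_sum]
      exact Finset.sum_le_sum fun v _ => hbound u v
    · rw [Finset.mul_sum]
      refine Finset.sum_lt_sum (fun v _ => hbound z v) ⟨z', mem_univ _, ?_⟩
      rw [if_neg hzz, hQ, ← hpow]
      exact hcon z z' hzz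
  have hrhs : ∑ z : β → Bool, ∑ z' : β → Bool,
      (M + (if z = z' then 2 * P ^ 2 * ∑ x, χ x z else 0)) = 2 * P ^ 2 * (S + 2 * M) := by
    have h1 : ∀ z : β → Bool, ∑ z' : β → Bool,
        (M + (if z = z' then 2 * P ^ 2 * ∑ x, χ x z else 0)) =
        2 * P * M + 2 * P ^ 2 * ∑ x, χ x z := by
      intro z
      rw [Finset.sum_add_distrib, Finset.sum_const, Finset.card_univ, hcardβ, smul_eq_mul]
      simp
    simp_rw [h1]
    rw [Finset.sum_add_distrib, Finset.sum_const, Finset.card_univ, hcardβ, smul_eq_mul,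
      ← Finset.mul_sum, Finset.sum_comm, hSsum]
    ring
  rw [hrhs] at hlt
  have hT2 : T < S + 2 * M := by
    have : 0 < 2 * P ^ 2 := by positivity
    exact lt_of_mul_lt_mul_left hlt (Nat.zero_le _)
  have hMS : 2 * M ≤ S := by
    rw [pow_add, hβ, pow_succ] at hA
    have : P * (2 * M) ≤ P * S := by
      calc P * (2 * M) = M * (P * 2) := by ring
        _ ≤ P * S := hA
    exact Nat.le_of_mul_le_mul_left this hPpos
  nlinarith

/-- The density induction. -/
theorem key {C : Type} [Fintype C] [DecidableEq C] (t : ℕ) (hC : Fintype.card C ≤ 2 ^ t) :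
    ∀ (l : ℕ) (ι : Type) [Fintype ι] [DecidableEq ι] (c : (ι → Fin 3) → C), Good c →
      ∀ (A : Finset (ι → Bool)) (Γ : Finset C) (a : ℕ), Γᶜ.card = l →
        (∀ x ∈ A, ∀ y ∈ A, c (mid x y) ∉ Γ) →
        2 ^ Fintype.card ι ≤ 2 ^ a * A.card →
        (2 ^ l - 1) * (a + 2 * t + 1) ≤ Fintype.card ι + l * t → False := by
  intro l
  induction l with
  | zero =>
    intro ι _ _ c hc A Γ a hΓ hA hdens _
    have hne : A.Nonempty := by
      rw [← Finset.card_pos]
      by_contra h
      have : A.card = 0 := by omega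
      rw [this, mul_zero] at hdens
      have : 0 < 2 ^ Fintype.card ι := by positivity
      omega
    obtain ⟨x, hx⟩ := hne
    have hΓ' : Γᶜ = ∅ := Finset.card_eq_zero.1 hΓ
    have : c (mid x x) ∈ Γ := by
      by_contra h
      have : c (mid x x) ∈ Γᶜ := by simpa using h
      rw [hΓ'] at this
      simp at this
    exact hA x hx x hx this
  | succ l ih =>
    intro ι _ _ c hc A Γ a hΓ hA hdens hn
    -- popular colour
    have hpop : ∃ γ ∈ Γᶜ, A.card ≤ 2 ^ t * (A.filter (fun x => c (mid x x) = γ)).card := by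
      by_contra hcon
      push Not at hcon
      have hmap : ∀ x ∈ A, c (mid x x) ∈ Γᶜ := by
        intro x hx
        simpa using hA x hx x hx
      have hsum := Finset.card_eq_sum_card_fiberwise hmap
      have hne : Γᶜ.Nonempty := by
        rw [← Finset.card_pos, hΓ]; omega
      have h1 : 2 ^ t * A.card < Γᶜ.card * A.card := by
        calc 2 ^ t * A.card
            = ∑ γ ∈ Γᶜ, 2 ^ t * (A.filter (fun x => c (mid x x) = γ)).card := by
              rw [← Finset.mul_sum, ← hsum]
          _ < ∑ _γ ∈ Γᶜ, A.card := Finset.sum_lt_sum_of_nonempty hne hcon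
          _ = Γᶜ.card * A.card := by rw [Finset.sum_const, smul_eq_mul]
      have h2 : Γᶜ.card ≤ 2 ^ t := (Finset.card_le_univ _).trans hC
      have h3 : Γᶜ.card * A.card ≤ 2 ^ t * A.card := Nat.mul_le_mul_right _ h2
      omega
    obtain ⟨γ, hγΓ, hγ⟩ := hpop
    set A1 := A.filter (fun x => c (mid x x) = γ) with hA1
    set b := a + t with hb
    have hdens1 : 2 ^ Fintype.card ι ≤ 2 ^ b * A1.card := by
      calc 2 ^ Fintype.card ι ≤ 2 ^ a * A.card := hdens
        _ ≤ 2 ^ a * (2 ^ t * A1.card) := Nat.mul_le_mul_left _ hγ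
        _ = 2 ^ b * A1.card := by rw [hb, pow_add]; ring
    -- arithmetic on the dimensions
    have hpowpos : 1 ≤ 2 ^ l := Nat.one_le_two_pow
    obtain ⟨s, hs⟩ : ∃ s, 2 ^ l = s + 1 := ⟨2 ^ l - 1, by omega⟩
    have hn' : (2 * s + 1) * (a + 2 * t + 1) ≤ Fintype.card ι + (l + 1) * t := by
      have : 2 ^ (l + 1) - 1 = 2 * s + 1 := by rw [pow_succ, hs]; omega
      rwa [this] at hn
    have hls : l ≤ s := by
      have : l < 2 ^ l := Nat.lt_two_pow_self
      omega
    have hlt : l * t ≤ s * t := Nat.mul_le_mul_right _ hls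
    have hcard : b + 1 ≤ Fintype.card ι := by
      rw [hb]
      nlinarith [Nat.zero_le (s * a), Nat.zero_le (s * t)]
    obtain ⟨n, hnn⟩ := Nat.exists_eq_add_of_le hcard
    -- splitting
    have hequiv : Nonempty (Fin n ⊕ Fin (b + 1) ≃ ι) := by
      apply Fintype.card_eq.1
      simp [hnn]
      omega
    obtain ⟨e⟩ := hequiv
    set c' : (Fin n ⊕ Fin (b + 1) → Fin 3) → C := fun p => c (p ∘ e.symm) with hc'
    have hgood' : Good c' := hc.reindex e
    set A2 : Finset (Fin n ⊕ Fin (b + 1) → Bool) :=
      univ.filter (fun x => x ∘ e.symm ∈ A1) with hA2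
    have hcardA2 : A2.card = A1.card := by
      refine Finset.card_bij (fun x _ => x ∘ e.symm) ?_ ?_ ?_
      · intro x hx
        simpa [hA2] using hx
      · intro x _ y _ h
        funext i
        have := congrFun h (e i)
        simpa using this
      · intro y hy
        refine ⟨y ∘ e, ?_, ?_⟩
        · simp only [hA2, mem_filter, mem_univ, true_and]
          have : (y ∘ e) ∘ e.symm = y := by funext i; simp
          rw [this]; exact hy
        · funext i; simp
    have hmid : ∀ x y : Fin n ⊕ Fin (b + 1) → Bool,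
        mid x y ∘ e.symm = mid (x ∘ e.symm) (y ∘ e.symm) := by
      intro x y; rfl
    have hdens2 : 2 ^ (Fintype.card (Fin n) + Fintype.card (Fin (b + 1))) ≤ 2 ^ b * A2.card := by
      rw [hcardA2]
      have : Fintype.card (Fin n) + Fintype.card (Fin (b + 1)) = Fintype.card ι := by
        simp [hnn]; omega
      rw [this]
      exact hdens1
    obtain ⟨z, z', hzz, hcardnew⟩ := pair_exists A2 b hdens2 (by simp)
    set A3 : Finset (Fin n → Bool) :=
      univ.filter (fun x => Sum.elim x z ∈ A2 ∧ Sum.elim x z' ∈ A2) with hA3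
    set c3 : (Fin n → Fin 3) → C := fun p => c' (Sum.elim p (mid z z')) with hc3
    have hgood3 : Good c3 := hgood'.restrict _
    have hmem2 : ∀ x ∈ A2, x ∘ e.symm ∈ A ∧ c' (mid x x) = γ := by
      intro x hx
      have h1 : x ∘ e.symm ∈ A1 := by simpa [hA2] using hx
      rw [hA1, mem_filter] at h1
      exact h1
    have helim : ∀ x y : Fin n → Bool,
        Sum.elim (mid x y) (mid z z') = mid (Sum.elim x z) (Sum.elim y z') := by
      intro x y
      funext i
      rcases i with i | i <;> rfl
    refine ih (Fin n) c3 hgood3 A3 (insert γ Γ) (2 * b + 1) ?_ ?_ ?_ ?_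
    · rw [Finset.compl_insert, Finset.card_erase_of_mem hγΓ, hΓ]
      omega
    · intro x hx y hy
      rw [hA3, mem_filter] at hx hy
      have hx1 := hmem2 _ hx.2.1
      have hy1 := hmem2 _ hy.2.2
      rw [Finset.mem_insert, not_or]
      constructor
      · show c' (Sum.elim (mid x y) (mid z z')) ≠ γ
        rw [helim, ← hx1.2]
        apply hgood'.mid_ne
        · intro h
          have := congrArg (fun g => g ∘ Sum.inr) h
          simp only [Sum.elim_comp_inr] at this
          exact hzz this
        · rw [hx1.2, hy1.2]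
      · show c' (Sum.elim (mid x y) (mid z z')) ∉ Γ
        rw [helim]
        show c (mid (Sum.elim x z) (Sum.elim y z') ∘ e.symm) ∉ Γ
        rw [hmid]
        exact hA _ hx1.1 _ hy1.1
    · exact hcardnew
    · rw [Fintype.card_fin]
      have h2l : 2 ^ l - 1 = s := by omega
      rw [h2l]
      have : Fintype.card ι = b + 1 + n := hnn
      rw [this, hb] at hn'
      rw [hb]
      nlinarith

/-- No good colouring with `k` colours in large dimension. -/
theorem not_col {d k : ℕ} (h : (2 ^ k - 1) * (2 * Nat.clog 2 k + 1) ≤ d + k * Nat.clog 2 k) :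
    ¬ Col d k := by
  rintro ⟨c, hc⟩
  have hk : k ≤ 2 ^ Nat.clog 2 k := Nat.le_pow_clog (by norm_num) k
  refine key (Nat.clog 2 k) (by simpa using hk) k (Fin d) c hc univ ∅ 0 ?_ ?_ ?_ ?_
  · simp
  · intro x _ y _
    simp
  · simp
  · simpa using h

end Pool.Agent.Lib.Pfd3312
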