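import Pool.Agent.Lib.Pfd3312.Basic

set_option autoImplicit false

namespace Pool.Agent.Lib.Pfd3312

open Finset

section
variable {d : ℕ} (j : ℕ)

/-- The special coordinates. -/
def Special (i : Fin d) : Prop := 0 < (i : ℕ) ∧ (i : ℕ) < j

instance : DecidablePred (Special (d := d) j) := fun _ => inferInstanceAs (Decidable (_ ∧ _))

/-- The weights. -/
def wt (i : Fin d) : ℤ := if Special j i then (i : ℕ) + 1 else 1

/-- Potential of a set of coordinates. -/
def pot (T : Finset (Fin d)) : ℕ :=
  2 * (T.filter (Special j)).card + 3 * (T.filter (fun i => ¬ Special j i)).card -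
    (T.filter (fun i => ¬ Special j i)).card % 2

lemma wt_pos (i : Fin d) : 1 ≤ wt j i := by
  unfold wt; split_ifs <;> omega

lemma wt_le (hj : 1 ≤ j) (i : Fin d) : wt j i ≤ j := by
  unfold wt
  split_ifs with h
  · have := h.2; omega
  · omega

lemma pot_le (h : 3 * d ≤ 13 * j + 4) (T : Finset (Fin d)) : pot j T ≤ 12 * j + 5 := by
  have h1 : (T.filter (Special j)).card ≤ (univ.filter (Special (d := d) j)).card :=
    Finset.card_le_card (Finset.filter_subset_filter _ (Finset.subset_univ _))
  have h2 : (T.filter (fun i => ¬ Special j i)).card ≤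
      (univ.filter (fun i : Fin d => ¬ Special j i)).card :=
    Finset.card_le_card (Finset.filter_subset_filter _ (Finset.subset_univ _))
  have h3 : (univ.filter (Special (d := d) j)).card +
      (univ.filter (fun i : Fin d => ¬ Special j i)).card = d := by
    rw [Finset.card_filter_add_card_filter_not, Finset.card_univ, Fintype.card_fin]
  have h4 : (univ.filter (Special (d := d) j)).card ≤ j - 1 := by
    have : (univ.filter (Special (d := d) j)).card ≤ (Finset.Ioo 0 j).card := by
      refine Finset.card_le_card_of_injOn (fun i : Fin d => (i : ℕ)) ?_ ?_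
      · intro i hi
        have hi' : Special j i := by simpa using hi
        simpa [Special] using hi'
      · intro a _ b _ hab
        exact Fin.ext hab
    simpa using this
  have h5 : j ≤ d → j - 1 ≤ (univ.filter (Special (d := d) j)).card := by
    intro hjd
    have hsub : Finset.Ioo 0 j ⊆
        (univ.filter (Special (d := d) j)).image (fun i : Fin d => (i : ℕ)) := by
      intro a ha
      rw [Finset.mem_Ioo] at ha
      rw [Finset.mem_image]
      exact ⟨⟨a, by omega⟩, by simpa using (show Special j (⟨a, by omega⟩ : Fin d) from ha), rfl⟩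
    have := (Finset.card_le_card hsub).trans Finset.card_image_le
    simpa using this
  unfold pot
  by_cases hjd : j ≤ d
  · have := h5 hjd
    omega
  · omega

/-- A nonzero integer of absolute value at most `2j` is nonzero modulo `2j+1`. -/
lemma not_dvd_of_small {z : ℤ} (h0 : z ≠ 0) (h1 : z ≤ 2 * j) (h2 : -(2 * j : ℤ) ≤ z) :
    ¬ ((2 * j + 1 : ℕ) : ℤ) ∣ z := by
  intro hdvd
  have h3 := Int.eq_zero_of_abs_lt_dvd hdvd (by
    rw [abs_lt]
    push_cast
    constructor <;> omega)
  exact h0 h3

/-- Splittable sets increase the potential by at least `6`. -/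
lemma pot_union (hj : 1 ≤ j) (T U : Finset (Fin d)) (hdisj : Disjoint T U) (hU : U.Nonempty)
    (ε : Fin d → ℤ) (hε : ∀ i ∈ U, ε i = 1 ∨ ε i = -1) (hε0 : ∀ i, i ∉ U → ε i = 0)
    (hdvd : ((2 * j + 1 : ℕ) : ℤ) ∣ ∑ i, wt j i * ε i) :
    pot j T + 6 ≤ pot j (T ∪ U) := by
  have hsum : ∑ i, wt j i * ε i = ∑ i ∈ U, wt j i * ε i := by
    symm
    apply Finset.sum_subset (Finset.subset_univ _)
    intro i _ hi
    rw [hε0 i hi, mul_zero]
  rw [hsum] at hdvd
  have hs : ((T ∪ U).filter (Special j)).card =
      (T.filter (Special j)).card + (U.filter (Special j)).card := by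
    rw [Finset.filter_union, Finset.card_union_of_disjoint]
    exact Finset.disjoint_filter_filter hdisj
  have hr : ((T ∪ U).filter (fun i => ¬ Special j i)).card =
      (T.filter (fun i => ¬ Special j i)).card + (U.filter (fun i => ¬ Special j i)).card := by
    rw [Finset.filter_union, Finset.card_union_of_disjoint]
    exact Finset.disjoint_filter_filter hdisj
  have hUc : (U.filter (Special j)).card + (U.filter (fun i => ¬ Special j i)).card = U.card :=
    Finset.card_filter_add_card_filter_not _
  have hU1 : 1 ≤ U.card := Finset.card_pos.2 hU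
  -- the cardinality of `U` is not one
  have hne1 : U.card ≠ 1 := by
    intro hc
    obtain ⟨i, rfl⟩ := Finset.card_eq_one.1 hc
    rw [Finset.sum_singleton] at hdvd
    have h1 := wt_pos j i
    have h2 := wt_le j hj i
    rcases hε i (by simp) with h | h <;> rw [h] at hdvd
    · exact not_dvd_of_small j (by omega) (by omega) (by omega) hdvd
    · exact not_dvd_of_small j (by omega) (by omega) (by omega) hdvd
  -- if it is two, both elements are not special
  have htwo : U.card = 2 → (U.filter (Special j)).card = 0 := by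
    intro hc
    obtain ⟨a, b, hab, rfl⟩ := Finset.card_eq_two.1 hc
    rw [Finset.sum_pair hab] at hdvd
    have ha1 := wt_pos j a
    have ha2 := wt_le j hj a
    have hb1 := wt_pos j b
    have hb2 := wt_le j hj b
    have heq : wt j a = wt j b := by
      by_contra hne
      rcases hε a (by simp) with h | h <;> rcases hε b (by simp) with h' | h' <;>
        rw [h, h'] at hdvd
      · exact not_dvd_of_small j (by omega) (by omega) (by omega) hdvd
      · exact not_dvd_of_small j (by omega) (by omega) (by omega) hdvd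
      · exact not_dvd_of_small j (by omega) (by omega) (by omega) hdvd
      · exact not_dvd_of_small j (by omega) (by omega) (by omega) hdvd
    rw [Finset.card_eq_zero, Finset.filter_eq_empty_iff]
    have habv : (a : ℕ) ≠ (b : ℕ) := fun h => hab (Fin.ext h)
    intro i hi hsp
    rw [Finset.mem_insert, Finset.mem_singleton] at hi
    unfold wt at heq
    rcases hi with rfl | rfl
    · have := hsp.1
      rw [if_pos hsp] at heq
      split_ifs at heq <;> omega
    · have := hsp.1
      rw [if_pos hsp] at heq
      split_ifs at heq <;> omega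
  unfold pot
  rw [hs, hr]
  by_cases h2 : U.card = 2
  · have := htwo h2
    omega
  · omega

/-- The colouring. -/
def colour (x : Fin d → Fin 3) : ℤ :=
  ((pot j (univ.filter (fun i => x i ≠ 1)) / 6 : ℕ) : ℤ) + ∑ i, wt j i * (((x i : ℕ) : ℤ) - 1)

/-- The sign vector of a string. -/
def sgn (w : Fin d → Fin 3 ⊕ Bool) (i : Fin d) : ℤ :=
  match w i with
  | Sum.inl _ => 0
  | Sum.inr true => 1
  | Sum.inr false => -1

theorem col_upper (hj : 1 ≤ j) (h : 3 * d ≤ 13 * j + 4) : Col d (2 * j + 1) := by
  classical
  refine ⟨fun x => (show Fin (2 * j + 1) from ((colour j x : ℤ) : ZMod (2 * j + 1))), ?_⟩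
  rintro w ⟨i0, b0, hi0⟩ ⟨h01, h12⟩
  change ((colour j (point w 0) : ℤ) : ZMod (2 * j + 1)) =
    ((colour j (point w 1) : ℤ) : ZMod (2 * j + 1)) at h01
  change ((colour j (point w 1) : ℤ) : ZMod (2 * j + 1)) =
    ((colour j (point w 2) : ℤ) : ZMod (2 * j + 1)) at h12
  rw [ZMod.intCast_eq_intCast_iff_dvd_sub] at h01 h12
  set U : Finset (Fin d) := univ.filter (fun i => (w i).isRight) with hU
  set T : Finset (Fin d) := univ.filter (fun i => point w 1 i ≠ 1) with hT
  have hdisj : Disjoint T U := by
    rw [Finset.disjoint_left]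
    intro i hiT hiU
    rw [hT, mem_filter] at hiT
    rw [hU, mem_filter] at hiU
    apply hiT.2
    have h2 := hiU.2
    unfold point
    rcases hwi : w i with a | b
    · rw [hwi] at h2; simp at h2
    · cases b <;> rfl
  have hsup0 : univ.filter (fun i => point w 0 i ≠ 1) = T ∪ U := by
    ext i
    simp only [hT, hU, mem_filter, mem_univ, true_and, mem_union, point]
    rcases hwi : w i with a | b
    · simp
    · cases b <;> simp
  have hsup2 : univ.filter (fun i => point w 2 i ≠ 1) = T ∪ U := by
    ext i
    simp only [hT, hU, mem_filter, mem_univ, true_and, mem_union, point]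
    rcases hwi : w i with a | b
    · simp
    · cases b <;> simp
  have hv0 : ∀ i, ((point w 0 i : ℕ) : ℤ) - 1 = (((point w 1 i : ℕ) : ℤ) - 1) - sgn w i := by
    intro i
    unfold point sgn
    rcases hwi : w i with a | b
    · simp
    · cases b <;> simp
  have hv2 : ∀ i, ((point w 2 i : ℕ) : ℤ) - 1 = (((point w 1 i : ℕ) : ℤ) - 1) + sgn w i := by
    intro i
    unfold point sgn
    rcases hwi : w i with a | b
    · simp
    · cases b <;> simp
  set τ : ℤ := ∑ i, wt j i * sgn w i with hτ
  set σ : ℤ := ∑ i, wt j i * (((point w 1 i : ℕ) : ℤ) - 1) with hσ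
  have hc0 : colour j (point w 0) = ((pot j (T ∪ U) / 6 : ℕ) : ℤ) + (σ - τ) := by
    unfold colour
    rw [hsup0, hσ, hτ, ← Finset.sum_sub_distrib]
    congr 1
    refine Finset.sum_congr rfl fun i _ => ?_
    rw [hv0]; ring
  have hc1 : colour j (point w 1) = ((pot j T / 6 : ℕ) : ℤ) + σ := rfl
  have hc2 : colour j (point w 2) = ((pot j (T ∪ U) / 6 : ℕ) : ℤ) + (σ + τ) := by
    unfold colour
    rw [hsup2, hσ, hτ, ← Finset.sum_add_distrib]
    congr 1
    refine Finset.sum_congr rfl fun i _ => ?_
    rw [hv2]; ring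
  rw [hc0, hc1] at h01
  rw [hc1, hc2] at h12
  have h2τ : ((2 * j + 1 : ℕ) : ℤ) ∣ 2 * τ := by
    have := dvd_add h01 h12
    ring_nf at this ⊢
    exact this
  have hdτ : ((2 * j + 1 : ℕ) : ℤ) ∣ τ := by
    have hcop : IsCoprime ((2 * j + 1 : ℕ) : ℤ) 2 := by
      refine ⟨1, -j, ?_⟩
      push_cast; ring
    exact hcop.dvd_of_dvd_mul_left h2τ
  have hUne : U.Nonempty := ⟨i0, by simp [hU, hi0]⟩
  have hpot := pot_union j hj T U hdisj hUne (sgn w) (by
      intro i hi
      rw [hU, mem_filter] at hi
      have h2 := hi.2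
      unfold sgn
      rcases hwi : w i with a | b
      · rw [hwi] at h2; simp at h2
      · cases b <;> simp) (by
      intro i hi
      have h2 : ¬ (w i).isRight := by simpa [hU] using hi
      unfold sgn
      rcases hwi : w i with a | b
      · rfl
      · rw [hwi] at h2; simp at h2) hdτ
  have hle := pot_le j h (T ∪ U)
  have hdvd2 : ((2 * j + 1 : ℕ) : ℤ) ∣
      ((pot j (T ∪ U) / 6 : ℕ) : ℤ) - ((pot j T / 6 : ℕ) : ℤ) := by
    have h3 := dvd_sub h12 hdτ
    ring_nf at h3 ⊢
    exact h3
  have hlt : pot j T / 6 + 1 ≤ pot j (T ∪ U) / 6 := by omega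
  have hle2 : pot j (T ∪ U) / 6 ≤ 2 * j := by omega
  exact not_dvd_of_small j (by omega) (by omega) (by omega) hdvd2

end

end Pool.Agent.Lib.Pfd3312
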